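import Pool.Agent.Helper40.FL.Basic

/-! Degrees in the random triple system: modules P1 and P2 of project FL. -/

set_option autoImplicit false
open Classical Filter Topology

namespace Pool.Agent.Helper40.FL

theorem h84_small {a : ℝ} (ha : 0 < a) {η : ℝ} (hη : 0 < η) : ∃ N : ℕ, 1 ≤ N ∧ ∀ n ≥ N,
    3 * (n : ℝ) ^ 2 * Real.exp (-((2 + a) * Real.log n)) ≤ η := by
  refine ⟨⌈Real.exp (-Real.log (η / 3) / a)⌉₊ + 1, by omega, ?_⟩
  intro n hn
  have hn1 : (Real.exp (-Real.log (η / 3) / a)) ≤ (n : ℝ) := by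
    refine (Nat.le_ceil _).trans ?_
    exact_mod_cast (Nat.le_succ _).trans hn
  have hnpos : (0 : ℝ) < n := (Real.exp_pos _).trans_le hn1
  have h1 : -Real.log (η / 3) / a ≤ Real.log n := (Real.le_log_iff_exp_le hnpos).2 hn1
  have h2 : -Real.log (η / 3) ≤ Real.log n * a := (div_le_iff₀ ha).1 h1
  have h3 : (n : ℝ) ^ 2 = Real.exp (2 * Real.log n) := by
    rw [mul_comm, Real.exp_mul, Real.exp_log hnpos]
    norm_num
  rw [h3, mul_assoc, ← Real.exp_add]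
  have h4 : 2 * Real.log n + -((2 + a) * Real.log n) ≤ Real.log (η / 3) := by nlinarith
  have h5 := Real.exp_le_exp.2 h4
  rw [Real.exp_log (by positivity)] at h5
  linarith

theorem h84_card_Ed (n : ℕ) : ((Finset.univ : Finset (Ed n)).card : ℝ) = 3 * (n : ℝ) ^ 2 := by
  rw [Finset.card_univ]
  simp only [Fintype.card_prod, Fintype.card_fin]
  push_cast
  ring

theorem h40_inter_inst {X : Type} (i1 i2 : DecidableEq X) (A B : Finset X) :
    @Inter.inter _ (@Finset.instInter X i1) A B = @Inter.inter _ (@Finset.instInter X i2) A B := by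
  rw [Subsingleton.elim i1 i2]

theorem h84_dg_upper {n : ℕ} {p : ℝ} (h0 : 0 ≤ p) (h1 : p ≤ 1) (e : Ed n) {s : ℝ} (hs : 0 ≤ s)
    (L : ℝ) : Pr p (fun T : Finset (Tr n) => L ≤ (dg T e : ℝ)) ≤
      Real.exp (p * n * (Real.exp s - 1) - s * L) := by
  have h := Pr_upper (X := Tr n) h0 h1 (Finset.univ.filter fun x : Tr n => edge e.1 x = e) hs L
  rw [card_line] at h
  refine (Pr_mono h0 h1 ?_).trans h
  intro S hS
  rw [dg_eq_inter] at hS
  exact le_of_le_of_eq hS (congrArg (fun A : Finset (Tr n) => (A.card : ℝ)) (h40_inter_inst _ _ _ _))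

theorem h84_dg_lower {n : ℕ} {p : ℝ} (h0 : 0 ≤ p) (h1 : p ≤ 1) (e : Ed n) {s : ℝ} (hs : 0 ≤ s)
    (L : ℝ) : Pr p (fun T : Finset (Tr n) => (dg T e : ℝ) ≤ L) ≤
      Real.exp (s * L - p * n * (1 - Real.exp (-s))) := by
  have h := Pr_lower (X := Tr n) h0 h1 (Finset.univ.filter fun x : Tr n => edge e.1 x = e) hs L
  rw [card_line] at h
  refine (Pr_mono h0 h1 ?_).trans h
  intro S hS
  rw [dg_eq_inter] at hS
  exact le_of_eq_of_le (congrArg (fun A : Finset (Tr n) => (A.card : ℝ)) (h40_inter_inst _ _ _ _)) hS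

/-- P1 -/
theorem pr_lo {ε : ℝ} (hε : 0 < ε) : ∃ c > 0, c ≤ 1 / 4 ∧ ∀ η > 0, ∃ N : ℕ, ∀ n ≥ N, ∀ p : ℝ,
    0 ≤ p → p ≤ 1 → (2 + ε) * Real.log n ≤ p * n →
    Pr p (fun T : Finset (Tr n) => ¬ ∀ e, c * (p * n) ≤ dg T e) ≤ η := by
  obtain ⟨δ, hδ⟩ : ∃ δ, δ = ε / (4 * (2 + ε)) := ⟨_, rfl⟩
  have hδ0 : 0 < δ := by rw [hδ]; positivity
  have hδ1 : δ < 1 / 2 := by
    rw [hδ, div_lt_iff₀ (by positivity)]
    nlinarith
  have hδ2 : (1 - 2 * δ) * (2 + ε) = 2 + ε / 2 := by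
    rw [hδ]
    field_simp
    ring
  obtain ⟨s, hs'⟩ : ∃ s, s = -Real.log δ := ⟨_, rfl⟩
  have hs : 0 < s := by
    have := Real.log_neg hδ0 (by linarith)
    linarith
  have hexp : Real.exp (-s) = δ := by rw [hs', neg_neg, Real.exp_log hδ0]
  obtain ⟨c, hc⟩ : ∃ c, c = min (1 / 4) (δ / s) := ⟨_, rfl⟩
  have hc0 : 0 < c := by rw [hc]; positivity
  have hc1 : c ≤ 1 / 4 := by rw [hc]; exact min_le_left _ _
  have hcs : s * c ≤ δ := by
    have h1 : c ≤ δ / s := by rw [hc]; exact min_le_right _ _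
    calc s * c ≤ s * (δ / s) := mul_le_mul_of_nonneg_left h1 hs.le
      _ = δ := by field_simp
  refine ⟨c, hc0, hc1, ?_⟩
  intro η hη
  obtain ⟨N, hN1, hN⟩ := h84_small (a := ε / 2) (by positivity) hη
  refine ⟨N, fun n hn p hp0 hp1 hp => ?_⟩
  have hnpos : (1 : ℝ) ≤ n := by exact_mod_cast hN1.trans hn
  have hlog : 0 ≤ Real.log n := Real.log_nonneg hnpos
  have hb : ∀ e ∈ (Finset.univ : Finset (Ed n)),
      Pr p (fun T : Finset (Tr n) => (dg T e : ℝ) ≤ c * (p * n)) ≤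
        Real.exp (-((2 + ε / 2) * Real.log n)) := by
    intro e _
    refine (h84_dg_lower hp0 hp1 e hs.le _).trans ?_
    rw [Real.exp_le_exp, hexp]
    have hD : 0 ≤ p * n := by positivity
    have h1 : (s * c) * (p * n) ≤ δ * (p * n) := mul_le_mul_of_nonneg_right hcs hD
    have h2 : (1 - 2 * δ) * ((2 + ε) * Real.log n) ≤ (1 - 2 * δ) * (p * n) :=
      mul_le_mul_of_nonneg_left hp (by linarith)
    have h3 : (1 - 2 * δ) * ((2 + ε) * Real.log n) = (2 + ε / 2) * Real.log n := by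
      rw [← mul_assoc, hδ2]
    linarith [mul_assoc s c (p * n)]
  have h1 : Pr p (fun T : Finset (Tr n) => ¬ ∀ e, c * (p * n) ≤ dg T e) ≤
      Pr p (fun T : Finset (Tr n) => ∃ e ∈ (Finset.univ : Finset (Ed n)),
        (dg T e : ℝ) ≤ c * (p * n)) := by
    refine Pr_mono hp0 hp1 fun T hT => ?_
    push Not at hT
    obtain ⟨e, he⟩ := hT
    exact ⟨e, Finset.mem_univ _, he.le⟩
  refine h1.trans ((Pr_exists_le hp0 hp1 Finset.univ
    (fun (e : Ed n) (T : Finset (Tr n)) => (dg T e : ℝ) ≤ c * (p * n))).trans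
      ((Finset.sum_le_sum hb).trans ?_))
  rw [Finset.sum_const, nsmul_eq_mul, h84_card_Ed]
  exact hN n hn

/-- P2 -/
theorem pr_hi : ∀ η > 0, ∃ N : ℕ, ∀ n ≥ N, ∀ p : ℝ, 0 ≤ p → p ≤ 1 → 2 * Real.log n ≤ p * n →
    Pr p (fun T : Finset (Tr n) => ¬ ∀ e, (dg T e : ℝ) ≤ 16 * (p * n)) ≤ η := by
  intro η hη
  obtain ⟨N, hN1, hN⟩ := h84_small (a := 1) one_pos hη
  refine ⟨N, fun n hn p hp0 hp1 hp => ?_⟩
  have hnpos : (1 : ℝ) ≤ n := by exact_mod_cast hN1.trans hn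
  have hlog : 0 ≤ Real.log n := Real.log_nonneg hnpos
  have hb : ∀ e ∈ (Finset.univ : Finset (Ed n)),
      Pr p (fun T : Finset (Tr n) => 16 * (p * n) ≤ (dg T e : ℝ)) ≤
        Real.exp (-((2 + 1) * Real.log n)) := by
    intro e _
    refine (h84_dg_upper hp0 hp1 e zero_le_one _).trans ?_
    rw [Real.exp_le_exp]
    have he : Real.exp 1 ≤ 3 := Real.exp_one_lt_three.le
    have hD : 0 ≤ p * n := by positivity
    have h1 : p * n * (Real.exp 1 - 1) ≤ p * n * 2 :=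
      mul_le_mul_of_nonneg_left (by linarith) hD
    linarith
  have h1 : Pr p (fun T : Finset (Tr n) => ¬ ∀ e, (dg T e : ℝ) ≤ 16 * (p * n)) ≤
      Pr p (fun T : Finset (Tr n) => ∃ e ∈ (Finset.univ : Finset (Ed n)),
        16 * (p * n) ≤ (dg T e : ℝ)) := by
    refine Pr_mono hp0 hp1 fun T hT => ?_
    push Not at hT
    obtain ⟨e, he⟩ := hT
    exact ⟨e, Finset.mem_univ _, he.le⟩
  refine h1.trans ((Pr_exists_le hp0 hp1 Finset.univ
    (fun (e : Ed n) (T : Finset (Tr n)) => 16 * (p * n) ≤ (dg T e : ℝ))).trans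
      ((Finset.sum_le_sum hb).trans ?_))
  rw [Finset.sum_const, nsmul_eq_mul, h84_card_Ed]
  exact hN n hn

end Pool.Agent.Helper40.FL
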