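import Pool.Agent.Helper40.FL.Basic

/-! Project FL, module P3: few triples between small neighbourhoods. -/

set_option autoImplicit false
open Classical Filter Topology

namespace Pool.Agent.Helper40.FL

/-- one pair of sets -/
theorem small_one {n : ℕ} {κ s δ p : ℝ} (hs0 : 0 ≤ s) (hs : s * κ = 3)
    (hδ' : δ * (Real.exp s - 1) ≤ 2) (h0 : 0 ≤ p) (h1 : p ≤ 1)
    (i : Fin 3) (v : Fin n) (X Z : Finset (Fin n)) (hk : (X.card + Z.card : ℝ) ≤ δ * n) :
    Pr p (fun T : Finset (Tr n) => κ * (p * n) * (X.card + Z.card) ≤ (cnt T i v X Z : ℝ)) ≤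
      Real.exp (-(5 / 2 * (p * n))) ^ (X.card + Z.card) := by
  have h := Pr_upper (X := Tr n) h0 h1
    (Finset.univ.filter fun x : Tr n => x i = v ∧ x (i + 2) ∈ X ∧ x (i + 1) ∈ Z) hs0
    (κ * (p * n) * (X.card + Z.card))
  refine (Pr_mono h0 h1 ?_).trans (h.trans ?_)
  · intro S hS
    rw [cnt_eq_inter] at hS
    refine hS.trans (le_of_eq ?_)
    congr 2
    ext x
    simp only [Finset.mem_inter]
  clear h
  rw [card_cnt, ← Real.exp_nat_mul, Real.exp_le_exp]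
  push_cast
  set a : ℝ := (X.card : ℝ) with ha
  set b : ℝ := (Z.card : ℝ) with hb
  have ha0 : 0 ≤ a := Nat.cast_nonneg _
  have hb0 : 0 ≤ b := Nat.cast_nonneg _
  have hE : 0 ≤ Real.exp s - 1 := by linarith [Real.add_one_le_exp s]
  have h2 : a * b ≤ (a + b) * (δ * n) / 4 := by nlinarith [sq_nonneg (a - b)]
  have h3 : p * (a * b) * (Real.exp s - 1) ≤ p * ((a + b) * (δ * n) / 4) * (Real.exp s - 1) :=
    mul_le_mul_of_nonneg_right (mul_le_mul_of_nonneg_left h2 h0) hE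
  have hn0 : (0 : ℝ) ≤ n := Nat.cast_nonneg n
  have h4 : 0 ≤ p * (a + b) * n / 4 := by positivity
  have h5 : p * ((a + b) * (δ * n) / 4) * (Real.exp s - 1) ≤ p * (a + b) * n / 4 * 2 := by
    have : p * ((a + b) * (δ * n) / 4) * (Real.exp s - 1) =
        p * (a + b) * n / 4 * (δ * (Real.exp s - 1)) := by ring
    rw [this]
    exact mul_le_mul_of_nonneg_left hδ' h4
  have h6 : s * (κ * (p * n) * (a + b)) = 3 * (p * n) * (a + b) := by
    rw [← hs]; ring
  rw [h6]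
  nlinarith

theorem sum_pow_card (n : ℕ) (q : ℝ) : ∑ X : Finset (Fin n), q ^ X.card = (1 + q) ^ n := by
  have h := Fintype.sum_pow_mul_eq_add_pow (Fin n) q 1
  simp only [one_pow, mul_one, Fintype.card_fin] at h
  rw [h, add_comm]

/-- P3 -/
theorem pr_small {κ : ℝ} (hκ : 0 < κ) : ∃ δ > 0, ∀ η > 0, ∃ N : ℕ, ∀ n ≥ N, ∀ p : ℝ,
    0 ≤ p → p ≤ 1 → 2 * Real.log n ≤ p * n →
    Pr p (fun T : Finset (Tr n) => ¬ ∀ (i : Fin 3) (v : Fin n) (X Z : Finset (Fin n)),
      (X.card + Z.card : ℝ) ≤ δ * n → (cnt T i v X Z : ℝ) ≤ κ * (p * n) * (X.card + Z.card)) ≤ η := by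
  have hs0 : 0 ≤ 3 / κ := by positivity
  have hs : 3 / κ * κ = 3 := by field_simp
  have hE : 0 < Real.exp (3 / κ) := Real.exp_pos _
  refine ⟨2 / Real.exp (3 / κ), by positivity, fun η hη => ⟨max 2 ⌈12 / η⌉₊, ?_⟩⟩
  intro n hn p h0 h1 hp
  have hδ' : 2 / Real.exp (3 / κ) * (Real.exp (3 / κ) - 1) ≤ 2 := by
    rw [div_mul_eq_mul_div, div_le_iff₀ hE]
    linarith
  have hn2 : 2 ≤ n := (le_max_left _ _).trans hn
  have hn3 : 12 / η ≤ n := (Nat.le_ceil _).trans (by exact_mod_cast (le_max_right _ _).trans hn)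
  have hn1 : (2 : ℝ) ≤ n := by exact_mod_cast hn2
  have hnpos : (0 : ℝ) < n := by linarith
  set q : ℝ := Real.exp (-(5 / 2 * (p * n))) with hq
  have hq0 : 0 < q := Real.exp_pos _
  have hqn : q * (n : ℝ) ^ 5 ≤ 1 := by
    have e1 : (n : ℝ) ^ 5 = Real.exp (5 * Real.log n) := by
      rw [show (5 : ℝ) = ((5 : ℕ) : ℝ) by norm_num, Real.exp_nat_mul, Real.exp_log hnpos]
    rw [e1, hq, ← Real.exp_add, Real.exp_le_one_iff]
    linarith
  set δ : ℝ := 2 / Real.exp (3 / κ) with hδ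
  -- the union bound
  set s : Finset (Fin 3 × Fin n × Finset (Fin n) × Finset (Fin n)) :=
    Finset.univ.filter fun b => (b.2.2.1, b.2.2.2) ≠ (∅, ∅) ∧
      (b.2.2.1.card + b.2.2.2.card : ℝ) ≤ δ * n with hsdef
  have hA := Pr_exists_le (X := Tr n) h0 h1 s (fun b T =>
    κ * (p * n) * (b.2.2.1.card + b.2.2.2.card) ≤ (cnt T b.1 b.2.1 b.2.2.1 b.2.2.2 : ℝ))
  have hB : Pr p (fun T : Finset (Tr n) => ¬ ∀ (i : Fin 3) (v : Fin n) (X Z : Finset (Fin n)),
      (X.card + Z.card : ℝ) ≤ δ * n → (cnt T i v X Z : ℝ) ≤ κ * (p * n) * (X.card + Z.card)) ≤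
      Pr p (fun T : Finset (Tr n) => ∃ b ∈ s,
        κ * (p * n) * (b.2.2.1.card + b.2.2.2.card) ≤ (cnt T b.1 b.2.1 b.2.2.1 b.2.2.2 : ℝ)) := by
    apply Pr_mono h0 h1
    intro T hT
    push Not at hT
    obtain ⟨i, v, X, Z, hk, hlt⟩ := hT
    refine ⟨(i, v, X, Z), ?_, hlt.le⟩
    rw [hsdef, Finset.mem_filter]
    refine ⟨Finset.mem_univ _, ?_, hk⟩
    intro hXZ
    rw [Prod.mk.injEq] at hXZ
    obtain ⟨rfl, rfl⟩ := hXZ
    simp [cnt] at hlt
  refine hB.trans (hA.trans ?_)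
  have hC : ∀ b ∈ s, Pr p (fun T : Finset (Tr n) =>
      κ * (p * n) * (b.2.2.1.card + b.2.2.2.card) ≤ (cnt T b.1 b.2.1 b.2.2.1 b.2.2.2 : ℝ)) ≤
      q ^ b.2.2.1.card * q ^ b.2.2.2.card := by
    intro b hb
    rw [hsdef, Finset.mem_filter] at hb
    have h := small_one hs0 hs hδ' h0 h1 b.1 b.2.1 b.2.2.1 b.2.2.2 hb.2.2
    rw [pow_add] at h
    exact h
  have hD : ∑ b ∈ s, q ^ b.2.2.1.card * q ^ b.2.2.2.card ≤ 3 * n * (((1 + q) ^ n) ^ 2 - 1) := by
    have h2 : ∑ b ∈ s, q ^ b.2.2.1.card * q ^ b.2.2.2.card ≤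
        ∑ b ∈ (Finset.univ : Finset (Fin 3 × Fin n × Finset (Fin n) × Finset (Fin n))).filter
          (fun b => b.2.2 ≠ (∅, ∅)), q ^ b.2.2.1.card * q ^ b.2.2.2.card := by
      apply Finset.sum_le_sum_of_subset_of_nonneg
      · intro b hb
        rw [hsdef, Finset.mem_filter] at hb
        rw [Finset.mem_filter]
        exact ⟨Finset.mem_univ _, hb.2.1⟩
      · intro b _ _
        positivity
    refine h2.trans (le_of_eq ?_)
    rw [Finset.sum_filter, Fintype.sum_prod_type]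
    simp only [Fintype.sum_prod_type (f := fun x : Fin n × Finset (Fin n) × Finset (Fin n) => _)]
    have h3 : ∑ x : Finset (Fin n) × Finset (Fin n),
        (if x ≠ (∅, ∅) then q ^ x.1.card * q ^ x.2.card else 0) = ((1 + q) ^ n) ^ 2 - 1 := by
      have h4 : ∑ x : Finset (Fin n) × Finset (Fin n), q ^ x.1.card * q ^ x.2.card =
          ((1 + q) ^ n) ^ 2 := by
        rw [← sum_pow_card, sq, Finset.sum_mul_sum, Fintype.sum_prod_type]
      have h5 : ∑ x : Finset (Fin n) × Finset (Fin n),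
          (if x = (∅, ∅) then q ^ x.1.card * q ^ x.2.card else 0) = 1 := by
        rw [Finset.sum_ite_eq' Finset.univ ((∅, ∅) : Finset (Fin n) × Finset (Fin n))]
        simp
      rw [← h4, ← h5, ← Finset.sum_sub_distrib]
      refine Finset.sum_congr rfl fun x _ => ?_
      by_cases hx : x = (∅, ∅) <;> simp [hx]
    simp only [h3]
    simp
    ring
  refine ((Finset.sum_le_sum hC).trans hD).trans ?_
  have hq1 : q ≤ 1 := by
    rw [hq, Real.exp_le_one_iff]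
    have : 0 ≤ p * n := by positivity
    linarith
  -- (1+q)^(2n) - 1 ≤ 4 n q
  have hF : ((1 + q) ^ n) ^ 2 - 1 ≤ 4 * n * q := by
    have h2 : (1 + q) ^ n ≤ Real.exp (n * q) := by
      rw [Real.exp_nat_mul]
      apply pow_le_pow_left₀ (by linarith)
      linarith [Real.add_one_le_exp q]
    have h3 : ((1 + q) ^ n) ^ 2 ≤ Real.exp (2 * n * q) := by
      have h4 : Real.exp (2 * n * q) = Real.exp (n * q) ^ 2 := by
        rw [← Real.exp_nat_mul]
        congr 1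
        push_cast
        ring
      rw [h4]
      exact pow_le_pow_left₀ (by positivity) h2 2
    have h5 : 2 * n * q ≤ 1 := by
      have h6 : 2 * n * q ≤ q * (n : ℝ) ^ 5 := by
        have : 2 * (n : ℝ) ≤ (n : ℝ) ^ 5 := by
          have h7 : (2 : ℝ) ≤ (n : ℝ) ^ 4 :=
            (by norm_num : (2 : ℝ) ≤ 2 ^ 4).trans (pow_le_pow_left₀ (by norm_num) hn1 4)
          calc 2 * (n : ℝ) ≤ (n : ℝ) ^ 4 * n := mul_le_mul_of_nonneg_right h7 hnpos.le
            _ = (n : ℝ) ^ 5 := by ring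
        nlinarith
      linarith
    have h8 : Real.exp (2 * n * q) ≤ 1 + 2 * (2 * n * q) := by
      have h9 : 0 ≤ 2 * n * q := by positivity
      have h10 := Real.exp_bound' h9 h5 (n := 2) (by norm_num)
      have h11 : (2 * n * q) ^ 2 ≤ 2 * n * q := by nlinarith
      simp [Finset.sum_range_succ] at h10
      nlinarith
    linarith
  have hG : 3 * n * (((1 + q) ^ n) ^ 2 - 1) ≤ 3 * n * (4 * n * q) :=
    mul_le_mul_of_nonneg_left hF (by positivity)
  have hH : 3 * (n : ℝ) * (4 * n * q) * n ≤ 12 := by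
    have h7 : (n : ℝ) ^ 3 ≤ (n : ℝ) ^ 5 := pow_le_pow_right₀ (by linarith) (by norm_num)
    nlinarith
  have hI : 12 ≤ η * n := by
    rw [div_le_iff₀ hη] at hn3
    linarith
  have hJ : 3 * (n : ℝ) * (4 * n * q) * n ≤ η * n := hH.trans hI
  exact hG.trans (le_of_mul_le_mul_right hJ hnpos)

end Pool.Agent.Helper40.FL
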