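import Pool.Agent.Helper40.FL.Basic

/-!
Project FL, module P4: upper bound for the number of triples at a vertex with the two other
vertices in given sets.
-/

set_option autoImplicit false
open Classical Filter Topology

namespace Pool.Agent.Helper40.FL

private theorem h83_exp_sub {s : ℝ} (h0 : 0 ≤ s) (h1 : s ≤ 1) : Real.exp s - 1 - s ≤ s ^ 2 := by
  have h := Real.abs_exp_sub_one_sub_id_le (x := s) (by rw [abs_of_nonneg h0]; exact h1)
  exact (le_abs_self _).trans h

/-- the exponent -/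
private theorem h83_arith {n : ℕ} (hn0 : (0 : ℝ) < n) {p lam s a b : ℝ} (h0 : 0 ≤ p)
    (hs : 0 ≤ s) (hs1 : s ≤ 1) (hs2 : s ≤ lam / 2)
    (ha : a ≤ n) (hb : b ≤ n) (hb0 : 0 ≤ b) :
    p * (a * b) * (Real.exp s - 1) - s * (p * n / n * (a * b) + lam * (p * n) * n) ≤
      -(s * lam / 2 * ((p * n) * n)) := by
  rw [mul_div_assoc, div_self hn0.ne', mul_one]
  have hXZ : a * b ≤ n * n := mul_le_mul ha hb hb0 hn0.le
  have e1 := h83_exp_sub hs hs1
  have e2 : 0 ≤ Real.exp s - 1 - s := by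
    have := Real.add_one_le_exp s
    linarith
  have e3 : p * (a * b) * (Real.exp s - 1) - s * (p * (a * b) + lam * (p * n) * n) =
      p * (a * b) * (Real.exp s - 1 - s) - s * lam * ((p * n) * n) := by ring
  rw [e3]
  have e4 : p * (a * b) * (Real.exp s - 1 - s) ≤ p * (n * n) * s ^ 2 :=
    mul_le_mul (mul_le_mul_of_nonneg_left hXZ h0) e1 e2 (by positivity)
  have e5 : p * (n * n) * s ^ 2 ≤ s * lam / 2 * ((p * n) * n) := by
    have h5 : s ^ 2 ≤ s * (lam / 2) := by
      rw [pow_two]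
      exact mul_le_mul_of_nonneg_left hs2 hs
    have h6 : p * (n * n) * s ^ 2 ≤ p * (n * n) * (s * (lam / 2)) :=
      mul_le_mul_of_nonneg_left h5 (by positivity)
    refine h6.trans (le_of_eq ?_)
    ring
  linarith

/-- one choice of the vertex and the sets -/
private theorem h83_one {n : ℕ} (hn : 0 < n) {p lam s : ℝ} (h0 : 0 ≤ p) (h1 : p ≤ 1)
    (hs : 0 ≤ s) (hs1 : s ≤ 1) (hs2 : s ≤ lam / 2)
    (X Z : Finset (Fin n)) (A : Finset (Tr n)) (hcard : A.card = X.card * Z.card) :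
    Pr p (fun T : Finset (Tr n) => p * n / n * (X.card * Z.card) + lam * (p * n) * n ≤
        ((T ∩ A).card : ℝ)) ≤
      Real.exp (-(s * lam / 2 * ((p * n) * n))) := by
  have hn0 : (0 : ℝ) < n := by exact_mod_cast hn
  have hup := Pr_upper (X := Tr n) h0 h1 A hs
    (p * n / n * (X.card * Z.card) + lam * (p * n) * n)
  have hX : (X.card : ℝ) ≤ n := by
    have := Finset.card_le_univ X
    rw [Fintype.card_fin] at this
    exact_mod_cast this
  have hZ : (Z.card : ℝ) ≤ n := by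
    have := Finset.card_le_univ Z
    rw [Fintype.card_fin] at this
    exact_mod_cast this
  have hcard' : (A.card : ℝ) = (X.card : ℝ) * Z.card := by rw [hcard]; push_cast; rfl
  have hex := h83_arith hn0 (lam := lam) h0 hs hs1 hs2 hX hZ (Nat.cast_nonneg _)
  rw [← hcard'] at hex
  rw [← hcard'] at hup ⊢
  refine le_trans ?_ (hup.trans (Real.exp_le_exp.2 hex))
  refine Pr_mono h0 h1 fun T hT => ?_
  have e : ∀ (i1 i2 : DecidableEq (Tr n)), @Inter.inter _ (@Finset.instInter (Tr n) i1) T A =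
      @Inter.inter _ (@Finset.instInter (Tr n) i2) T A := by
    intro i1 i2; rw [Subsingleton.elim i1 i2]
  exact le_of_le_of_eq hT (congrArg (fun A : Finset (Tr n) => (A.card : ℝ)) (e _ _))

/-- the triples counted by `cnt` -/
private noncomputable def h83_box {n : ℕ} (b : Fin 3 × Fin n × Finset (Fin n) × Finset (Fin n)) :
    Finset (Tr n) :=
  Finset.univ.filter fun x : Tr n => x b.1 = b.2.1 ∧ x (b.1 + 2) ∈ b.2.2.1 ∧ x (b.1 + 1) ∈ b.2.2.2

private theorem h83_box_card {n : ℕ} (b : Fin 3 × Fin n × Finset (Fin n) × Finset (Fin n)) :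
    (h83_box b).card = b.2.2.1.card * b.2.2.2.card := card_cnt b.1 b.2.1 b.2.2.1 b.2.2.2

private theorem h83_cnt_eq {n : ℕ} (T : Finset (Tr n)) (i : Fin 3) (v : Fin n)
    (X Z : Finset (Fin n)) : cnt T i v X Z = (T ∩ h83_box (i, v, X, Z)).card :=
  cnt_eq_inter T i v X Z

/-- P4 -/
theorem pr_up {lam : ℝ} (hlam : 0 < lam) : ∀ η > 0, ∃ N : ℕ, ∀ n ≥ N, ∀ p : ℝ,
    0 ≤ p → p ≤ 1 → 2 * Real.log n ≤ p * n →
    Pr p (fun T : Finset (Tr n) => ¬ ∀ (i : Fin 3) (v : Fin n) (X Z : Finset (Fin n)),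
      (cnt T i v X Z : ℝ) ≤ p * n / n * (X.card * Z.card) + lam * (p * n) * n) ≤ η := by
  intro η hη
  obtain ⟨s, hs0, hs1, hs2⟩ : ∃ s : ℝ, 0 < s ∧ s ≤ 1 ∧ s ≤ lam / 2 :=
    ⟨min (lam / 2) 1, lt_min (by positivity) one_pos, min_le_right _ _, min_le_left _ _⟩
  obtain ⟨c, hc⟩ : ∃ c : ℝ, c = s * lam := ⟨_, rfl⟩
  have hc0 : 0 < c := hc ▸ mul_pos hs0 hlam
  refine ⟨max (⌈Real.exp (6 / c)⌉₊) (⌈1 / η⌉₊) + 1, fun n hn p h0 h1 hp => ?_⟩
  have hn1 : ⌈Real.exp (6 / c)⌉₊ ≤ n := by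
    have := le_max_left (⌈Real.exp (6 / c)⌉₊) (⌈1 / η⌉₊)
    omega
  have hn2 : ⌈1 / η⌉₊ ≤ n := by
    have := le_max_right (⌈Real.exp (6 / c)⌉₊) (⌈1 / η⌉₊)
    omega
  have hnpos : 0 < n := by omega
  have hn0 : (0 : ℝ) < n := by exact_mod_cast hnpos
  have hlog : 6 / c ≤ Real.log n := by
    rw [Real.le_log_iff_exp_le hn0]
    exact (Nat.le_ceil _).trans (by exact_mod_cast hn1)
  have hclog : 6 ≤ c * Real.log n := by
    have := mul_le_mul_of_nonneg_left hlog hc0.le
    rwa [mul_div_cancel₀ _ hc0.ne'] at this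
  have hη1 : 1 / η ≤ n := (Nat.le_ceil _).trans (by exact_mod_cast hn2)
  have hone : ∀ b : Fin 3 × Fin n × Finset (Fin n) × Finset (Fin n),
      Pr p (fun T : Finset (Tr n) =>
        p * n / n * (b.2.2.1.card * b.2.2.2.card) + lam * (p * n) * n ≤
          ((T ∩ h83_box b).card : ℝ)) ≤ Real.exp (-(6 * n)) := by
    intro b
    refine (h83_one hnpos h0 h1 hs0.le hs1 hs2 b.2.2.1 b.2.2.2 (h83_box b)
      (h83_box_card b)).trans (Real.exp_le_exp.2 (neg_le_neg ?_))
    have h3 : 2 * Real.log n * n ≤ (p * n) * n := mul_le_mul_of_nonneg_right hp hn0.le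
    have h4 : s * lam / 2 * (2 * Real.log n * n) ≤ s * lam / 2 * ((p * n) * n) :=
      mul_le_mul_of_nonneg_left h3 (by positivity)
    have h5 : s * lam / 2 * (2 * Real.log n * n) = c * Real.log n * n := by rw [hc]; ring
    have h6 : 6 * (n : ℝ) ≤ c * Real.log n * n := mul_le_mul_of_nonneg_right hclog hn0.le
    linarith
  have hun := Pr_exists_le (X := Tr n) h0 h1
    (Finset.univ : Finset (Fin 3 × Fin n × Finset (Fin n) × Finset (Fin n)))
    (fun b T => p * n / n * (b.2.2.1.card * b.2.2.2.card) + lam * (p * n) * n ≤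
          ((T ∩ h83_box b).card : ℝ))
  have hsum := Finset.sum_le_sum (fun b (_ : b ∈ (Finset.univ :
    Finset (Fin 3 × Fin n × Finset (Fin n) × Finset (Fin n)))) => hone b)
  rw [Finset.sum_const, Finset.card_univ, nsmul_eq_mul] at hsum
  have hcardb : ((Fintype.card (Fin 3 × Fin n × Finset (Fin n) × Finset (Fin n)) : ℕ) : ℝ) =
      (3 : ℝ) * (n * (2 ^ n * 2 ^ n)) := by
    simp only [Fintype.card_prod, Fintype.card_fin, Fintype.card_finset]
    push_cast
    rfl
  rw [hcardb] at hsum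
  have hfin : (3 : ℝ) * (n * (2 ^ n * 2 ^ n)) * Real.exp (-(6 * n)) ≤ η := by
    have k1 : (n : ℝ) ≤ Real.exp n := by
      have := Real.add_one_le_exp (n : ℝ)
      linarith
    have k2 : (2 : ℝ) ^ n ≤ Real.exp n := by
      have h7 : (2 : ℝ) ≤ Real.exp 1 := by
        have := Real.add_one_le_exp (1 : ℝ)
        linarith
      have h8 : (2 : ℝ) ^ n ≤ Real.exp 1 ^ n := pow_le_pow_left₀ (by norm_num) h7 n
      rw [← Real.exp_nat_mul, mul_one] at h8
      exact h8
    have k3 : (3 : ℝ) ≤ Real.exp (2 * n) := by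
      have h9 : (1 : ℝ) ≤ n := by exact_mod_cast hnpos
      have := Real.add_one_le_exp (2 * (n : ℝ))
      linarith
    have k4 : (3 : ℝ) * (n * (2 ^ n * 2 ^ n)) ≤ Real.exp (5 * n) := by
      calc (3 : ℝ) * (n * (2 ^ n * 2 ^ n)) ≤
          Real.exp (2 * n) * (Real.exp n * (Real.exp n * Real.exp n)) := by gcongr
        _ = Real.exp (5 * n) := by
          rw [← Real.exp_add, ← Real.exp_add, ← Real.exp_add]
          congr 1
          ring
    calc (3 : ℝ) * (n * (2 ^ n * 2 ^ n)) * Real.exp (-(6 * n)) ≤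
        Real.exp (5 * n) * Real.exp (-(6 * n)) :=
          mul_le_mul_of_nonneg_right k4 (Real.exp_pos _).le
      _ = Real.exp (-n) := by
          rw [← Real.exp_add]
          congr 1
          ring
      _ ≤ η := by
          rw [Real.exp_neg, inv_le_comm₀ (Real.exp_pos _) hη, ← one_div]
          exact hη1.trans k1
  refine le_trans ?_ (hun.trans (hsum.trans hfin))
  refine Pr_mono h0 h1 fun T hT => ?_
  by_contra hcon
  apply hT
  intro i v X Z
  rw [h83_cnt_eq]
  by_contra hcon2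
  refine hcon ⟨(i, v, X, Z), Finset.mem_univ _, ?_⟩
  have := (not_le.1 hcon2).le
  convert this

end Pool.Agent.Helper40.FL
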