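import Pool.Agent.Helper40.FL.Basic

/-! Project FL, module P5: lower bound for all `cnt`. -/

set_option autoImplicit false
open Classical Filter Topology

namespace Pool.Agent.Helper40.FL

theorem p5_one {n : ℕ} {p lam : ℝ} (h0 : 0 ≤ p) (h1 : p ≤ 1) (hlam : 0 < lam)
    (i : Fin 3) (v : Fin n) (X Z : Finset (Fin n)) :
    Pr p (fun T : Finset (Tr n) => (cnt T i v X Z : ℝ) ≤
      p * (X.card * Z.card) - lam * (p * n) * n) ≤ Real.exp (-(lam ^ 2 / 2) * (p * n) * n) := by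
  have h := Pr_lower (X := Tr n) h0 h1
    (Finset.univ.filter fun x : Tr n => x i = v ∧ x (i + 2) ∈ X ∧ x (i + 1) ∈ Z) hlam.le
    (p * (X.card * Z.card) - lam * (p * n) * n)
  refine (Pr_mono h0 h1 fun T hT => ?_).trans (h.trans ?_)
  · have e1 : ((Finset.filter (fun x : Tr n => x i = v ∧ x (i + 2) ∈ X ∧ x (i + 1) ∈ Z) T).card : ℝ)
        ≤ p * (X.card * Z.card) - lam * (p * n) * n := hT
    refine le_trans (le_of_eq ?_) e1
    congr 2
    ext x
    simp
  rw [Real.exp_le_exp, card_cnt]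
  push_cast
  have hX : (X.card : ℝ) ≤ n := by
    have := Finset.card_le_univ X
    rw [Fintype.card_fin] at this
    exact_mod_cast this
  have hZ : (Z.card : ℝ) ≤ n := by
    have := Finset.card_le_univ Z
    rw [Fintype.card_fin] at this
    exact_mod_cast this
  have hXZ : (X.card : ℝ) * Z.card ≤ n * n :=
    mul_le_mul hX hZ (Nat.cast_nonneg _) (Nat.cast_nonneg _)
  have hexp : Real.exp (-lam) ≤ 1 - lam + lam ^ 2 / 2 := by
    have h2 : 1 + lam + lam ^ 2 / 2 ≤ Real.exp lam := Real.quadratic_le_exp_of_nonneg hlam.le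
    rw [Real.exp_neg, inv_le_comm₀ (Real.exp_pos _) (by nlinarith [sq_nonneg (lam - 1)])]
    refine le_trans ?_ h2
    rw [inv_le_iff_one_le_mul₀ (by nlinarith [sq_nonneg (lam - 1)])]
    nlinarith [sq_nonneg (lam ^ 2)]
  have hA0 : 0 ≤ p * ((X.card : ℝ) * Z.card) := by positivity
  have h3 : p * ((X.card : ℝ) * Z.card) * (lam - (1 - Real.exp (-lam))) ≤
      p * (n * n) * (lam ^ 2 / 2) := by
    refine (mul_le_mul_of_nonneg_left (a := p * ((X.card : ℝ) * Z.card))
      (show lam - (1 - Real.exp (-lam)) ≤ lam ^ 2 / 2 by linarith) hA0).trans ?_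
    exact mul_le_mul_of_nonneg_right (mul_le_mul_of_nonneg_left hXZ h0) (by positivity)
  nlinarith

/-- P5 -/
theorem pr_low {lam : ℝ} (hlam : 0 < lam) : ∀ η > 0, ∃ N : ℕ, ∀ n ≥ N, ∀ p : ℝ,
    0 ≤ p → p ≤ 1 → 2 * Real.log n ≤ p * n →
    Pr p (fun T : Finset (Tr n) => ¬ ∀ (i : Fin 3) (v : Fin n) (X Z : Finset (Fin n)),
      p * (X.card * Z.card) - lam * (p * n) * n ≤ (cnt T i v X Z : ℝ)) ≤ η := by
  intro η hη
  obtain ⟨N1, hN1⟩ := exists_nat_ge (Real.exp (6 / lam ^ 2))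
  obtain ⟨N2, hN2⟩ := exists_nat_ge (1 / η)
  refine ⟨max N1 N2 + 1, fun n hn p h0 h1 hD => ?_⟩
  have hn1 : (N1 : ℝ) ≤ n := by
    exact_mod_cast (le_max_left N1 N2).trans ((Nat.le_succ _).trans hn)
  have hn2 : (N2 : ℝ) ≤ n := by
    exact_mod_cast (le_max_right N1 N2).trans ((Nat.le_succ _).trans hn)
  have hnpos : (1 : ℝ) ≤ n := by
    have : 1 ≤ n := le_trans (Nat.le_add_left _ _) hn
    exact_mod_cast this
  have hlog : 6 / lam ^ 2 ≤ Real.log n := by
    rw [Real.le_log_iff_exp_le (by linarith)]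
    exact hN1.trans hn1
  have hstep : Pr p (fun T : Finset (Tr n) => ¬ ∀ (i : Fin 3) (v : Fin n) (X Z : Finset (Fin n)),
      p * (X.card * Z.card) - lam * (p * n) * n ≤ (cnt T i v X Z : ℝ)) ≤
      Pr p (fun T : Finset (Tr n) => ∃ b ∈ (Finset.univ :
        Finset (Fin 3 × Fin n × Finset (Fin n) × Finset (Fin n))),
        (cnt T b.1 b.2.1 b.2.2.1 b.2.2.2 : ℝ) ≤
        p * (b.2.2.1.card * b.2.2.2.card) - lam * (p * n) * n) := by
    refine Pr_mono h0 h1 fun T hT => ?_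
    push Not at hT
    obtain ⟨i, v, X, Z, h⟩ := hT
    exact ⟨(i, v, X, Z), Finset.mem_univ _, h.le⟩
  refine hstep.trans ((Pr_exists_le h0 h1 _ _).trans ?_)
  refine (Finset.sum_le_sum fun b _ => p5_one h0 h1 hlam b.1 b.2.1 b.2.2.1 b.2.2.2).trans ?_
  rw [Finset.sum_const, nsmul_eq_mul, Finset.card_univ]
  simp only [Fintype.card_prod, Fintype.card_fin, Fintype.card_finset]
  push_cast
  have e2 : (2 : ℝ) ^ n ≤ Real.exp n := by
    have : (2 : ℝ) ≤ Real.exp 1 := by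
      have := Real.add_one_le_exp (1 : ℝ); linarith
    calc (2 : ℝ) ^ n ≤ (Real.exp 1) ^ n := pow_le_pow_left₀ (by norm_num) this n
      _ = Real.exp n := by rw [← Real.exp_nat_mul, mul_one]
  have e3 : (n : ℝ) ≤ Real.exp n := by
    have := Real.add_one_le_exp (n : ℝ); linarith
  have e4 : (3 : ℝ) ≤ Real.exp (2 * n) := by
    have := Real.add_one_le_exp (2 * (n : ℝ)); linarith
  have e5 : (3 : ℝ) * (n * (2 ^ n * 2 ^ n)) ≤ Real.exp (5 * n) := by
    have hp := Real.exp_pos (n : ℝ)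
    calc (3 : ℝ) * (n * (2 ^ n * 2 ^ n))
        ≤ Real.exp (2 * n) * (Real.exp n * (Real.exp n * Real.exp n)) := by
          gcongr
      _ = Real.exp (5 * n) := by
          rw [← Real.exp_add, ← Real.exp_add, ← Real.exp_add]; ring_nf
  have e6 : -(lam ^ 2 / 2) * (p * n) * n ≤ -(6 * n) := by
    have h2 : 6 ≤ lam ^ 2 * Real.log n := by
      rw [div_le_iff₀ (by positivity)] at hlog
      linarith
    have h3 : lam ^ 2 * Real.log n ≤ lam ^ 2 / 2 * (p * n) := by
      have := mul_le_mul_of_nonneg_left hD (show (0 : ℝ) ≤ lam ^ 2 / 2 by positivity)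
      linarith
    have h4 : 6 * (n : ℝ) ≤ lam ^ 2 / 2 * (p * n) * n :=
      mul_le_mul_of_nonneg_right (h2.trans h3) (by linarith)
    linarith
  calc (3 : ℝ) * (n * (2 ^ n * 2 ^ n)) * Real.exp (-(lam ^ 2 / 2) * (p * n) * n)
      ≤ Real.exp (5 * n) * Real.exp (-(6 * n)) := by
        refine mul_le_mul e5 (Real.exp_le_exp.2 e6) (Real.exp_pos _).le (Real.exp_pos _).le
    _ = Real.exp (-n) := by rw [← Real.exp_add]; ring_nf
    _ ≤ 1 / n := by
        rw [Real.exp_neg, one_div]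
        exact inv_anti₀ (by linarith) e3
    _ ≤ η := by
        rw [div_le_iff₀ (by linarith)]
        have h2 : 1 / η ≤ n := hN2.trans hn2
        rw [div_le_iff₀ hη] at h2
        linarith

end Pool.Agent.Helper40.FL
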