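import Pool.Agent.Helper40.FL.Basic

/-! Project FL, module P6: law of large numbers for all bounded integer functions. -/

set_option autoImplicit false
open Classical Filter Topology

namespace Pool.Agent.Helper40.FL

section generic

variable {X : Type} [Fintype X]

/-- one predicate -/
theorem pr_half_one {p K : ℝ} (h0 : 0 ≤ p) (h1 : p ≤ 1) (hK : 0 ≤ K) (Q : X → Prop) :
    Pr p (fun S : Finset X =>
        ¬ p / 2 * (((Finset.univ.filter Q).card : ℝ) - K) ≤ ((S.filter Q).card : ℝ)) ≤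
      Real.exp (-(13 / 100 * (p * K))) := by
  have hA : ∀ S : Finset X, S.filter Q = S ∩ Finset.univ.filter Q := by
    intro S; ext x; simp
  have hA2 : (fun S : Finset X =>
        ¬ p / 2 * (((Finset.univ.filter Q).card : ℝ) - K) ≤ ((S.filter Q).card : ℝ)) =
      fun S : Finset X =>
        ¬ p / 2 * (((Finset.univ.filter Q).card : ℝ) - K) ≤
          ((S ∩ Finset.univ.filter Q).card : ℝ) := by
    funext S
    rw [hA S]
  rw [hA2]
  generalize Finset.univ.filter Q = A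
  by_cases hN : (A.card : ℝ) ≤ K
  · have h2 : Pr p (fun S : Finset X =>
        ¬ p / 2 * ((A.card : ℝ) - K) ≤ ((S ∩ A).card : ℝ)) = 0 := by
      refine le_antisymm ?_ (Pr_nonneg h0 h1 _)
      have h4 : Pr p (fun _ : Finset X => False) = 0 := by simp [Pr]
      rw [← h4]
      apply Pr_mono h0 h1
      intro S hS
      apply hS
      refine le_trans ?_ (Nat.cast_nonneg _)
      exact mul_nonpos_of_nonneg_of_nonpos (by linarith) (by linarith)
    rw [h2]
    exact (Real.exp_pos _).le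
  · push Not at hN
    refine (Pr_mono h0 h1 (B := fun S : Finset X => ((S ∩ A).card : ℝ) ≤
      p / 2 * ((A.card : ℝ) - K)) fun S hS => (not_le.1 hS).le).trans ?_
    refine (Pr_lower h0 h1 A zero_le_one _).trans ?_
    rw [Real.exp_le_exp]
    have h3 : Real.exp (-1) ≤ 37 / 100 := by
      have := Real.exp_one_gt_d9
      rw [Real.exp_neg]
      rw [inv_le_comm₀ (Real.exp_pos 1) (by norm_num)]
      refine le_trans ?_ this.le
      norm_num
    have h4 : 0 ≤ p * A.card := mul_nonneg h0 (Nat.cast_nonneg _)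
    have h5 : 0 ≤ p * K := mul_nonneg h0 hK
    have h6 : p * A.card * (63 / 100) ≤ p * A.card * (1 - Real.exp (-1)) :=
      mul_le_mul_of_nonneg_left (by linarith) h4
    have h7 : 1 * (p / 2 * ((A.card : ℝ) - K)) = (p * A.card) / 2 - (p * K) / 2 := by ring
    rw [h7]
    linarith

/-- a family of predicates -/
theorem pr_half_family {p K : ℝ} (h0 : 0 ≤ p) (h1 : p ≤ 1) (hK : 0 ≤ K) {β : Type*} (s : Finset β)
    (Q : β → X → Prop) :
    Pr p (fun S : Finset X => ∃ b ∈ s,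
        ¬ p / 2 * (((Finset.univ.filter (Q b)).card : ℝ) - K) ≤ ((S.filter (Q b)).card : ℝ)) ≤
      s.card * Real.exp (-(13 / 100 * (p * K))) := by
  refine (Pr_exists_le h0 h1 s _).trans ?_
  refine (Finset.sum_le_sum fun b _ => pr_half_one h0 h1 hK (Q b)).trans ?_
  rw [Finset.sum_const, nsmul_eq_mul]

end generic

/-- the failure of `Bulk` is a failure for one of finitely many pairs `(f, j)` -/
theorem not_bulk {n : ℕ} {T : Finset (Tr n)} {p lam : ℝ} {m : ℕ} (h0 : 0 ≤ p) (hlam : 0 < lam)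
    (h : ¬ Bulk T p m lam) : ∃ b ∈ (Fintype.piFinset fun _ : Ed n =>
        Finset.Icc (-(m : ℤ)) m) ×ˢ Finset.Icc 1 (3 * m),
        ¬ p / 2 * (((Finset.univ.filter fun x : Tr n =>
            ((b.2 : ℕ) : ℤ) ≤ |∑ i, b.1 (edge i x)|).card : ℝ) - lam * (n : ℝ) ^ 3) ≤
          ((T.filter fun x : Tr n => ((b.2 : ℕ) : ℤ) ≤ |∑ i, b.1 (edge i x)|).card : ℝ) := by
  rw [Bulk] at h
  push Not at h
  obtain ⟨f, hf, j, hj, hlt⟩ := h
  by_cases hj3 : j ≤ 3 * m
  · refine ⟨(f, j), ?_, not_le.2 hlt⟩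
    rw [Finset.mem_product, Fintype.mem_piFinset, Finset.mem_Icc]
    exact ⟨fun e => Finset.mem_Icc.2 (abs_le.1 (hf e)), hj, hj3⟩
  · exfalso
    push Not at hj3
    have hem : (Finset.univ.filter fun x : Tr n => (j : ℤ) ≤ |∑ i, f (edge i x)|) = ∅ := by
      apply Finset.filter_eq_empty_iff.2
      intro x _ hx
      have h2 : |∑ i, f (edge i x)| ≤ 3 * (m : ℤ) := by
        refine (Finset.abs_sum_le_sum_abs _ _).trans ?_
        refine (Finset.sum_le_sum fun i _ => hf (edge i x)).trans ?_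
        rw [Finset.sum_const, Finset.card_univ, Fintype.card_fin, nsmul_eq_mul]
        exact le_rfl
      have h3 : (j : ℤ) ≤ 3 * m := hx.trans h2
      omega
    rw [hem, Finset.card_empty] at hlt
    have h3 : p / 2 * (((0 : ℕ) : ℝ) - lam * (n : ℝ) ^ 3) ≤ 0 := by
      apply mul_nonpos_of_nonneg_of_nonpos (by linarith)
      have : 0 ≤ lam * (n : ℝ) ^ 3 := by positivity
      rw [Nat.cast_zero]
      linarith
    exact absurd (hlt.trans_le h3) (not_lt.2 (Nat.cast_nonneg _))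

theorem card_family (n m : ℕ) :
    (((Fintype.piFinset fun _ : Ed n => Finset.Icc (-(m : ℤ)) m) ×ˢ
      Finset.Icc 1 (3 * m)).card : ℝ) =
      (3 * m : ℝ) * Real.exp (3 * (n * n) * Real.log (2 * m + 1)) := by
  rw [Finset.card_product, Fintype.card_piFinset, Nat.card_Icc]
  rw [Finset.prod_const, Int.card_Icc, Finset.card_univ]
  have hc0 : Fintype.card (Ed n) = 3 * (n * n) := by
    rw [Fintype.card_prod, Fintype.card_prod, Fintype.card_fin, Fintype.card_fin]
  have hc1 : ((m : ℤ) + 1 - -(m : ℤ)).toNat = 2 * m + 1 := by omega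
  have hc2 : 3 * m + 1 - 1 = 3 * m := by omega
  rw [hc0, hc1, hc2]
  have hm0 : (0 : ℝ) < 2 * m + 1 := by positivity
  rw [Nat.cast_mul, Nat.cast_pow]
  have e1 : (((2 * m + 1 : ℕ)) : ℝ) = Real.exp (Real.log (2 * m + 1)) := by
    rw [Real.exp_log hm0]; push_cast; ring
  rw [e1, ← Real.exp_nat_mul]
  push_cast
  ring

/-- P6 -/
theorem pr_bulk (m : ℕ) {lam : ℝ} (hlam : 0 < lam) : ∀ η > 0, ∃ N : ℕ, ∀ n ≥ N, ∀ p : ℝ,
    0 ≤ p → p ≤ 1 → 2 * Real.log n ≤ p * n →
    Pr p (fun T : Finset (Tr n) => ¬ Bulk T p m lam) ≤ η := by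
  intro η hη
  have hlog : Tendsto (fun n : ℕ => Real.log (n : ℝ)) atTop atTop :=
    Real.tendsto_log_atTop.comp tendsto_natCast_atTop_atTop
  have e1 := hlog.eventually_ge_atTop ((3 * Real.log (2 * m + 1) + 1) / (26 / 100 * lam))
  have e2 : ∀ᶠ n : ℕ in atTop, 3 * m / η ≤ (n : ℝ) :=
    tendsto_natCast_atTop_atTop.eventually_ge_atTop _
  obtain ⟨N, hN⟩ := eventually_atTop.1 ((e1.and e2).and (eventually_ge_atTop 1))
  refine ⟨N, fun n hn p h0 h1 hp => ?_⟩
  obtain ⟨⟨g1, g2⟩, g3⟩ := hN n hn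
  have hn1 : (1 : ℝ) ≤ n := by exact_mod_cast g3
  have hK : 0 ≤ lam * (n : ℝ) ^ 3 := by positivity
  have hfam := pr_half_family (X := Tr n) (K := lam * (n : ℝ) ^ 3) h0 h1 hK
    ((Fintype.piFinset fun _ : Ed n => Finset.Icc (-(m : ℤ)) m) ×ˢ Finset.Icc 1 (3 * m))
    (fun b x => ((b.2 : ℕ) : ℤ) ≤ |∑ i, b.1 (edge i x)|)
  have hfam2 : Pr p (fun T : Finset (Tr n) => ¬ Bulk T p m lam) ≤
      ((((Fintype.piFinset fun _ : Ed n => Finset.Icc (-(m : ℤ)) m) ×ˢ
      Finset.Icc 1 (3 * m)).card : ℝ)) * Real.exp (-(13 / 100 * (p * (lam * (n : ℝ) ^ 3)))) := by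
    refine (Pr_mono h0 h1 fun T hT => ?_).trans hfam
    obtain ⟨b, hb, h⟩ := not_bulk h0 hlam hT
    refine ⟨b, hb, ?_⟩
    rw [not_le] at h ⊢
    refine lt_of_eq_of_lt ?_ (h.trans_eq ?_)
    · congr 1
      congr 1
      congr 1
    · congr 1
      congr 1
      congr 1
      congr 1
      congr 1
  refine hfam2.trans ?_
  rw [card_family]
  have hD : 2 * ((3 * Real.log (2 * m + 1) + 1) / (26 / 100 * lam)) ≤ p * n := by
    refine le_trans ?_ hp
    linarith
  have hD2 : 3 * Real.log (2 * m + 1) + 1 ≤ 13 / 100 * lam * (p * n) := by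
    have : 13 / 100 * lam * (2 * ((3 * Real.log (2 * m + 1) + 1) / (26 / 100 * lam))) =
        3 * Real.log (2 * m + 1) + 1 := by
      field_simp
      ring
    rw [← this]
    exact mul_le_mul_of_nonneg_left hD (by positivity)
  have hexp : Real.exp (3 * (n * n) * Real.log (2 * m + 1)) *
      Real.exp (-(13 / 100 * (p * (lam * (n : ℝ) ^ 3)))) ≤ Real.exp (-(n : ℝ)) := by
    rw [← Real.exp_add, Real.exp_le_exp]
    have h8 : (3 * Real.log (2 * m + 1) + 1) * (n : ℝ) ^ 2 ≤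
        13 / 100 * lam * (p * n) * (n : ℝ) ^ 2 :=
      mul_le_mul_of_nonneg_right hD2 (by positivity)
    nlinarith
  have hfin : (3 * (m : ℝ)) * Real.exp (-(n : ℝ)) ≤ η := by
    have h9 : (n : ℝ) ≤ Real.exp n := by
      have := Real.add_one_le_exp (n : ℝ); linarith
    rw [Real.exp_neg, ← div_eq_mul_inv, div_le_iff₀ (Real.exp_pos _)]
    have h10 : 3 * (m : ℝ) ≤ η * n := by
      rw [div_le_iff₀ hη] at g2
      linarith
    exact h10.trans (mul_le_mul_of_nonneg_left h9 hη.le)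
  rw [mul_assoc]
  exact (mul_le_mul_of_nonneg_left hexp (by positivity)).trans hfin

end Pool.Agent.Helper40.FL
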