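import Pool.Agent.Helper40.FL.Basic

/-! Project FL, module P7: every edge has few neighbours of atypical degree. -/

set_option autoImplicit false
open Classical Filter Topology

namespace Pool.Agent.Helper40.FL

section p7

variable {n : ℕ}

/-- an edge of another direction determines the triple on a line -/
theorem p7_inj {e : Ed n} {i : Fin 3} (hi : i ≠ e.1) {x y : Tr n} (hx : edge e.1 x = e)
    (hy : edge e.1 y = e) (h : edge i x = edge i y) : x = y := by
  rw [edge_self_iff] at hx hy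
  rw [edge, edge, Prod.mk.injEq, Prod.mk.injEq] at h
  have h1 : x i = y i := h.2.1
  have h2 : x (i + 1) = y (i + 1) := h.2.2
  have h3 : x e.1 = y e.1 := hx.1.trans hy.1.symm
  have h4 : x (e.1 + 1) = y (e.1 + 1) := hx.2.trans hy.2.symm
  have key : ∀ a b : Fin 3, a ≠ b → ∀ j : Fin 3, j = a ∨ j = a + 1 ∨ j = b ∨ j = b + 1 := by
    decide
  funext j
  rcases key i e.1 hi j with h | h | h | h
  · rw [h]; exact h1
  · rw [h]; exact h2
  · rw [h]; exact h3
  · rw [h]; exact h4

/-- the members of `S` on the lines of direction `i` through a set `Q` of triples of a line -/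
theorem p7_card {e : Ed n} {i : Fin 3} (hi : i ≠ e.1) {Q : Finset (Tr n)}
    (hQ : ∀ x ∈ Q, edge e.1 x = e) (S : Finset (Tr n)) :
    (S ∩ Finset.univ.filter fun y : Tr n => edge i y ∈ Q.image (edge i)).card =
      ∑ x ∈ Q, dg S (edge i x) := by
  have h1 := Finset.card_eq_sum_card_fiberwise (f := fun y : Tr n => edge i y)
    (s := S ∩ Finset.univ.filter fun y : Tr n => edge i y ∈ Q.image (edge i))
    (t := Q.image (edge i)) (by
      intro y hy
      simp only [Finset.coe_inter, Finset.coe_filter, Finset.mem_univ, true_and, Set.mem_inter_iff,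
        Set.mem_ofPred_eq] at hy
      exact hy.2)
  rw [h1, Finset.sum_image]
  · refine Finset.sum_congr rfl fun x hx => ?_
    rw [dg]
    congr 1
    ext y
    simp only [Finset.mem_filter, Finset.mem_inter, Finset.mem_univ, true_and]
    constructor
    · rintro ⟨⟨h1, -⟩, h2⟩; exact ⟨h1, h2⟩
    · rintro ⟨h1, h2⟩
      refine ⟨⟨h1, ?_⟩, h2⟩
      have h3 : edge i y = edge i x := h2
      rw [h3]
      exact Finset.mem_image_of_mem _ hx
  · intro x hx y hy h
    exact p7_inj hi (hQ x hx) (hQ y hy) h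

/-- the exponential estimate for one set `Q` -/
theorem p7_weight {p : ℝ} (h0 : 0 < p) (h1 : p ≤ 1) {e : Ed n} {i : Fin 3} (hi : i ≠ e.1)
    {Q : Finset (Tr n)} (hQ : ∀ x ∈ Q, edge e.1 x = e) (σ c : ℝ) :
    Pr p (fun T : Finset (Tr n) => Q ⊆ T ∧ ∀ x ∈ Q, σ * c ≤ σ * dg T (edge i x)) ≤
      (p * Real.exp (Real.exp σ + p * n * (Real.exp σ - 1) - σ * c)) ^ Q.card := by
  set U : Finset (Tr n) := Finset.univ.filter fun y : Tr n => edge i y ∈ Q.image (edge i) with hU
  have hQU : Q ⊆ U := by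
    intro x hx
    rw [hU, Finset.mem_filter]
    exact ⟨Finset.mem_univ _, Finset.mem_image_of_mem _ hx⟩
  have hUc : (U.card : ℝ) = n * Q.card := by
    have h := p7_card hi hQ Finset.univ
    rw [Finset.univ_inter] at h
    have h2 : ∀ x ∈ Q, dg (Finset.univ : Finset (Tr n)) (edge i x) = n := by
      intro x _
      exact card_line (edge i x)
    rw [Finset.sum_congr rfl h2, Finset.sum_const, smul_eq_mul] at h
    rw [hU, h]
    push_cast
    ring
  have h := Pr_le_weight (X := Tr n) h0.le h1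
    (fun T => Q ⊆ T ∧ ∀ x ∈ Q, σ * c ≤ σ * dg T (edge i x))
    (fun y => (if y ∈ U then Real.exp σ else 1) * (if y ∈ Q then p⁻¹ else 1))
    (fun y => by
      refine mul_nonneg ?_ ?_
      · split_ifs; exacts [(Real.exp_pos _).le, zero_le_one]
      · split_ifs; exacts [(inv_pos.2 h0).le, zero_le_one])
    (M := (Real.exp (σ * c) * p⁻¹) ^ Q.card) (pow_pos (mul_pos (Real.exp_pos _) (inv_pos.2 h0)) _) ?_
  · refine h.trans ?_
    have hsum : ∑ y : Tr n, ((if y ∈ U then Real.exp σ else 1) * (if y ∈ Q then p⁻¹ else 1) - 1) =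
        (Real.exp σ - 1) * U.card + Real.exp σ * (p⁻¹ - 1) * Q.card := by
      have h3 : ∀ y : Tr n, ((if y ∈ U then Real.exp σ else 1) * (if y ∈ Q then p⁻¹ else 1) - 1) =
          (if y ∈ U then Real.exp σ - 1 else 0) +
            (if y ∈ Q then Real.exp σ * (p⁻¹ - 1) else 0) := by
        intro y
        by_cases hy : y ∈ Q
        · rw [if_pos hy, if_pos hy, if_pos (hQU hy), if_pos (hQU hy)]; ring
        · rw [if_neg hy, if_neg hy]
          split_ifs <;> ring
      rw [Finset.sum_congr rfl fun y _ => h3 y, Finset.sum_add_distrib, Finset.sum_ite_mem,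
        Finset.sum_ite_mem, Finset.univ_inter, Finset.univ_inter, Finset.sum_const,
        Finset.sum_const, nsmul_eq_mul, nsmul_eq_mul]
      ring
    rw [hsum, hUc]
    have h5 : p * ((Real.exp σ - 1) * (n * Q.card) + Real.exp σ * (p⁻¹ - 1) * Q.card) =
        (Q.card : ℝ) * (p * n * (Real.exp σ - 1) + Real.exp σ * (1 - p)) := by
      field_simp
    rw [h5, Real.exp_nat_mul, ← div_pow]
    refine pow_le_pow_left₀ (by positivity) ?_ _
    rw [div_le_iff₀ (mul_pos (Real.exp_pos _) (inv_pos.2 h0))]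
    have h6 : p * Real.exp (Real.exp σ + p * n * (Real.exp σ - 1) - σ * c) *
        (Real.exp (σ * c) * p⁻¹) = Real.exp (Real.exp σ + p * n * (Real.exp σ - 1)) := by
      rw [Real.exp_sub]
      field_simp
    rw [h6, Real.exp_le_exp]
    have := mul_pos (Real.exp_pos σ) h0
    nlinarith
  · rintro S ⟨hS1, hS2⟩
    rw [Finset.prod_mul_distrib, Finset.prod_ite_mem, Finset.prod_ite_mem, Finset.prod_const,
      Finset.prod_const, Finset.inter_eq_right.2 hS1, mul_pow]
    refine mul_le_mul_of_nonneg_right ?_ (by positivity)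
    rw [← Real.exp_nat_mul, ← Real.exp_nat_mul, Real.exp_le_exp, hU, p7_card hi hQ S]
    push_cast
    rw [Finset.sum_mul, ← nsmul_eq_mul, ← Finset.sum_const]
    refine Finset.sum_le_sum fun x hx => ?_
    rw [mul_comm]
    rw [mul_comm]
    have := hS2 x hx
    linarith

/-- the event of the union bound -/
def P7Ev (η1 D s : ℝ) (a : Ed n × Fin 3 × Bool) (Q T : Finset (Tr n)) : Prop :=
  a.2.1 ≠ a.1.1 ∧ Q ⊆ T ∧ ∀ x ∈ Q,
    (if a.2.2 then s else -s) * (if a.2.2 then (1 + η1) * D else (1 - η1) * D) ≤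
      (if a.2.2 then s else -s) * dg T (edge a.2.1 x)

/-- if `T` is not typical then one of the events occurs -/
theorem p7_incl {T : Finset (Tr n)} {D η1 η2 s : ℝ} (hs : 0 ≤ s) (h : ¬ Typ T D η1 η2) :
    ∃ a ∈ (Finset.univ : Finset (Ed n × Fin 3 × Bool)),
      ∃ Q ∈ ((Finset.univ : Finset (Tr n)).filter fun x => edge a.1.1 x = a.1).powersetCard
        ⌈η2 * D / 2⌉₊, P7Ev η1 D s a Q T := by
  rw [Typ] at h
  push Not at h
  obtain ⟨e, i, hi, h⟩ := h
  set B := T.filter fun x : Tr n => edge e.1 x = e ∧ η1 * D < |(dg T (edge i x) : ℝ) - D| with hB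
  set B1 := T.filter fun x : Tr n => edge e.1 x = e ∧ (1 + η1) * D < (dg T (edge i x) : ℝ) with hB1
  set B2 := T.filter fun x : Tr n => edge e.1 x = e ∧ (dg T (edge i x) : ℝ) < (1 - η1) * D with hB2
  have hsub : B ⊆ B1 ∪ B2 := by
    intro x hx
    rw [hB, Finset.mem_filter] at hx
    rw [Finset.mem_union, hB1, hB2, Finset.mem_filter, Finset.mem_filter]
    rcases lt_abs.1 hx.2.2 with h3 | h3
    · left; exact ⟨hx.1, hx.2.1, by linarith⟩
    · right; exact ⟨hx.1, hx.2.1, by linarith⟩
  have hcard : (B.card : ℝ) ≤ B1.card + B2.card := by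
    have := (Finset.card_le_card hsub).trans (Finset.card_union_le _ _)
    exact_mod_cast this
  have h3 : η2 * D / 2 ≤ B1.card ∨ η2 * D / 2 ≤ B2.card := by
    by_contra hcon
    push Not at hcon
    linarith [hcon.1, hcon.2]
  rcases h3 with h3 | h3
  · obtain ⟨Q, hQ, hQc⟩ := Finset.exists_subset_card_eq (Nat.ceil_le.2 h3)
    refine ⟨(e, i, true), Finset.mem_univ _, Q, ?_, hi, ?_, ?_⟩
    · rw [Finset.mem_powersetCard]
      refine ⟨fun x hx => ?_, hQc⟩
      have := hQ hx
      rw [hB1, Finset.mem_filter] at this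
      rw [Finset.mem_filter]
      exact ⟨Finset.mem_univ _, this.2.1⟩
    · exact hQ.trans (Finset.filter_subset _ _)
    · intro x hx
      have := hQ hx
      rw [hB1, Finset.mem_filter] at this
      simp only [if_true]
      exact mul_le_mul_of_nonneg_left this.2.2.le hs
  · obtain ⟨Q, hQ, hQc⟩ := Finset.exists_subset_card_eq (Nat.ceil_le.2 h3)
    refine ⟨(e, i, false), Finset.mem_univ _, Q, ?_, hi, ?_, ?_⟩
    · rw [Finset.mem_powersetCard]
      refine ⟨fun x hx => ?_, hQc⟩
      have := hQ hx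
      rw [hB2, Finset.mem_filter] at this
      rw [Finset.mem_filter]
      exact ⟨Finset.mem_univ _, this.2.1⟩
    · exact hQ.trans (Finset.filter_subset _ _)
    · intro x hx
      have := hQ hx
      rw [hB2, Finset.mem_filter] at this
      simp only [Bool.false_eq_true, if_false]
      have h4 := mul_le_mul_of_nonneg_left this.2.2.le hs
      linarith

/-- the exponents -/
theorem p7_exp {η1 D s : ℝ} (hD : 0 ≤ D) (hs : 0 ≤ s) (hs1 : s ≤ 1) (hs2 : s ≤ η1 / 2) (b : Bool) :
    Real.exp (if b then s else -s) + D * (Real.exp (if b then s else -s) - 1) -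
      (if b then s else -s) * (if b then (1 + η1) * D else (1 - η1) * D) ≤
        3 - s * η1 / 2 * D := by
  set σ : ℝ := if b then s else -s with hσ
  have habs : |σ| = s := by
    rw [hσ]; split_ifs
    · exact abs_of_nonneg hs
    · rw [abs_neg]; exact abs_of_nonneg hs
  have h1 : Real.exp σ ≤ 3 := by
    have h2 : Real.exp σ ≤ Real.exp 1 := by
      rw [Real.exp_le_exp]
      exact (le_abs_self σ).trans (habs.le.trans hs1)
    have := Real.exp_one_lt_d9
    linarith
  have h2 : Real.exp σ - 1 - σ ≤ s ^ 2 := by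
    have := Real.abs_exp_sub_one_sub_id_le (x := σ) (by rw [habs]; exact hs1)
    have h3 := le_abs_self (Real.exp σ - 1 - σ)
    rw [← habs, sq_abs]
    linarith
  have h3 : σ * (if b then (1 + η1) * D else (1 - η1) * D) = σ * D + s * η1 * D := by
    rw [hσ]; split_ifs <;> ring
  rw [h3]
  have h4 : D * (Real.exp σ - 1 - σ) ≤ D * (s * (η1 / 2)) := by
    refine mul_le_mul_of_nonneg_left (h2.trans ?_) hD
    rw [sq]
    exact mul_le_mul_of_nonneg_left hs2 hs
  nlinarith

/-- P7 -/
theorem pr_typ {η1 η2 : ℝ} (h1 : 0 < η1) (h2 : 0 < η2) : ∀ η > 0, ∃ N : ℕ, ∀ n ≥ N, ∀ p : ℝ,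
    0 ≤ p → p ≤ 1 → 2 * Real.log n ≤ p * n →
    Pr p (fun T : Finset (Tr n) => ¬ Typ T (p * n) η1 η2) ≤ η := by
  intro η hη
  set s : ℝ := min (η1 / 2) 1 with hs
  have hs0 : 0 < s := lt_min (by linarith) one_pos
  have hs1 : s ≤ 1 := min_le_right _ _
  have hs2 : s ≤ η1 / 2 := min_le_left _ _
  set a : ℝ := s * η1 / 2 with ha
  have ha0 : 0 < a := by positivity
  set D0 : ℝ := 6 / a + 16 / (η2 * a) + |Real.log (18 / η)| + 1 with hD0
  refine ⟨⌈Real.exp (D0 / 2)⌉₊ + 2, fun n hn p hp0 hp1 hD => ?_⟩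
  have hn2 : 2 ≤ n := le_trans (by omega) hn
  have hnpos : (0 : ℝ) < n := by exact_mod_cast (by omega : 0 < n)
  have hnexp : Real.exp (D0 / 2) ≤ n := by
    have h3 : (⌈Real.exp (D0 / 2)⌉₊ : ℝ) ≤ n := by exact_mod_cast (by omega : ⌈Real.exp (D0 / 2)⌉₊ ≤ n)
    exact (Nat.le_ceil _).trans h3
  have hlog : D0 / 2 ≤ Real.log n := by
    rw [Real.le_log_iff_exp_le hnpos]; exact hnexp
  set D : ℝ := p * n with hDdef
  have hDD0 : D0 ≤ D := by linarith
  have hD0pos : 0 < D0 := by positivity
  have hDpos : 0 < D := lt_of_lt_of_le hD0pos hDD0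
  have hp : 0 < p := by
    rcases hp0.lt_or_eq with h | h
    · exact h
    · rw [hDdef, ← h, zero_mul] at hDpos; exact absurd hDpos (lt_irrefl _)
  have hD1 : 6 / a ≤ D := by
    have : 0 ≤ 16 / (η2 * a) + |Real.log (18 / η)| + 1 := by positivity
    linarith
  have hD2 : 16 / (η2 * a) ≤ D := by
    have : 0 ≤ 6 / a + |Real.log (18 / η)| + 1 := by positivity
    linarith
  have hD3 : Real.log (18 / η) ≤ D := by
    have : 0 ≤ 6 / a + 16 / (η2 * a) + 1 := by positivity
    have := le_abs_self (Real.log (18 / η))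
    linarith
  set k : ℕ := ⌈η2 * D / 2⌉₊ with hk
  have hkD : η2 * D / 2 ≤ k := Nat.le_ceil _
  -- one event
  have hone : ∀ (b : Ed n × Fin 3 × Bool) (Q : Finset (Tr n)),
      Q ∈ ((Finset.univ : Finset (Tr n)).filter fun x => edge b.1.1 x = b.1).powersetCard k →
      Pr p (fun T => P7Ev η1 D s b Q T) ≤ (p * Real.exp (3 - a * D)) ^ k := by
    intro b Q hQ
    rw [Finset.mem_powersetCard] at hQ
    by_cases hi : b.2.1 = b.1.1
    · have h3 : Pr p (fun T => P7Ev η1 D s b Q T) = 0 := by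
        rw [Pr, Finset.sum_eq_zero]
        intro T hT
        rw [Finset.mem_filter] at hT
        exact absurd hi hT.2.1
      rw [h3]
      positivity
    · have h3 := p7_weight hp hp1 (e := b.1) (i := b.2.1) hi (Q := Q)
        (fun x hx => (Finset.mem_filter.1 (hQ.1 hx)).2) (if b.2.2 then s else -s)
        (if b.2.2 then (1 + η1) * D else (1 - η1) * D)
      rw [hQ.2] at h3
      refine (le_trans (Pr_mono hp0 hp1 ?_) h3).trans ?_
      · intro T hT
        exact hT.2
      · refine pow_le_pow_left₀ (by positivity) (mul_le_mul_of_nonneg_left ?_ hp0) _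
        rw [Real.exp_le_exp]
        have h4 := p7_exp hDpos.le hs0.le hs1 hs2 b.2.2
        rw [ha]
        exact h4
  -- union bound
  have hunion : Pr p (fun T : Finset (Tr n) => ¬ Typ T D η1 η2) ≤
      ∑ b : Ed n × Fin 3 × Bool, ∑ Q ∈ ((Finset.univ : Finset (Tr n)).filter
        fun x => edge b.1.1 x = b.1).powersetCard k, (p * Real.exp (3 - a * D)) ^ k := by
    refine (Pr_mono hp0 hp1 (fun T hT => p7_incl hs0.le hT)).trans ?_
    refine (Pr_exists_le hp0 hp1 _ _).trans ?_
    refine Finset.sum_le_sum fun b _ => ?_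
    refine (Pr_exists_le hp0 hp1 _ _).trans ?_
    exact Finset.sum_le_sum fun Q hQ => hone b Q hQ
  refine hunion.trans ?_
  have hcount : ∀ b : Ed n × Fin 3 × Bool, ∑ Q ∈ ((Finset.univ : Finset (Tr n)).filter
        fun x => edge b.1.1 x = b.1).powersetCard k, (p * Real.exp (3 - a * D)) ^ k =
        (n.choose k : ℝ) * (p * Real.exp (3 - a * D)) ^ k := by
    intro b
    rw [Finset.sum_const, Finset.card_powersetCard, card_line, nsmul_eq_mul]
  rw [Finset.sum_congr rfl fun b _ => hcount b, Finset.sum_const, nsmul_eq_mul]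
  have hcardU : ((Finset.univ : Finset (Ed n × Fin 3 × Bool)).card : ℝ) = 18 * (n : ℝ) ^ 2 := by
    simp only [Finset.card_univ, Fintype.card_prod, Fintype.card_fin, Fintype.card_bool]
    push_cast
    ring
  rw [hcardU]
  have hmain : (n.choose k : ℝ) * (p * Real.exp (3 - a * D)) ^ k ≤
      Real.exp D * Real.exp (-(4 * D)) := by
    have h3 : (n.choose k : ℝ) ≤ (n : ℝ) ^ k / (k.factorial : ℝ) := Nat.choose_le_pow_div k n
    have h4 : (n.choose k : ℝ) * (p * Real.exp (3 - a * D)) ^ k ≤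
        (D ^ k / (k.factorial : ℝ)) * Real.exp (3 - a * D) ^ k := by
      calc (n.choose k : ℝ) * (p * Real.exp (3 - a * D)) ^ k
          ≤ ((n : ℝ) ^ k / (k.factorial : ℝ)) * (p * Real.exp (3 - a * D)) ^ k :=
            mul_le_mul_of_nonneg_right h3 (by positivity)
        _ = (D ^ k / (k.factorial : ℝ)) * Real.exp (3 - a * D) ^ k := by
            rw [hDdef, mul_pow, mul_pow]; ring
    refine h4.trans (mul_le_mul (Real.pow_div_factorial_le_exp D hDpos.le k) ?_ (by positivity)
      (Real.exp_pos _).le)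
    rw [← Real.exp_nat_mul, Real.exp_le_exp]
    have h5 : 6 ≤ a * D := by
      rw [div_le_iff₀ ha0] at hD1; linarith
    have h6 : 16 ≤ D * (η2 * a) := by
      rwa [div_le_iff₀ (by positivity)] at hD2
    have h7 : (3 - a * D) ≤ -(a * D / 2) := by linarith
    have h8 : (k : ℝ) * (3 - a * D) ≤ k * (-(a * D / 2)) :=
      mul_le_mul_of_nonneg_left h7 (Nat.cast_nonneg _)
    have h9 : (k : ℝ) * (-(a * D / 2)) ≤ (η2 * D / 2) * (-(a * D / 2)) :=
      mul_le_mul_of_nonpos_right hkD (by nlinarith)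
    have h10 : (η2 * D / 2) * (-(a * D / 2)) ≤ -(4 * D) := by
      have := mul_le_mul_of_nonneg_right h6 hDpos.le
      nlinarith
    linarith
  have hn2' : (n : ℝ) ^ 2 ≤ Real.exp D := by
    have h3 : (n : ℝ) ^ 2 = Real.exp (2 * Real.log n) := by
      rw [mul_comm, Real.exp_mul, Real.exp_log hnpos]
      norm_num
    rw [h3, Real.exp_le_exp]
    exact hD
  have hfin : 18 * Real.exp (-(2 * D)) ≤ η := by
    have h3 : Real.exp (-(2 * D)) ≤ Real.exp (-(Real.log (18 / η))) := by
      rw [Real.exp_le_exp]; linarith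
    have h4 : Real.exp (-(Real.log (18 / η))) = η / 18 := by
      rw [Real.exp_neg, Real.exp_log (by positivity), inv_div]
    rw [h4] at h3
    linarith
  calc 18 * (n : ℝ) ^ 2 * ((n.choose k : ℝ) * (p * Real.exp (3 - a * D)) ^ k)
      ≤ 18 * Real.exp D * (Real.exp D * Real.exp (-(4 * D))) := by
        refine mul_le_mul (mul_le_mul_of_nonneg_left hn2' (by norm_num)) hmain (by positivity)
          (by positivity)
    _ = 18 * Real.exp (-(2 * D)) := by
        rw [mul_assoc, ← Real.exp_add, ← Real.exp_add]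
        ring_nf
    _ ≤ η := hfin

end p7

end Pool.Agent.Helper40.FL
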