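import Pool.Agent.Helper40.FL.D10
import Pool.Agent.Helper40.FL.P1
import Pool.Agent.Helper40.FL.P3
import Pool.Agent.Helper40.FL.P4
import Pool.Agent.Helper40.FL.P5
import Pool.Agent.Helper40.FL.P6
import Pool.Agent.Helper40.FL.P7

/-! Assembly of project FL: the upper bound. -/

set_option autoImplicit false
open Classical Filter Topology

namespace Pool.Agent.Helper40.FL

/-- `S` supports a fractional Latin square with entries within a factor `1 ± θ` of the explicit
weights `(pn)² / (d₁ d₂ d₃)`, where `d₁, d₂, d₃` are the numbers of members of `S` on the three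
lines through the cell. -/
def FLS (n : ℕ) (p θ : ℝ) (S : Finset (Fin n × Fin n × Fin n)) : Prop :=
  ∃ w : Fin n → Fin n → Fin n → ℝ,
    (∀ i j k, 0 ≤ w i j k) ∧ (∀ i j k, (i, j, k) ∉ S → w i j k = 0) ∧
    (∀ i j k, (i, j, k) ∈ S →
      |w i j k * (((S.filter fun x => x.1 = i ∧ x.2.1 = j).card : ℝ) *
          (S.filter fun x => x.1 = i ∧ x.2.2 = k).card *
          (S.filter fun x => x.2.1 = j ∧ x.2.2 = k).card) / (p * n) ^ 2 - 1| ≤ θ) ∧
    (∀ i j, ∑ k, w i j k = 1) ∧ (∀ i k, ∑ j, w i j k = 1) ∧ (∀ j k, ∑ i, w i j k = 1)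

/-- cells and triples -/
def cellEquiv (n : ℕ) : Fin n × Fin n × Fin n ≃ Tr n where
  toFun x := ![x.1, x.2.1, x.2.2]
  invFun x := (x 0, x 1, x 2)
  left_inv x := rfl
  right_inv x := by
    ext i
    fin_cases i <;> rfl

/-- transfer of probabilities -/
theorem sum_eq_Pr (n : ℕ) (p : ℝ) (A : Finset (Fin n × Fin n × Fin n) → Prop) :
    ∑ S ∈ (Finset.univ : Finset (Finset (Fin n × Fin n × Fin n))).filter A,
        p ^ S.card * (1 - p) ^ (n ^ 3 - S.card) =
      Pr p (fun T : Finset (Tr n) => A (T.map (cellEquiv n).symm.toEmbedding)) := by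
  rw [Pr]
  refine Finset.sum_equiv (cellEquiv n).finsetCongr ?_ ?_
  · intro S
    simp only [Finset.mem_filter, Finset.mem_univ, true_and, Equiv.finsetCongr_apply,
      Finset.map_map]
    have h : ((cellEquiv n).toEmbedding.trans (cellEquiv n).symm.toEmbedding) =
        Function.Embedding.refl _ := by
      ext x <;> simp
    rw [h, Finset.map_refl]
  · intro S _
    rw [wt, Equiv.finsetCongr_apply, Finset.card_map, card_Tr]

/-- the three degree functions in coordinates -/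
theorem dg_cell (n : ℕ) (T : Finset (Tr n)) (i j k : Fin n) :
    (dg T (0, i, j) = ((T.map (cellEquiv n).symm.toEmbedding).filter
      fun x => x.1 = i ∧ x.2.1 = j).card) ∧
    (dg T (1, j, k) = ((T.map (cellEquiv n).symm.toEmbedding).filter
      fun x => x.2.1 = j ∧ x.2.2 = k).card) ∧
    (dg T (2, k, i) = ((T.map (cellEquiv n).symm.toEmbedding).filter
      fun x => x.1 = i ∧ x.2.2 = k).card) := by
  have key : ∀ (P : Fin n × Fin n × Fin n → Prop) (Q : Tr n → Prop) [DecidablePred P]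
      [DecidablePred Q], (∀ x : Tr n, Q x ↔ P (x 0, x 1, x 2)) →
      (T.filter Q).card = ((T.map (cellEquiv n).symm.toEmbedding).filter P).card := by
    intro P Q _ _ h
    rw [Finset.filter_map, Finset.card_map]
    congr 1
    ext x
    simp only [Finset.mem_filter, Function.comp_apply, Equiv.coe_toEmbedding]
    rw [h x]
    rfl
  refine ⟨?_, ?_, ?_⟩
  · rw [dg_eq]
    exact key (fun x => x.1 = i ∧ x.2.1 = j) (fun x => x 0 = i ∧ x (0 + 1) = j) fun x => Iff.rfl
  · rw [dg_eq]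
    exact key (fun x => x.2.1 = j ∧ x.2.2 = k) (fun x => x 1 = j ∧ x (1 + 1) = k) fun x => Iff.rfl
  · rw [dg_eq]
    refine key (fun x => x.1 = i ∧ x.2.2 = k) (fun x => x 2 = k ∧ x (2 + 1) = i) fun x => ?_
    show x 2 = k ∧ x 0 = i ↔ x 0 = i ∧ x 2 = k
    exact and_comm

/-- line sums in coordinates -/
theorem line_sum (n : ℕ) (T : Finset (Tr n)) (w : Tr n → ℝ) (i : Fin 3) (u v : Fin n) :
    ∑ x ∈ T.filter (fun x => edge i x = (i, u, v)), w x =
      ∑ x ∈ Finset.univ.filter (fun x : Tr n => x i = u ∧ x (i + 1) = v),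
        if x ∈ T then w x else 0 := by
  rw [← Finset.sum_filter]
  refine Finset.sum_congr ?_ fun _ _ => rfl
  ext x
  simp only [Finset.mem_filter, Finset.mem_univ, true_and, edge_eq_iff]
  tauto

theorem sum_line0 (n : ℕ) (g : Tr n → ℝ) (i j : Fin n) :
    ∑ x ∈ Finset.univ.filter (fun x : Tr n => x 0 = i ∧ x (0 + 1) = j), g x =
      ∑ k, g ![i, j, k] := by
  refine (Finset.sum_bij' (fun k _ => ![i, j, k]) (fun x _ => x 2) ?_ ?_ ?_ ?_ ?_).symm
  · intro k _
    simp
  · intro x _; exact Finset.mem_univ _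
  · intro k _; rfl
  · intro x hx
    simp only [Finset.mem_filter, Finset.mem_univ, true_and] at hx
    obtain ⟨h1, h2⟩ := hx
    ext a
    fin_cases a
    · simp [h1]
    · simp [← h2]
    · simp
  · intro k _; rfl

theorem sum_line1 (n : ℕ) (g : Tr n → ℝ) (j k : Fin n) :
    ∑ x ∈ Finset.univ.filter (fun x : Tr n => x 1 = j ∧ x (1 + 1) = k), g x =
      ∑ i, g ![i, j, k] := by
  refine (Finset.sum_bij' (fun i _ => ![i, j, k]) (fun x _ => x 0) ?_ ?_ ?_ ?_ ?_).symm
  · intro i _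
    simp
  · intro x _; exact Finset.mem_univ _
  · intro k _; rfl
  · intro x hx
    simp only [Finset.mem_filter, Finset.mem_univ, true_and] at hx
    obtain ⟨h1, h2⟩ := hx
    ext a
    fin_cases a
    · simp
    · simp [h1]
    · simp [← h2]
  · intro k _; rfl

theorem sum_line2 (n : ℕ) (g : Tr n → ℝ) (i k : Fin n) :
    ∑ x ∈ Finset.univ.filter (fun x : Tr n => x 2 = k ∧ x (2 + 1) = i), g x =
      ∑ j, g ![i, j, k] := by
  refine (Finset.sum_bij' (fun j _ => ![i, j, k]) (fun x _ => x 1) ?_ ?_ ?_ ?_ ?_).symm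
  · intro j _
    simp
  · intro x _; exact Finset.mem_univ _
  · intro k _; rfl
  · intro x hx
    simp only [Finset.mem_filter, Finset.mem_univ, true_and] at hx
    obtain ⟨h1, h2⟩ := hx
    ext a
    fin_cases a
    · simp [← h2]
    · simp
    · simp [h1]
  · intro k _; rfl

/-- the deterministic conclusion in coordinates -/
theorem fls_of_w {n : ℕ} (hn : 0 < n) {p θ : ℝ} (hp : 0 < p) (hθ' : θ ≤ 1)
    (T : Finset (Tr n)) (hpos : ∀ e, 0 < dg T e) (w : Tr n → ℝ)
    (h1 : ∀ x ∈ T, |w x - w0 T (p * n) x| ≤ θ * w0 T (p * n) x)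
    (h2 : ∀ e, ∑ x ∈ T.filter (fun x => edge e.1 x = e), w x = 1) :
    FLS n p θ (T.map (cellEquiv n).symm.toEmbedding) := by
  have hD : 0 < p * n := mul_pos hp (by exact_mod_cast hn)
  have hw0 : ∀ x, 0 < w0 T (p * n) x := by
    intro x
    rw [w0]
    refine div_pos (pow_pos hD 2) (Finset.prod_pos fun i _ => ?_)
    exact_mod_cast hpos _
  have hmem : ∀ i j k : Fin n, (i, j, k) ∈ T.map (cellEquiv n).symm.toEmbedding ↔
      (![i, j, k] : Tr n) ∈ T := by
    intro i j k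
    rw [Finset.mem_map_equiv, Equiv.symm_symm]
    rfl
  refine ⟨fun i j k => if (![i, j, k] : Tr n) ∈ T then w ![i, j, k] else 0, ?_, ?_, ?_, ?_, ?_, ?_⟩
  · intro i j k
    show 0 ≤ if (![i, j, k] : Tr n) ∈ T then w ![i, j, k] else 0
    split_ifs with h
    · have h3 := abs_le.1 (h1 _ h)
      have h4 := hw0 ![i, j, k]
      nlinarith [h3.1]
    · exact le_rfl
  · intro i j k h
    rw [hmem] at h
    exact if_neg h
  · intro i j k h
    rw [hmem] at h
    simp only [if_pos h]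
    obtain ⟨d1, d2, d3⟩ := dg_cell n T i j k
    rw [← d1, ← d2, ← d3]
    have h3 := h1 _ h
    have h4 := hw0 ![i, j, k]
    have e1 : w0 T (p * n) ![i, j, k] = (p * n) ^ 2 /
        (dg T (0, i, j) * dg T (1, j, k) * dg T (2, k, i)) := by
      rw [w0, Fin.prod_univ_three]
      rfl
    have p1 : (0 : ℝ) < dg T (0, i, j) := by exact_mod_cast hpos _
    have p2 : (0 : ℝ) < dg T (1, j, k) := by exact_mod_cast hpos _
    have p3 : (0 : ℝ) < dg T (2, k, i) := by exact_mod_cast hpos _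
    have e2 : w ![i, j, k] * ((dg T (0, i, j) : ℝ) * dg T (2, k, i) * dg T (1, j, k)) /
        (p * n) ^ 2 - 1 = (w ![i, j, k] - w0 T (p * n) ![i, j, k]) / w0 T (p * n) ![i, j, k] := by
      rw [e1]
      field_simp
    rw [e2, abs_div, abs_of_pos h4, div_le_iff₀ h4]
    exact h3
  · intro i j
    have h := h2 (0, i, j)
    rw [line_sum n T w 0 i j, sum_line0] at h
    exact h
  · intro i k
    have h := h2 (2, k, i)
    rw [line_sum n T w 2 k i, sum_line2] at h
    exact h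
  · intro j k
    have h := h2 (1, j, k)
    rw [line_sum n T w 1 j k, sum_line1] at h
    exact h

theorem FLS.mono {n : ℕ} {p θ θ' : ℝ} (h : θ ≤ θ') {S : Finset (Fin n × Fin n × Fin n)}
    (hS : FLS n p θ S) : FLS n p θ' S := by
  obtain ⟨w, h1, h2, h3, h4⟩ := hS
  exact ⟨w, h1, h2, fun i j k hh => (h3 i j k hh).trans h, h4⟩

/-- all probability estimates together -/
theorem upper_Pr {ε θ : ℝ} (hε : 0 < ε) (hθ : 0 < θ) : ∀ η > 0, ∃ N : ℕ, ∀ n ≥ N, ∀ p : ℝ,
    0 ≤ p → p ≤ 1 → (2 + ε) * Real.log n ≤ p * n →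
    Pr p (fun T : Finset (Tr n) =>
      ¬ FLS n p θ (T.map (cellEquiv n).symm.toEmbedding)) ≤ η := by
  intro η hη
  obtain ⟨c, hc, hc', hlo⟩ := pr_lo hε
  have hκ : 0 < c / 16 := by positivity
  obtain ⟨δ, hδ, hsmall⟩ := pr_small hκ
  have hθ1 : 0 < min θ 1 := lt_min hθ one_pos
  obtain ⟨lam, hlam, m, lamB, hlamB, η1, hη1, η2, hη2, hdet⟩ :=
    deterministic hc hc' (by norm_num : (1 : ℝ) ≤ 16) hδ hθ1
  have hη7 : 0 < η / 7 := by positivity
  obtain ⟨N1, hN1⟩ := hlo (η / 7) hη7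
  obtain ⟨N2, hN2⟩ := pr_hi (η / 7) hη7
  obtain ⟨N3, hN3⟩ := hsmall (η / 7) hη7
  obtain ⟨N4, hN4⟩ := pr_up hlam (η / 7) hη7
  obtain ⟨N5, hN5⟩ := pr_low hlam (η / 7) hη7
  obtain ⟨N6, hN6⟩ := pr_bulk m hlamB (η / 7) hη7
  obtain ⟨N7, hN7⟩ := pr_typ hη1 hη2 (η / 7) hη7
  refine ⟨N1 + N2 + N3 + N4 + N5 + N6 + N7 + 2, fun n hn p h0 h1 hp => ?_⟩
  have hn2 : 2 ≤ n := by omega
  have hnpos : 0 < n := by omega
  have hlog : 0 < Real.log n := Real.log_pos (by exact_mod_cast (by omega : 1 < n))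
  have hp2 : 2 * Real.log n ≤ p * n := by nlinarith
  have hpn : 0 < p * n := by nlinarith
  have hp0 : 0 < p := by
    rcases h0.lt_or_eq with h | h
    · exact h
    · rw [← h, zero_mul] at hpn; exact absurd hpn (lt_irrefl _)
  have hnR : (0 : ℝ) < n := by exact_mod_cast hnpos
  have b1 := hN1 n (by omega) p h0 h1 hp
  have b2 := hN2 n (by omega) p h0 h1 hp2
  have b3 := hN3 n (by omega) p h0 h1 hp2
  have b4 := hN4 n (by omega) p h0 h1 hp2
  have b5 := hN5 n (by omega) p h0 h1 hp2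
  have b6 := hN6 n (by omega) p h0 h1 hp2
  have b7 := hN7 n (by omega) p h0 h1 hp2
  have hsub : Pr p (fun T : Finset (Tr n) =>
      ¬ FLS n p θ (T.map (cellEquiv n).symm.toEmbedding)) ≤
      Pr p (fun T : Finset (Tr n) => (¬ ∀ e, c * (p * n) ≤ dg T e) ∨
        ((¬ ∀ e, (dg T e : ℝ) ≤ 16 * (p * n)) ∨
        ((¬ ∀ (i : Fin 3) (v : Fin n) (X Z : Finset (Fin n)), (X.card + Z.card : ℝ) ≤ δ * n →
          (cnt T i v X Z : ℝ) ≤ c / 16 * (p * n) * (X.card + Z.card)) ∨
        ((¬ ∀ (i : Fin 3) (v : Fin n) (X Z : Finset (Fin n)),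
          (cnt T i v X Z : ℝ) ≤ p * n / n * (X.card * Z.card) + lam * (p * n) * n) ∨
        ((¬ ∀ (i : Fin 3) (v : Fin n) (X Z : Finset (Fin n)),
          p * (X.card * Z.card) - lam * (p * n) * n ≤ (cnt T i v X Z : ℝ)) ∨
        ((¬ Bulk T p m lamB) ∨ (¬ Typ T (p * n) η1 η2))))))) := by
    refine Pr_mono h0 h1 fun T hT => ?_
    by_contra hcon
    simp only [not_or, not_not] at hcon
    obtain ⟨g1, g2, g3, g4, g5, g6, g7⟩ := hcon
    apply hT
    have hNice : Nice T (p * n) c 16 (c / 16) δ lam := by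
      refine ⟨g1, g2, g3, g4, ?_, ?_⟩
      · intro i v X
        have h := g5 i v X Finset.univ
        rw [Finset.card_univ, Fintype.card_fin] at h
        have e : p * n * X.card = p * (X.card * (n : ℝ)) := by ring
        rw [e]; exact h
      · intro i v Z
        have h := g5 i v Finset.univ Z
        rw [Finset.card_univ, Fintype.card_fin] at h
        have e : p * n * Z.card = p * ((n : ℝ) * Z.card) := by ring
        rw [e]; exact h
    obtain ⟨w, hw1, hw2⟩ := hdet n hnpos T p hp0 hNice g6 g7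
    have hpos : ∀ e, 0 < dg T e := by
      intro e
      have h := g1 e
      have h3 : (0 : ℝ) < dg T e := lt_of_lt_of_le (by positivity) h
      exact_mod_cast h3
    exact (fls_of_w hnpos hp0 (min_le_right _ _) T hpos w hw1 hw2).mono (min_le_left _ _)
  refine hsub.trans ?_
  refine (Pr_or_le h0 h1 _ _).trans ?_
  refine (add_le_add_right (Pr_or_le h0 h1 _ _) _).trans ?_
  refine (add_le_add_right (add_le_add_right (Pr_or_le h0 h1 _ _) _) _).trans ?_
  refine (add_le_add_right (add_le_add_right (add_le_add_right (Pr_or_le h0 h1 _ _) _) _) _).trans ?_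
  refine (add_le_add_right (add_le_add_right (add_le_add_right (add_le_add_right
    (Pr_or_le h0 h1 _ _) _) _) _) _).trans ?_
  refine (add_le_add_right (add_le_add_right (add_le_add_right (add_le_add_right
    (add_le_add_right (Pr_or_le h0 h1 _ _) _) _) _) _) _).trans ?_
  linarith

/-- A1 : upper bound -/
theorem upper {ε θ : ℝ} (hε : 0 < ε) (hθ : 0 < θ) (p : ℕ → ℝ) (hp : ∀ n, 0 ≤ p n ∧ p n ≤ 1)
    (h : ∀ᶠ n : ℕ in atTop, (2 + ε) * Real.log (n : ℝ) / (n : ℝ) ≤ p n) :
    Tendsto (fun n : ℕ =>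
      ∑ S ∈ (Finset.univ : Finset (Finset (Fin n × Fin n × Fin n))).filter (FLS n (p n) θ),
        p n ^ S.card * (1 - p n) ^ (n ^ 3 - S.card)) atTop (𝓝 1) := by
  rw [Metric.tendsto_atTop']
  intro η hη
  obtain ⟨N, hN⟩ := upper_Pr hε hθ (η / 2) (by positivity)
  obtain ⟨M, hM⟩ := eventually_atTop.1 h
  refine ⟨N + M + 1, fun n hn => ?_⟩
  have hn0 : (0 : ℝ) < n := by exact_mod_cast (by omega : 0 < n)
  have h1 := hM n (by omega)
  rw [div_le_iff₀ hn0] at h1
  have h2 := hN n (by omega) (p n) (hp n).1 (hp n).2 h1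
  rw [sum_eq_Pr, Pr_not]
  have h3 := Pr_nonneg (hp n).1 (hp n).2 (fun T : Finset (Tr n) =>
    ¬ FLS n (p n) θ (T.map (cellEquiv n).symm.toEmbedding))
  rw [Real.dist_eq, abs_lt]
  constructor <;> linarith

end Pool.Agent.Helper40.FL
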