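import Pool.Agent.Helper40.FL.Basic

/-!
P8: below the threshold some line in direction `0` is empty.
-/

set_option autoImplicit false
open Classical Filter Topology

namespace Pool.Agent.Helper40.FL

/-- product over all triples of a function of the first two coordinates -/
theorem h37_prod_lines {n : ℕ} (h : Fin n × Fin n → ℝ) :
    ∏ x : Tr n, h (x 0, x 1) = ∏ l : Fin n × Fin n, h l ^ n := by
  rw [← Finset.prod_fiberwise (s := (Finset.univ : Finset (Tr n))) (g := fun x => (x 0, x 1))]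
  refine Finset.prod_congr rfl fun l _ => ?_
  have h1 : ∏ x ∈ (Finset.univ : Finset (Tr n)).filter (fun x => (x 0, x 1) = l), h (x 0, x 1) =
      ∏ x ∈ (Finset.univ : Finset (Tr n)).filter (fun x => (x 0, x 1) = l), h l :=
    Finset.prod_congr rfl fun x hx => by rw [(Finset.mem_filter.1 hx).2]
  rw [h1, Finset.prod_const]
  congr 1
  have h2 := card_line (n := n) (0, l.1, l.2)
  conv_rhs => rw [← h2]
  congr 1
  ext x
  simp only [Finset.mem_filter, Finset.mem_univ, true_and, Prod.ext_iff]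
  simp [edge]

/-- the probability that all lines in direction `0` are met -/
theorem h37_cover_eq (n : ℕ) (p : ℝ) :
    Pr p (fun T : Finset (Tr n) => ∀ u w, 0 < dg T (0, u, w)) = (1 - (1 - p) ^ n) ^ (n ^ 2) := by
  let Y : Fin n × Fin n → Finset (Tr n) → ℝ := fun l T => if dg T (0, l.1, l.2) = 0 then 1 else 0
  -- the indicator as a product
  have h1 : ∀ T : Finset (Tr n), (if ∀ u w, 0 < dg T (0, u, w) then wt p T else 0) =
      wt p T * ∏ l : Fin n × Fin n, (-Y l T + 1) := by
    intro T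
    by_cases hT : ∀ u w, 0 < dg T (0, u, w)
    · rw [if_pos hT]
      have : ∀ l : Fin n × Fin n, -Y l T + 1 = 1 := by
        intro l
        have := (hT l.1 l.2).ne'
        simp [Y, this]
      rw [Finset.prod_congr rfl fun l _ => this l]
      simp
    · rw [if_neg hT]
      push Not at hT
      obtain ⟨u, w, huw⟩ := hT
      have h0 : dg T (0, u, w) = 0 := Nat.le_zero.1 huw
      have : ∏ l : Fin n × Fin n, (-Y l T + 1) = 0 := by
        refine Finset.prod_eq_zero (Finset.mem_univ (u, w)) ?_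
        simp [Y, h0]
      rw [this, mul_zero]
  -- products of indicators
  have h2 : ∀ (Λ : Finset (Fin n × Fin n)) (T : Finset (Tr n)), ∏ l ∈ Λ, (-Y l T) =
      (-1) ^ Λ.card * ∏ x ∈ T, (if (x 0, x 1) ∈ Λ then (0 : ℝ) else 1) := by
    intro Λ T
    have h3 : ∏ l ∈ Λ, (-Y l T) = (-1) ^ Λ.card * ∏ l ∈ Λ, Y l T := by
      rw [← Finset.prod_const, ← Finset.prod_mul_distrib]
      exact Finset.prod_congr rfl fun l _ => by ring
    rw [h3]
    congr 1
    by_cases hex : ∃ x ∈ T, (x 0, x 1) ∈ Λ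
    · obtain ⟨x, hx, hxΛ⟩ := hex
      have e1 : ∏ l ∈ Λ, Y l T = 0 := by
        refine Finset.prod_eq_zero hxΛ ?_
        have : dg T (0, x 0, x 1) ≠ 0 := by
          rw [dg, Finset.card_ne_zero]
          refine ⟨x, Finset.mem_filter.2 ⟨hx, ?_⟩⟩
          rfl
        simp [Y, this]
      have e2 : ∏ x ∈ T, (if (x 0, x 1) ∈ Λ then (0 : ℝ) else 1) = 0 :=
        Finset.prod_eq_zero hx (by rw [if_pos hxΛ])
      rw [e1, e2]
    · push Not at hex
      have e1 : ∏ l ∈ Λ, Y l T = 1 := by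
        refine Finset.prod_eq_one fun l hl => ?_
        have : dg T (0, l.1, l.2) = 0 := by
          rw [dg, Finset.card_eq_zero, Finset.filter_eq_empty_iff]
          intro x hx he
          rw [edge_self_iff] at he
          refine hex x hx ?_
          have : (x 0, x 1) = l := Prod.ext he.1 he.2
          rwa [this]
        simp [Y, this]
      have e2 : ∏ x ∈ T, (if (x 0, x 1) ∈ Λ then (0 : ℝ) else 1) = 1 :=
        Finset.prod_eq_one fun x hx => by rw [if_neg (hex x hx)]
      rw [e1, e2]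
  have h4 : ∀ Λ : Finset (Fin n × Fin n),
      ∑ T : Finset (Tr n), wt p T * ∏ x ∈ T, (if (x 0, x 1) ∈ Λ then (0 : ℝ) else 1) =
        ((1 - p) ^ n) ^ Λ.card := by
    intro Λ
    rw [gf p (fun x : Tr n => if (x 0, x 1) ∈ Λ then (0 : ℝ) else 1)]
    have e := h37_prod_lines (n := n) (fun l => 1 - p + p * (if l ∈ Λ then (0 : ℝ) else 1))
    rw [e]
    have e2 : ∀ l : Fin n × Fin n, (1 - p + p * (if l ∈ Λ then (0 : ℝ) else 1)) ^ n =
        if l ∈ Λ then (1 - p) ^ n else 1 := by
      intro l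
      by_cases hl : l ∈ Λ
      · simp [hl]
      · simp [hl]
    rw [Finset.prod_congr rfl fun l _ => e2 l, Finset.prod_ite_mem, Finset.univ_inter,
      Finset.prod_const]
  have h0 : Pr p (fun T : Finset (Tr n) => ∀ u w, 0 < dg T (0, u, w)) =
      ∑ T : Finset (Tr n), wt p T * ∏ l : Fin n × Fin n, (-Y l T + 1) := by
    rw [Pr, Finset.sum_filter]
    refine Finset.sum_congr rfl fun T _ => ?_
    rw [← h1 T]
    by_cases hT : ∀ u w, 0 < dg T (0, u, w)
    · rw [if_pos hT, if_pos hT]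
    · rw [if_neg hT, if_neg hT]
  rw [h0]
  have h5 : ∀ T : Finset (Tr n), wt p T * ∏ l : Fin n × Fin n, (-Y l T + 1) =
      ∑ Λ : Finset (Fin n × Fin n), (-1) ^ Λ.card *
        (wt p T * ∏ x ∈ T, (if (x 0, x 1) ∈ Λ then (0 : ℝ) else 1)) := by
    intro T
    rw [Finset.prod_add_one, Finset.powerset_univ, Finset.mul_sum]
    refine Finset.sum_congr rfl fun Λ _ => ?_
    rw [h2]
    ring
  rw [Finset.sum_congr rfl fun T _ => h5 T, Finset.sum_comm]
  have h6 : ∀ Λ : Finset (Fin n × Fin n), ∑ T : Finset (Tr n), (-1 : ℝ) ^ Λ.card *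
        (wt p T * ∏ x ∈ T, (if (x 0, x 1) ∈ Λ then (0 : ℝ) else 1)) =
      ∏ l ∈ Λ, (-(1 - p) ^ n) := by
    intro Λ
    rw [← Finset.mul_sum, h4, Finset.prod_const, ← mul_pow]
    congr 1
    ring
  rw [Finset.sum_congr rfl fun Λ _ => h6 Λ]
  have h7 := Finset.prod_add_one (ι := Fin n × Fin n) (s := Finset.univ)
    (f := fun _ => -(1 - p) ^ n)
  rw [Finset.powerset_univ] at h7
  rw [← h7, Finset.prod_const, Finset.card_univ, Fintype.card_prod, Fintype.card_fin]
  have e3 : -(1 - p) ^ n + 1 = 1 - (1 - p) ^ n := by ring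
  rw [e3, sq]

/-- P8 : the lower bound; all lines in one direction are covered -/
theorem pr_cover {ε : ℝ} (hε : 0 < ε) : ∀ η > 0, ∃ N : ℕ, ∀ n ≥ N, ∀ p : ℝ,
    0 ≤ p → p ≤ 1 → p * n ≤ (2 - ε) * Real.log n →
    Pr p (fun T : Finset (Tr n) => ∀ u w, 0 < dg T (0, u, w)) ≤ η := by
  intro η hη
  -- the reduced `ε`
  let e : ℝ := min ε 1
  have he0 : 0 < e := lt_min hε one_pos
  have he1 : e ≤ 1 := min_le_right _ _
  have heε : e ≤ ε := min_le_left _ _
  have hlog : Tendsto (fun n : ℕ => Real.log (n : ℝ)) atTop atTop :=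
    Real.tendsto_log_atTop.comp tendsto_natCast_atTop_atTop
  have hA : ∀ᶠ n : ℕ in atTop, 2 * Real.log n ≤ e / 4 * n := by
    have h1 := (Real.isLittleO_log_id_atTop.comp_tendsto
      (tendsto_natCast_atTop_atTop (R := ℝ))).bound (show (0 : ℝ) < e / 8 by positivity)
    filter_upwards [h1] with n hn
    simp only [Function.comp, id, Real.norm_eq_abs] at hn
    have h2 := le_abs_self (Real.log (n : ℝ))
    rw [abs_of_nonneg (Nat.cast_nonneg n : (0 : ℝ) ≤ n)] at hn
    linarith
  have hB : ∀ᶠ n : ℕ in atTop, Real.exp (-Real.exp (e / 2 * Real.log n)) ≤ η := by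
    have h1 : Tendsto (fun n : ℕ => Real.exp (-Real.exp (e / 2 * Real.log (n : ℝ)))) atTop (𝓝 0) := by
      refine Real.tendsto_exp_neg_atTop_nhds_zero.comp (Real.tendsto_exp_atTop.comp ?_)
      exact hlog.const_mul_atTop (by positivity)
    filter_upwards [h1.eventually (gt_mem_nhds hη)] with n hn
    exact hn.le
  obtain ⟨N, hN⟩ := eventually_atTop.1 ((hA.and hB).and (eventually_ge_atTop 1))
  refine ⟨N, fun n hn p hp0 hp1 hp => ?_⟩
  obtain ⟨⟨h1, h2⟩, hn1⟩ := hN n hn
  have hn0 : (0 : ℝ) < n := by exact_mod_cast hn1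
  have hn1' : (1 : ℝ) ≤ n := by exact_mod_cast hn1
  have hl0 : 0 ≤ Real.log n := Real.log_nonneg hn1'
  have hp' : p * n ≤ (2 - e) * Real.log n := by nlinarith
  have hpe : p ≤ e / 4 := by
    have : p * n ≤ e / 4 * n := by nlinarith
    exact le_of_mul_le_mul_right this hn0
  have h1p : 0 < 1 - p := by linarith
  -- lower bound for the probability that a line is empty
  have hq : Real.exp (-((2 - e / 2) * Real.log n)) ≤ (1 - p) ^ n := by
    have e1 : Real.exp (-(p / (1 - p))) ≤ 1 - p := by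
      have h3 := Real.add_one_le_exp (p / (1 - p))
      have h4 : p / (1 - p) + 1 = (1 - p)⁻¹ := by field_simp; ring
      rw [h4] at h3
      rw [Real.exp_neg]
      exact inv_le_of_inv_le₀ h1p h3
    have e2 : Real.exp (-(p / (1 - p))) ^ n ≤ (1 - p) ^ n :=
      pow_le_pow_left₀ (Real.exp_pos _).le e1 n
    refine le_trans ?_ e2
    rw [← Real.exp_nat_mul, Real.exp_le_exp]
    have e3 : (n : ℝ) * (p / (1 - p)) ≤ (2 - e / 2) * Real.log n := by
      rw [← mul_div_assoc, div_le_iff₀ h1p]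
      have e4 : (2 - e) * Real.log n ≤ (2 - e / 2) * Real.log n * (1 - e / 4) := by
        nlinarith [mul_nonneg (sq_nonneg e) hl0]
      have e5 : (2 - e / 2) * Real.log n * (1 - e / 4) ≤ (2 - e / 2) * Real.log n * (1 - p) := by
        refine mul_le_mul_of_nonneg_left (by linarith) ?_
        exact mul_nonneg (by linarith) hl0
      linarith
    linarith
  rw [h37_cover_eq]
  have hq1 : (1 - p) ^ n ≤ 1 := pow_le_one₀ h1p.le (by linarith)
  have h3 : (1 - (1 - p) ^ n) ^ (n ^ 2) ≤ Real.exp (-((1 - p) ^ n)) ^ (n ^ 2) := by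
    refine pow_le_pow_left₀ (by linarith) ?_ _
    have := Real.add_one_le_exp (-((1 - p) ^ n))
    linarith
  refine h3.trans (le_trans ?_ h2)
  rw [← Real.exp_nat_mul, Real.exp_le_exp]
  have h4 : Real.exp (e / 2 * Real.log n) ≤ ((n ^ 2 : ℕ) : ℝ) * (1 - p) ^ n := by
    have e1 : Real.exp (e / 2 * Real.log n) =
        (n : ℝ) ^ 2 * Real.exp (-((2 - e / 2) * Real.log n)) := by
      have e2 : (n : ℝ) ^ 2 = Real.exp (2 * Real.log n) := by
        rw [show 2 * Real.log (n : ℝ) = ((2 : ℕ) : ℝ) * Real.log n by norm_num, Real.exp_nat_mul,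
          Real.exp_log hn0]
      rw [e2, ← Real.exp_add]
      congr 1
      ring
    rw [e1]
    push_cast
    exact mul_le_mul_of_nonneg_left hq (by positivity)
  linarith

end Pool.Agent.Helper40.FL
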