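import Pool.Agent.Helper40.FL.A1
import Pool.Agent.Helper40.FL.P8

/-! Assembly of project FL: the lower bound. -/

set_option autoImplicit false
open Classical Filter Topology

namespace Pool.Agent.Helper40.FL

/-- A2 : lower bound -/
theorem lower {ε : ℝ} (hε : 0 < ε) (p : ℕ → ℝ) (hp : ∀ n, 0 ≤ p n ∧ p n ≤ 1)
    (h : ∀ᶠ n : ℕ in atTop, p n ≤ (2 - ε) * Real.log (n : ℝ) / (n : ℝ)) :
    Tendsto (fun n : ℕ =>
      ∑ S ∈ (Finset.univ : Finset (Finset (Fin n × Fin n × Fin n))).filter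
          (fun S => ∃ w : Fin n → Fin n → Fin n → ℝ,
            (∀ i j k, 0 ≤ w i j k) ∧ (∀ i j k, (i, j, k) ∉ S → w i j k = 0) ∧
            (∀ i j, ∑ k, w i j k = 1) ∧ (∀ i k, ∑ j, w i j k = 1) ∧ (∀ j k, ∑ i, w i j k = 1)),
        p n ^ S.card * (1 - p n) ^ (n ^ 3 - S.card)) atTop (𝓝 0) := by
  rw [Metric.tendsto_atTop']
  intro η hη
  obtain ⟨N, hN⟩ := pr_cover hε (η / 2) (by positivity)
  obtain ⟨M, hM⟩ := eventually_atTop.1 h
  refine ⟨N + M + 1, fun n hn => ?_⟩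
  have hn0 : (0 : ℝ) < n := by exact_mod_cast (by omega : 0 < n)
  have h1 := hM n (by omega)
  rw [le_div_iff₀ hn0] at h1
  have h2 := hN n (by omega) (p n) (hp n).1 (hp n).2 h1
  rw [sum_eq_Pr]
  have h3 := Pr_nonneg (hp n).1 (hp n).2 (fun T : Finset (Tr n) => ∃ w : Fin n → Fin n → Fin n → ℝ,
            (∀ i j k, 0 ≤ w i j k) ∧
            (∀ i j k, (i, j, k) ∉ T.map (cellEquiv n).symm.toEmbedding → w i j k = 0) ∧
            (∀ i j, ∑ k, w i j k = 1) ∧ (∀ i k, ∑ j, w i j k = 1) ∧ (∀ j k, ∑ i, w i j k = 1))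
  have h4 : Pr (p n) (fun T : Finset (Tr n) => ∃ w : Fin n → Fin n → Fin n → ℝ,
            (∀ i j k, 0 ≤ w i j k) ∧
            (∀ i j k, (i, j, k) ∉ T.map (cellEquiv n).symm.toEmbedding → w i j k = 0) ∧
            (∀ i j, ∑ k, w i j k = 1) ∧ (∀ i k, ∑ j, w i j k = 1) ∧ (∀ j k, ∑ i, w i j k = 1)) ≤
      Pr (p n) (fun T : Finset (Tr n) => ∀ u w, 0 < dg T (0, u, w)) := by
    refine Pr_mono (hp n).1 (hp n).2 fun T hT i j => ?_
    obtain ⟨w, -, h5, h6, -, -⟩ := hT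
    by_contra hcon
    have h7 : dg T (0, i, j) = 0 := by omega
    rw [(dg_cell n T i j i).1, Finset.card_eq_zero] at h7
    have h8 := h6 i j
    rw [Finset.sum_eq_zero] at h8
    · exact zero_ne_one h8
    · intro k _
      apply h5
      intro hmem
      have : (i, j, k) ∈ (T.map (cellEquiv n).symm.toEmbedding).filter
          (fun x => x.1 = i ∧ x.2.1 = j) := Finset.mem_filter.2 ⟨hmem, rfl, rfl⟩
      rw [h7] at this
      exact absurd this (Finset.notMem_empty _)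
  rw [Real.dist_eq, abs_lt]
  constructor <;> linarith

end Pool.Agent.Helper40.FL
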