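import Pool.Agent.Helper40.FL.Defs

/-! Basic facts for project FL: double counting, truncation. -/

set_option autoImplicit false
open Classical Filter Topology

namespace Pool.Agent.Helper40.FL

section trunc

variable {τ t : ℝ}

theorem abs_clip_le (h : 0 ≤ τ) (t : ℝ) : |clip τ t| ≤ τ := by
  rw [clip, abs_le]
  refine ⟨le_max_left _ _, max_le (by linarith) (min_le_left _ _)⟩

theorem soft_of_le (h : |t| ≤ τ) : soft τ t = 0 := by
  rw [abs_le] at h
  rw [soft, clip, min_eq_right h.2, max_eq_right h.1, sub_self]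

theorem soft_of_gt (h0 : 0 ≤ τ) (h : τ ≤ t) : soft τ t = t - τ := by
  rw [soft, clip, min_eq_left h, max_eq_right (by linarith)]

theorem soft_of_lt (h0 : 0 ≤ τ) (h : t ≤ -τ) : soft τ t = t + τ := by
  rw [soft, clip, min_eq_right (by linarith), max_eq_left h]; ring

theorem abs_soft (h : 0 ≤ τ) (t : ℝ) : |soft τ t| = max (|t| - τ) 0 := by
  rcases le_total |t| τ with h1 | h1
  · rw [soft_of_le h1, abs_zero, max_eq_right (by linarith)]
  · rw [max_eq_left (by linarith)]
    rcases le_total 0 t with h2 | h2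
    · rw [abs_of_nonneg h2] at h1 ⊢
      rw [soft_of_gt h h1, abs_of_nonneg (by linarith)]
    · rw [abs_of_nonpos h2] at h1 ⊢
      rw [soft_of_lt h (by linarith), abs_of_nonpos (by linarith)]; ring

theorem abs_clip (h : 0 ≤ τ) (t : ℝ) : |clip τ t| = min |t| τ := by
  have e : clip τ t = t - soft τ t := by rw [soft]; ring
  rcases le_total |t| τ with h1 | h1
  · rw [e, soft_of_le h1, sub_zero, min_eq_left h1]
  · rw [min_eq_right h1, e]
    rcases le_total 0 t with h2 | h2
    · rw [abs_of_nonneg h2] at h1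
      rw [soft_of_gt h h1]; ring_nf; exact abs_of_nonneg h
    · rw [abs_of_nonpos h2] at h1
      rw [soft_of_lt h (by linarith)]
      ring_nf
      rw [abs_neg]; exact abs_of_nonneg h

theorem abs_clip_add (h : 0 ≤ τ) (t : ℝ) : |clip τ t| + |soft τ t| = |t| := by
  rw [abs_clip h, abs_soft h]
  rcases le_total |t| τ with h1 | h1
  · rw [min_eq_left h1, max_eq_right (by linarith)]; ring
  · rw [min_eq_right h1, max_eq_left (by linarith)]; ring

theorem clip_add_soft (τ t : ℝ) : clip τ t + soft τ t = t := by rw [soft]; ring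

theorem soft_pos_iff (h : 0 ≤ τ) : 0 < soft τ t ↔ τ < t := by
  rcases lt_or_ge τ t with h1 | h1
  · rw [soft_of_gt h h1.le]; constructor <;> intro _ <;> linarith
  · constructor
    · intro h2
      exfalso
      rcases le_total (-τ) t with h3 | h3
      · rw [soft_of_le (abs_le.2 ⟨h3, h1⟩)] at h2; exact lt_irrefl _ h2
      · rw [soft_of_lt h h3] at h2; linarith
    · intro h2; linarith

theorem soft_neg_iff (h : 0 ≤ τ) : soft τ t < 0 ↔ t < -τ := by
  rcases lt_or_ge t (-τ) with h1 | h1
  · rw [soft_of_lt h h1.le]; constructor <;> intro _ <;> linarith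
  · constructor
    · intro h2
      exfalso
      rcases le_total t τ with h3 | h3
      · rw [soft_of_le (abs_le.2 ⟨h1, h3⟩)] at h2; exact lt_irrefl _ h2
      · rw [soft_of_gt h h3] at h2; linarith
    · intro h2; linarith

end trunc

section count

variable {n : ℕ}

theorem edge_eq_iff {i : Fin 3} {x : Tr n} {e : Ed n} :
    edge i x = e ↔ i = e.1 ∧ x i = e.2.1 ∧ x (i + 1) = e.2.2 := by
  rw [edge, Prod.ext_iff, Prod.ext_iff]

theorem edge_self_iff {x : Tr n} {e : Ed n} :
    edge e.1 x = e ↔ x e.1 = e.2.1 ∧ x (e.1 + 1) = e.2.2 := by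
  rw [edge_eq_iff]; simp

theorem dg_eq (T : Finset (Tr n)) (i : Fin 3) (u w : Fin n) :
    dg T (i, u, w) = (T.filter fun x => x i = u ∧ x (i + 1) = w).card := by
  rw [dg]
  congr 1
  ext x
  simp only [Finset.mem_filter, edge_eq_iff, true_and]

/-- double counting of incidences -/
theorem sum_edges (T : Finset (Tr n)) (g : Ed n → ℝ) :
    ∑ x ∈ T, ∑ i, g (edge i x) = ∑ e, (dg T e : ℝ) * g e := by
  have h1 : ∀ e : Ed n, (dg T e : ℝ) * g e = ∑ x ∈ T, if edge e.1 x = e then g e else 0 := by
    intro e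
    rw [← Finset.sum_filter, Finset.sum_const, nsmul_eq_mul, dg]
  rw [Finset.sum_congr (s₁ := (Finset.univ : Finset (Ed n))) rfl fun e _ => h1 e]
  conv_rhs => rw [Finset.sum_comm]
  refine Finset.sum_congr rfl fun x _ => ?_
  rw [Fintype.sum_prod_type]
  refine Finset.sum_congr rfl fun i _ => ?_
  rw [Finset.sum_eq_single (x i, x (i + 1))]
  · simp [edge]
  · rintro ⟨u, w⟩ _ h
    rw [if_neg]
    intro h2
    rw [edge_eq_iff] at h2
    exact h (Prod.ext h2.2.1.symm h2.2.2.symm)
  · intro h; exact absurd (Finset.mem_univ _) h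

theorem sum_abs_tsum_le (T : Finset (Tr n)) (y : Ed n → ℝ) :
    ∑ x ∈ T, |tsum y x| ≤ ∑ e, (dg T e : ℝ) * |y e| := by
  rw [← sum_edges T fun e => |y e|]
  exact Finset.sum_le_sum fun x _ => Finset.abs_sum_le_sum_abs _ _

theorem tsum_ker (φ : Fin 3 → Fin n → ℝ) (x : Tr n) : tsum (ker φ) x = 0 := by
  simp only [tsum, ker, edge, Fin.sum_univ_three]
  have h1 : (0 : Fin 3) + 1 = 1 := rfl
  have h2 : (1 : Fin 3) + 1 = 2 := rfl
  have h3 : (2 : Fin 3) + 1 = 0 := rfl
  rw [h1, h2, h3]
  ring

theorem tsum_sub (y z : Ed n → ℝ) (x : Tr n) :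
    tsum (fun e => y e - z e) x = tsum y x - tsum z x := by
  simp only [tsum, Finset.sum_sub_distrib]

theorem tsum_add (y z : Ed n → ℝ) (x : Tr n) :
    tsum (fun e => y e + z e) x = tsum y x + tsum z x := by
  simp only [tsum, Finset.sum_add_distrib]

theorem fin3_add (i : Fin 3) : i + 2 + 1 = i := by
  rw [add_assoc]; fin_cases i <;> rfl

theorem fin3_add' (i : Fin 3) : i + 1 + 2 = i := by
  rw [add_assoc]; fin_cases i <;> rfl

/-- sum over a set of edges through out-neighbourhoods -/
theorem sum_out (S : Finset (Ed n)) (g : Ed n → ℝ) :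
    ∑ e ∈ S, g e = ∑ i, ∑ v, ∑ w ∈ out S i v, g (i, v, w) := by
  have h1 : ∑ e ∈ S, g e = ∑ e, if e ∈ S then g e else 0 := by
    rw [← Finset.sum_filter]; congr 1; ext e; simp
  rw [h1, Fintype.sum_prod_type]
  refine Finset.sum_congr rfl fun i _ => ?_
  rw [Fintype.sum_prod_type]
  refine Finset.sum_congr rfl fun v _ => ?_
  rw [out, Finset.sum_filter]

/-- sum over a set of edges through in-neighbourhoods -/
theorem sum_inn (S : Finset (Ed n)) (g : Ed n → ℝ) :
    ∑ e ∈ S, g e = ∑ i, ∑ v, ∑ u ∈ inn S i v, g (i + 2, u, v) := by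
  have h1 : ∑ e ∈ S, g e = ∑ e, if e ∈ S then g e else 0 := by
    rw [← Finset.sum_filter]; congr 1; ext e; simp
  rw [h1, Fintype.sum_prod_type, ← Equiv.sum_comp (Equiv.addRight (2 : Fin 3))]
  refine Finset.sum_congr rfl fun i _ => ?_
  rw [Fintype.sum_prod_type, Finset.sum_comm]
  refine Finset.sum_congr rfl fun v _ => ?_
  rw [inn, Finset.sum_filter]
  rfl

theorem card_out (S : Finset (Ed n)) : (S.card : ℝ) = ∑ i, ∑ v, ((out S i v).card : ℝ) := by
  have h := sum_out S fun _ => 1
  simpa using h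

theorem card_inn (S : Finset (Ed n)) : (S.card : ℝ) = ∑ i, ∑ v, ((inn S i v).card : ℝ) := by
  have h := sum_inn S fun _ => 1
  simpa using h

theorem cnt_univ_right (T : Finset (Tr n)) (i : Fin 3) (v : Fin n) (X : Finset (Fin n)) :
    cnt T i v X Finset.univ = ∑ u ∈ X, dg T (i + 2, u, v) := by
  have h : (T.filter fun x => x i = v ∧ x (i + 2) ∈ X ∧ x (i + 1) ∈ (Finset.univ : Finset (Fin n))) =
      X.biUnion fun u => T.filter fun x => x (i + 2) = u ∧ x (i + 2 + 1) = v := by
    ext x
    simp only [Finset.mem_filter, Finset.mem_biUnion, Finset.mem_univ, and_true, fin3_add]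
    constructor
    · rintro ⟨h1, h2, h3⟩; exact ⟨_, h3, h1, rfl, h2⟩
    · rintro ⟨u, h1, h2, rfl, h4⟩; exact ⟨h2, h4, h1⟩
  rw [cnt, h, Finset.card_biUnion]
  · exact Finset.sum_congr rfl fun u _ => (dg_eq T _ _ _).symm
  · intro u _ u' _ huu
    rw [Function.onFun, Finset.disjoint_left]
    intro x hx hx'
    simp only [Finset.mem_filter] at hx hx'
    exact huu (hx.2.1.symm.trans hx'.2.1)

theorem cnt_univ_left (T : Finset (Tr n)) (i : Fin 3) (v : Fin n) (Z : Finset (Fin n)) :
    cnt T i v Finset.univ Z = ∑ w ∈ Z, dg T (i, v, w) := by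
  have h : (T.filter fun x => x i = v ∧ x (i + 2) ∈ (Finset.univ : Finset (Fin n)) ∧ x (i + 1) ∈ Z) =
      Z.biUnion fun w => T.filter fun x => x i = v ∧ x (i + 1) = w := by
    ext x
    simp only [Finset.mem_filter, Finset.mem_biUnion, Finset.mem_univ, true_and]
    constructor
    · rintro ⟨h1, h2, h3⟩; exact ⟨_, h3, h1, h2, rfl⟩
    · rintro ⟨w, h1, h2, h3, rfl⟩; exact ⟨h2, h3, h1⟩
  rw [cnt, h, Finset.card_biUnion]
  · exact Finset.sum_congr rfl fun u _ => (dg_eq T _ _ _).symm
  · intro u _ u' _ huu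
    rw [Function.onFun, Finset.disjoint_left]
    intro x hx hx'
    simp only [Finset.mem_filter] at hx hx'
    exact huu (hx.2.2.symm.trans hx'.2.2)

/-- the triples with prescribed sets of coordinates -/
theorem card_box (i : Fin 3) (A B C : Finset (Fin n)) :
    (Finset.univ.filter fun x : Tr n => x i ∈ A ∧ x (i + 1) ∈ B ∧ x (i + 2) ∈ C).card =
      A.card * B.card * C.card := by
  have h : (Finset.univ.filter fun x : Tr n => x i ∈ A ∧ x (i + 1) ∈ B ∧ x (i + 2) ∈ C) =
      Fintype.piFinset fun j => if j = i then A else if j = i + 1 then B else C := by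
    ext x
    simp only [Finset.mem_filter, Finset.mem_univ, true_and, Fintype.mem_piFinset]
    constructor
    · rintro ⟨h1, h2, h3⟩ j
      by_cases hj : j = i
      · subst hj; simpa using h1
      by_cases hj2 : j = i + 1
      · subst hj2; simpa using h2
      have hj3 : j = i + 2 := by fin_cases i <;> fin_cases j <;> simp_all
      subst hj3
      rw [if_neg hj, if_neg hj2]; exact h3
    · intro h
      refine ⟨by simpa using h i, ?_, ?_⟩
      · have := h (i + 1)
        simpa using this
      · have := h (i + 2)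
        have h1 : ¬ (i + 2 = i) := by fin_cases i <;> decide
        have h2 : ¬ (i + 2 = i + 1) := by fin_cases i <;> decide
        rwa [if_neg h1, if_neg h2] at this
  rw [h, Fintype.card_piFinset]
  fin_cases i
  · simp [Fin.prod_univ_three]
  · simp [Fin.prod_univ_three]; ring
  · simp [Fin.prod_univ_three]; ring

/-- number of all triples counted by `cnt` -/
theorem card_cnt (i : Fin 3) (v : Fin n) (X Z : Finset (Fin n)) :
    (Finset.univ.filter fun x : Tr n => x i = v ∧ x (i + 2) ∈ X ∧ x (i + 1) ∈ Z).card =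
      X.card * Z.card := by
  have h := card_box i {v} Z X
  rw [Finset.card_singleton, one_mul, mul_comm] at h
  rw [← h]
  congr 1
  ext x
  simp only [Finset.mem_filter, Finset.mem_univ, true_and, Finset.mem_singleton]
  tauto

theorem cnt_eq_inter (T : Finset (Tr n)) (i : Fin 3) (v : Fin n) (X Z : Finset (Fin n)) :
    cnt T i v X Z =
      (T ∩ Finset.univ.filter fun x : Tr n => x i = v ∧ x (i + 2) ∈ X ∧ x (i + 1) ∈ Z).card := by
  rw [cnt]
  congr 1
  ext x
  simp

/-- number of all triples through an edge -/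
theorem card_line (e : Ed n) : (Finset.univ.filter fun x : Tr n => edge e.1 x = e).card = n := by
  have h := card_box e.1 {e.2.1} {e.2.2} Finset.univ
  rw [Finset.card_singleton, Finset.card_singleton, one_mul, one_mul, Finset.card_univ,
    Fintype.card_fin] at h
  conv_rhs => rw [← h]
  congr 1
  ext x
  simp only [Finset.mem_filter, Finset.mem_univ, true_and, Finset.mem_singleton, edge_self_iff,
    and_true]

theorem dg_eq_inter (T : Finset (Tr n)) (e : Ed n) :
    dg T e = (T ∩ Finset.univ.filter fun x : Tr n => edge e.1 x = e).card := by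
  rw [dg]
  congr 1
  ext x
  simp

theorem card_Tr : Fintype.card (Tr n) = n ^ 3 := by simp

/-- `T` has three times as many incidences -/
theorem card_le_of_hi {T : Finset (Tr n)} {K : ℝ} (h : ∀ e, (dg T e : ℝ) ≤ K) :
    (T.card : ℝ) ≤ K * n ^ 2 := by
  have h1 := sum_edges T fun _ => 1
  have h2 : ∑ e : Ed n, (dg T e : ℝ) * 1 ≤ ∑ e : Ed n, K :=
    Finset.sum_le_sum fun e _ => by rw [mul_one]; exact h e
  rw [← h1] at h2
  simp only [Finset.sum_const, Finset.card_univ, Fintype.card_fin, nsmul_eq_mul,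
    Fintype.card_prod, mul_one] at h2
  push_cast at h2
  nlinarith

end count

end Pool.Agent.Helper40.FL
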