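import Pool.Agent.Helper40.FL.Basic

/-! Module D1 of project FL: an edge function of least `ℓ¹` norm modulo the kernel satisfies the
median condition at every vertex. -/

set_option autoImplicit false
open Classical Filter Topology

namespace Pool.Agent.Helper40.FL

variable {n : ℕ}

theorem D1.exists_small (y : Ed n → ℝ) : ∃ t : ℝ, 0 < t ∧ ∀ e, y e ≠ 0 → t ≤ |y e| := by
  have h : ∀ S : Finset (Ed n), ∃ t : ℝ, 0 < t ∧ ∀ e ∈ S, y e ≠ 0 → t ≤ |y e| := by
    intro S
    induction S using Finset.induction_on with
    | empty => exact ⟨1, one_pos, fun e he => absurd he (Finset.notMem_empty _)⟩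
    | insert a S ha ih =>
      obtain ⟨t, ht, h⟩ := ih
      by_cases h0 : y a = 0
      · refine ⟨t, ht, fun e he h1 => ?_⟩
        rcases Finset.mem_insert.1 he with rfl | h2
        · exact absurd h0 h1
        · exact h e h2 h1
      · refine ⟨min t |y a|, lt_min ht (abs_pos.2 h0), fun e he h1 => ?_⟩
        rcases Finset.mem_insert.1 he with rfl | h2
        · exact min_le_right _ _
        · exact (min_le_left _ _).trans (h e h2 h1)
  obtain ⟨t, ht, h1⟩ := h Finset.univ
  exact ⟨t, ht, fun e he => h1 e (Finset.mem_univ _) he⟩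

theorem D1.sum_ite_sign (A : Fin n → Prop) (t : ℝ) :
    ∑ w, (if A w then -t else t) = t * (n - 2 * ((Finset.univ.filter A).card : ℝ)) := by
  have h : ∀ w, (if A w then -t else t) = t - 2 * t * (if A w then 1 else 0) := by
    intro w; by_cases hw : A w <;> simp [hw]; ring
  rw [Finset.sum_congr rfl fun w _ => h w, Finset.sum_sub_distrib, ← Finset.mul_sum,
    Finset.sum_boole]
  simp only [Finset.sum_const, Finset.card_univ, Fintype.card_fin, nsmul_eq_mul]
  ring

theorem D1.aux {y : Ed n → ℝ} (h : Opt y) (i : Fin 3) (v : Fin n) :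
    (Finset.univ.filter fun u : Fin n => y (i + 2, u, v) < 0).card +
      (Finset.univ.filter fun w : Fin n => 0 < y (i, v, w)).card ≤ n := by
  obtain ⟨t, ht, hy⟩ := D1.exists_small y
  have hi1 : i + 1 ≠ i := by fin_cases i <;> decide
  have hi2 : i + 2 ≠ i := by fin_cases i <;> decide
  set φ : Fin 3 → Fin n → ℝ := fun j a => if j = i ∧ a = v then t else 0 with hφ
  have h0 := h φ
  have h1 : ∀ e : Ed n, |y e - ker φ e| - |y e| =
      (if e.1 = i then (if e.2.1 = v then (if 0 < y e then -t else t) else 0) else 0) +
      (if e.1 = i + 2 then (if e.2.2 = v then (if y e < 0 then -t else t) else 0) else 0) := by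
    rintro ⟨j, a, b⟩
    simp only [ker]
    by_cases hj : j = i
    · subst hj
      have e1 : φ (j + 1) b = 0 := by rw [hφ]; simp [hi1]
      rw [if_pos rfl, if_neg hi2.symm, add_zero, e1, sub_zero]
      by_cases ha : a = v
      · have e2 : φ j a = t := by rw [hφ]; simp [ha]
        rw [if_pos ha, e2]
        by_cases hp : 0 < y (j, a, b)
        · have h3 := hy _ (ne_of_gt hp)
          rw [if_pos hp]
          rw [abs_of_pos hp] at h3 ⊢
          rw [abs_of_nonneg (by linarith)]
          ring
        · rw [if_neg hp]
          have hp2 : y (j, a, b) ≤ 0 := not_lt.1 hp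
          rw [abs_of_nonpos hp2, abs_of_nonpos (by linarith)]
          ring
      · have e2 : φ j a = 0 := by rw [hφ]; simp [ha]
        rw [if_neg ha, e2, sub_zero, sub_self]
    · have e2 : φ j a = 0 := by rw [hφ]; simp [hj]
      rw [if_neg hj, zero_add, e2, zero_sub, sub_neg_eq_add]
      by_cases hj2 : j = i + 2
      · subst hj2
        rw [if_pos rfl, fin3_add]
        by_cases hb : b = v
        · have e3 : φ i b = t := by rw [hφ]; simp [hb]
          rw [if_pos hb, e3]
          by_cases hp : y (i + 2, a, b) < 0
          · have h3 := hy _ (ne_of_lt hp)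
            rw [if_pos hp]
            rw [abs_of_neg hp] at h3 ⊢
            rw [abs_of_nonpos (by linarith)]
            ring
          · rw [if_neg hp]
            have hp2 : 0 ≤ y (i + 2, a, b) := not_lt.1 hp
            rw [abs_of_nonneg hp2, abs_of_nonneg (by linarith)]
            ring
        · have e3 : φ i b = 0 := by rw [hφ]; simp [hb]
          rw [if_neg hb, e3, add_zero, sub_self]
      · rw [if_neg hj2]
        have hj3 : j + 1 ≠ i := by
          intro h4
          apply hj2
          rw [← h4, fin3_add']
        have e3 : φ (j + 1) b = 0 := by rw [hφ]; simp [hj3]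
        rw [e3, add_zero, sub_self]
  have h2 : 0 ≤ ∑ e, (|y e - ker φ e| - |y e|) := by
    rw [Finset.sum_sub_distrib]; linarith
  rw [Finset.sum_congr rfl fun e _ => h1 e, Finset.sum_add_distrib] at h2
  have h3 : ∑ e : Ed n, (if e.1 = i then (if e.2.1 = v then (if 0 < y e then -t else t) else 0)
      else 0) = ∑ w, (if 0 < y (i, v, w) then -t else t) := by
    rw [Fintype.sum_prod_type, Finset.sum_eq_single i]
    · rw [Fintype.sum_prod_type, Finset.sum_eq_single v]
      · simp
      · intro b _ hb; simp [hb]
      · intro hb; exact absurd (Finset.mem_univ _) hb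
    · intro j _ hj; simp [hj]
    · intro hb; exact absurd (Finset.mem_univ _) hb
  have h4 : ∑ e : Ed n, (if e.1 = i + 2 then (if e.2.2 = v then (if y e < 0 then -t else t) else 0)
      else 0) = ∑ u, (if y (i + 2, u, v) < 0 then -t else t) := by
    rw [Fintype.sum_prod_type, Finset.sum_eq_single (i + 2)]
    · rw [Fintype.sum_prod_type]
      refine Finset.sum_congr rfl fun u _ => ?_
      rw [Finset.sum_eq_single v]
      · simp
      · intro b _ hb; simp [hb]
      · intro hb; exact absurd (Finset.mem_univ _) hb
    · intro j _ hj; simp [hj]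
    · intro hb; exact absurd (Finset.mem_univ _) hb
  rw [h3, h4, D1.sum_ite_sign, D1.sum_ite_sign, ← mul_add] at h2
  have h5 := nonneg_of_mul_nonneg_right h2 ht
  have h6 : (((Finset.univ.filter fun u : Fin n => y (i + 2, u, v) < 0).card +
      (Finset.univ.filter fun w : Fin n => 0 < y (i, v, w)).card : ℕ) : ℝ) ≤ (n : ℝ) := by
    push_cast
    linarith
  exact_mod_cast h6

theorem D1.neg {y : Ed n → ℝ} (h : Opt y) : Opt fun e => -y e := by
  intro φ
  have h1 := h fun j a => -φ j a
  have h2 : ∀ e : Ed n, |(-y e) - ker φ e| = |y e - ker (fun j a => -φ j a) e| := by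
    intro e
    rw [← abs_neg]
    congr 1
    simp only [ker]
    ring
  simp only [abs_neg]
  rw [Finset.sum_congr rfl fun e _ => h2 e]
  exact h1

/-- **D1**: the median condition. -/
theorem Opt.med {y : Ed n → ℝ} (h : Opt y) : Med y := by
  intro i v
  refine ⟨?_, D1.aux h i v⟩
  have h1 := D1.aux (D1.neg h) i v
  simpa only [Left.neg_neg_iff, Left.neg_pos_iff] using h1

end Pool.Agent.Helper40.FL
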