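import Pool.Agent.Helper40.FL.Basic

/-! Project FL, module D10a: the first approximation of the weights is good. -/

set_option autoImplicit false
open Classical Filter Topology

namespace Pool.Agent.Helper40.FL

theorem h28_prod3 (i : Fin 3) (h : Fin 3 → ℝ) : ∏ j, h j = h i * (h (i + 1) * h (i + 2)) := by
  rw [Fin.prod_univ_three]
  fin_cases i
  · change h 0 * h 1 * h 2 = h 0 * (h 1 * h 2)
    ring
  · change h 0 * h 1 * h 2 = h 1 * (h 2 * h 0)
    ring
  · change h 0 * h 1 * h 2 = h 2 * (h 0 * h 1)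
    ring

/-- good pairs of degrees -/
theorem h28_good {D η a b : ℝ} (hD : 0 < D) (hη : 0 ≤ η) (hη' : η ≤ 1 / 10)
    (ha : |a - D| ≤ η * D) (hb : |b - D| ≤ η * D) : |D ^ 2 / (a * b) - 1| ≤ 3 * η := by
  rw [abs_le] at ha hb
  have ha1 : (1 - η) * D ≤ a := by linarith
  have ha2 : a ≤ (1 + η) * D := by linarith
  have hb1 : (1 - η) * D ≤ b := by linarith
  have hb2 : b ≤ (1 + η) * D := by linarith
  have h0 : 0 < (1 - η) * D := mul_pos (by linarith) hD
  have ha0 : 0 < a := by linarith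
  have hb0 : 0 < b := by linarith
  have hab : 0 < a * b := mul_pos ha0 hb0
  have hlow : (1 - η) * D * ((1 - η) * D) ≤ a * b := mul_le_mul ha1 hb1 h0.le ha0.le
  have hhigh : a * b ≤ (1 + η) * D * ((1 + η) * D) :=
    mul_le_mul ha2 hb2 hb0.le (by nlinarith)
  have hD2 : 0 < D ^ 2 := by positivity
  rw [abs_le]
  constructor
  · rw [neg_le_sub_iff_le_add, ← sub_le_iff_le_add, le_div_iff₀ hab]
    have h1 : (1 - 3 * η) * (a * b) ≤ (1 - 3 * η) * ((1 + η) * D * ((1 + η) * D)) :=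
      mul_le_mul_of_nonneg_left hhigh (by linarith)
    have h2 : (1 - 3 * η) * (1 + η) ^ 2 ≤ 1 := by nlinarith [mul_nonneg hη hη, mul_nonneg hη (mul_nonneg hη hη)]
    have h3 : (1 - 3 * η) * (1 + η) ^ 2 * D ^ 2 ≤ 1 * D ^ 2 :=
      mul_le_mul_of_nonneg_right h2 hD2.le
    nlinarith
  · rw [sub_le_iff_le_add, div_le_iff₀ hab]
    have h1 : (3 * η + 1) * ((1 - η) * D * ((1 - η) * D)) ≤ (3 * η + 1) * (a * b) :=
      mul_le_mul_of_nonneg_left hlow (by linarith)
    have h2 : 1 ≤ (3 * η + 1) * (1 - η) ^ 2 := by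
      have h4 : 0 ≤ η * (1 - 5 * η) := mul_nonneg hη (by linarith)
      nlinarith [mul_nonneg hη (mul_nonneg hη hη)]
    have h3 : 1 * D ^ 2 ≤ (3 * η + 1) * (1 - η) ^ 2 * D ^ 2 :=
      mul_le_mul_of_nonneg_right h2 hD2.le
    nlinarith

/-- all pairs of degrees -/
theorem h28_bad {D c a b : ℝ} (hD : 0 < D) (hc : 0 < c) (hc' : c ≤ 1 / 4)
    (ha : c * D ≤ a) (hb : c * D ≤ b) : |D ^ 2 / (a * b) - 1| ≤ 1 / c ^ 2 := by
  have hcD : 0 < c * D := mul_pos hc hD
  have ha0 : 0 < a := by linarith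
  have hb0 : 0 < b := by linarith
  have hab : 0 < a * b := mul_pos ha0 hb0
  have hlow : c * D * (c * D) ≤ a * b := mul_le_mul ha hb hcD.le ha0.le
  have h1 : 0 ≤ D ^ 2 / (a * b) := by positivity
  have h2 : D ^ 2 / (a * b) ≤ 1 / c ^ 2 := by
    rw [div_le_div_iff₀ hab (by positivity)]
    nlinarith
  have h3 : 1 ≤ 1 / c ^ 2 := by
    rw [le_div_iff₀ (by positivity)]
    nlinarith
  rw [abs_le]
  constructor <;> linarith

section det

variable {n : ℕ}

/-- D10a : the first approximation is good -/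
theorem residual {T : Finset (Tr n)} {D c η1 η2 : ℝ} (hD : 0 < D) (hc : 0 < c) (hc' : c ≤ 1 / 4)
    (hlo : ∀ e, c * D ≤ dg T e) (hη1 : 0 ≤ η1) (hη1' : η1 ≤ 1 / 10) (hη2 : 0 ≤ η2)
    (hT : Typ T D η1 η2) (e : Ed n) :
    |∑ x ∈ T.filter (fun x => edge e.1 x = e), w0 T D x - 1| ≤ 3 * η1 + 2 * η2 / c ^ 3 := by
  set S := T.filter (fun x => edge e.1 x = e) with hS
  set d : ℝ := (dg T e : ℝ) with hd
  have hdS : (S.card : ℝ) = d := rfl
  have hcD : 0 < c * D := mul_pos hc hD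
  have hd0 : 0 < d := lt_of_lt_of_le hcD (hlo e)
  let t : Tr n → ℝ := fun x =>
    D ^ 2 / ((dg T (edge (e.1 + 1) x) : ℝ) * (dg T (edge (e.1 + 2) x) : ℝ))
  have hw : ∀ x ∈ S, w0 T D x = t x / d := by
    intro x hx
    have hx' : edge e.1 x = e := (Finset.mem_filter.1 hx).2
    change D ^ 2 / ∏ i, (dg T (edge i x) : ℝ) = D ^ 2 / (_ * _) / d
    rw [h28_prod3 e.1, hx', div_div]
    congr 1
    exact mul_comm _ _
  have h1 : ∑ x ∈ S, w0 T D x - 1 = (∑ x ∈ S, (t x - 1)) / d := by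
    rw [Finset.sum_congr rfl hw, ← Finset.sum_div, Finset.sum_sub_distrib, Finset.sum_const,
      nsmul_eq_mul, mul_one, hdS, sub_div, div_self hd0.ne']
  let B : Fin 3 → Tr n → Prop := fun i x => η1 * D < |(dg T (edge i x) : ℝ) - D|
  have h2 : ∀ x ∈ S, |t x - 1| ≤ 3 * η1 + ((if B (e.1 + 1) x then 1 / c ^ 2 else 0) +
      (if B (e.1 + 2) x then 1 / c ^ 2 else 0)) := by
    intro x _
    have h3 : |t x - 1| ≤ 1 / c ^ 2 := h28_bad hD hc hc' (hlo _) (hlo _)
    have h4 : 0 ≤ 1 / c ^ 2 := by positivity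
    by_cases hB1 : B (e.1 + 1) x
    · rw [if_pos hB1]
      split_ifs <;> linarith
    · by_cases hB2 : B (e.1 + 2) x
      · rw [if_pos hB2, if_neg hB1]
        linarith
      · rw [if_neg hB1, if_neg hB2, add_zero, add_zero]
        exact h28_good hD hη1 hη1' (not_lt.1 hB1) (not_lt.1 hB2)
  have h5 : ∀ i : Fin 3, i ≠ e.1 → ∑ x ∈ S, (if B i x then 1 / c ^ 2 else 0) ≤
      η2 * D / c ^ 2 := by
    intro i hi
    rw [← Finset.sum_filter, Finset.sum_const, nsmul_eq_mul, mul_one_div]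
    have h6 := hT e i hi
    have h7 : S.filter (fun x => B i x) =
        T.filter fun x : Tr n => edge e.1 x = e ∧ η1 * D < |(dg T (edge i x) : ℝ) - D| := by
      rw [hS, Finset.filter_filter]
    rw [h7]
    exact div_le_div_of_nonneg_right h6 (by positivity)
  have hi1 : e.1 + 1 ≠ e.1 := by
    generalize e.1 = i
    fin_cases i <;> decide
  have hi2 : e.1 + 2 ≠ e.1 := by
    generalize e.1 = i
    fin_cases i <;> decide
  have h8 : ∑ x ∈ S, |t x - 1| ≤ d * (3 * η1) + (η2 * D / c ^ 2 + η2 * D / c ^ 2) := by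
    refine (Finset.sum_le_sum h2).trans ?_
    rw [Finset.sum_add_distrib, Finset.sum_const, nsmul_eq_mul, hdS, Finset.sum_add_distrib]
    exact add_le_add le_rfl (add_le_add (h5 _ hi1) (h5 _ hi2))
  rw [h1, abs_div, abs_of_pos hd0, div_le_iff₀ hd0]
  refine (Finset.abs_sum_le_sum_abs _ _).trans (h8.trans ?_)
  have h9 : η2 * D / c ^ 2 + η2 * D / c ^ 2 = 2 * η2 / c ^ 3 * (c * D) := by
    field_simp
    ring
  have h10 : 2 * η2 / c ^ 3 * (c * D) ≤ 2 * η2 / c ^ 3 * d :=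
    mul_le_mul_of_nonneg_left (hlo e) (by positivity)
  rw [h9, add_mul]
  linarith

end det

end Pool.Agent.Helper40.FL
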