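import Pool.Agent.Helper40.FL.Basic

/-! Module D2 of project FL: truncations of optimal functions are optimal. -/

set_option autoImplicit false
open Classical Filter Topology

namespace Pool.Agent.Helper40.FL

variable {n : ℕ}

/-- D2 -/
theorem Opt.clip {y : Ed n → ℝ} (h : Opt y) {τ : ℝ} (hτ : 0 ≤ τ) :
    Opt (fun e => clip τ (y e)) := by
  intro φ
  have h1 := h φ
  have h2 : ∑ e, |y e| = ∑ e, |Pool.Agent.Helper40.FL.clip τ (y e)| + ∑ e, |soft τ (y e)| := by
    rw [← Finset.sum_add_distrib]
    exact Finset.sum_congr rfl fun e _ => (abs_clip_add hτ (y e)).symm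
  have h3 : ∑ e, |y e - ker φ e| ≤
      ∑ e, |Pool.Agent.Helper40.FL.clip τ (y e) - ker φ e| + ∑ e, |soft τ (y e)| := by
    rw [← Finset.sum_add_distrib]
    refine Finset.sum_le_sum fun e _ => ?_
    have h4 : y e - ker φ e = (Pool.Agent.Helper40.FL.clip τ (y e) - ker φ e) + soft τ (y e) := by
      have := clip_add_soft τ (y e)
      linarith
    rw [h4]
    exact abs_add_le _ _
  linarith

end Pool.Agent.Helper40.FL
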