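import Pool.Agent.Helper40.FL.Basic

/-! Module D4 of project FL: the cone inequality for an optimal edge function. -/

set_option autoImplicit false
open Classical Filter Topology

namespace Pool.Agent.Helper40.FL

section det

variable {n : ℕ}

/-- triples as ordered triples -/
private def d4equiv (n : ℕ) : Tr n ≃ Fin n × Fin n × Fin n where
  toFun x := (x 0, x 1, x 2)
  invFun q := ![q.1, q.2.1, q.2.2]
  left_inv x := by
    funext i
    fin_cases i <;> rfl
  right_inv q := rfl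

private theorem d4_sum_tr (y : Ed n → ℝ) : ∑ x : Tr n, |tsum y x| =
    ∑ a : Fin n, ∑ b : Fin n, ∑ c : Fin n, |y (0, a, b) + y (1, b, c) + y (2, c, a)| := by
  rw [Fintype.sum_equiv (d4equiv n) (fun x => |tsum y x|)
    (fun q => |y (0, q.1, q.2.1) + y (1, q.2.1, q.2.2) + y (2, q.2.2, q.1)|)]
  · rw [Fintype.sum_prod_type]
    refine Finset.sum_congr rfl fun a _ => ?_
    rw [Fintype.sum_prod_type]
  · intro x
    simp only [tsum, edge, Fin.sum_univ_three, d4equiv, Equiv.coe_fn_mk]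
    rfl

private theorem d4_sum_ed (f : Ed n → ℝ) : ∑ e, f e =
    (∑ a : Fin n, ∑ b : Fin n, f (0, a, b)) + (∑ b : Fin n, ∑ c : Fin n, f (1, b, c)) +
      ∑ c : Fin n, ∑ a : Fin n, f (2, c, a) := by
  rw [Fintype.sum_prod_type, Fin.sum_univ_three, Fintype.sum_prod_type, Fintype.sum_prod_type,
    Fintype.sum_prod_type]

/-- D4 -/
theorem Opt.cone {y : Ed n → ℝ} (h : Opt y) : (n : ℝ) * ∑ e, |y e| ≤ 7 * ∑ x, |tsum y x| := by
  rcases Nat.eq_zero_or_pos n with rfl | hn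
  · simp
  have hn' : (0 : ℝ) < n := by exact_mod_cast hn
  rw [d4_sum_tr]
  set g : Fin n → Fin n → Fin n → ℝ := fun a b c => y (0, a, b) + y (1, b, c) + y (2, c, a)
    with hg
  set G : ℝ := ∑ a : Fin n, ∑ b : Fin n, ∑ c : Fin n, |g a b c| with hG
  set Y : ℝ := ∑ e, |y e| with hY
  -- the basic inequality
  have key : ∀ b₀ c₀ : Fin n, Y ≤ (∑ a : Fin n, ∑ b : Fin n, |g a b c₀|) +
      (∑ b : Fin n, ∑ c : Fin n,
        |y (1, b, c) - y (1, b, c₀) - y (1, b₀, c) + y (1, b₀, c₀)|) +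
      ∑ c : Fin n, ∑ a : Fin n, |g a b₀ c - g a b₀ c₀| := by
    intro b₀ c₀
    have h1 := h (fun i => if i = 0 then (fun a => - y (2, c₀, a)) else
      if i = 1 then (fun b => y (1, b, c₀)) else fun c => y (1, b₀, c₀) - y (1, b₀, c))
    refine h1.trans (le_of_eq ?_)
    rw [d4_sum_ed]
    have e12 : (1 : Fin 3) + 1 = 2 := rfl
    have e20 : (2 : Fin 3) + 1 = 0 := rfl
    have e01 : (0 : Fin 3) + 1 = 1 := rfl
    have n10 : ¬ ((1 : Fin 3) = 0) := by decide
    have n20 : ¬ ((2 : Fin 3) = 0) := by decide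
    have n21 : ¬ ((2 : Fin 3) = 1) := by decide
    congr 1
    · congr 1
      · refine Finset.sum_congr rfl fun a _ => Finset.sum_congr rfl fun b _ => ?_
        simp only [ker, e01, if_true, n10, if_false, hg]
        congr 1
        ring
      · refine Finset.sum_congr rfl fun b _ => Finset.sum_congr rfl fun c _ => ?_
        simp only [ker, e12, if_true, n10, n20, n21, if_false]
        congr 1
        ring
    · refine Finset.sum_congr rfl fun c _ => Finset.sum_congr rfl fun a _ => ?_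
      simp only [ker, e20, if_true, n20, n21, if_false, hg]
      congr 1
      ring
  -- the middle term
  have mid : ∀ b₀ c₀ b c : Fin n,
      (n : ℝ) * |y (1, b, c) - y (1, b, c₀) - y (1, b₀, c) + y (1, b₀, c₀)| ≤
        ∑ a : Fin n, (|g a b c| + |g a b c₀| + |g a b₀ c| + |g a b₀ c₀|) := by
    intro b₀ c₀ b c
    have h2 : ∀ a : Fin n, |y (1, b, c) - y (1, b, c₀) - y (1, b₀, c) + y (1, b₀, c₀)| ≤
        |g a b c| + |g a b c₀| + |g a b₀ c| + |g a b₀ c₀| := by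
      intro a
      have e : y (1, b, c) - y (1, b, c₀) - y (1, b₀, c) + y (1, b₀, c₀) =
          g a b c - g a b c₀ - g a b₀ c + g a b₀ c₀ := by
        simp only [hg]
        ring
      rw [e]
      refine (abs_add_le _ _).trans (add_le_add_left ?_ _)
      refine (abs_sub _ _).trans (add_le_add_left ?_ _)
      exact abs_sub _ _
    calc (n : ℝ) * |y (1, b, c) - y (1, b, c₀) - y (1, b₀, c) + y (1, b₀, c₀)|
        = ∑ _a : Fin n, |y (1, b, c) - y (1, b, c₀) - y (1, b₀, c) + y (1, b₀, c₀)| := by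
          rw [Finset.sum_const, Finset.card_univ, Fintype.card_fin, nsmul_eq_mul]
      _ ≤ _ := Finset.sum_le_sum fun a _ => h2 a
  -- reordering the triple sum
  have P1 : ∑ c : Fin n, ∑ a : Fin n, ∑ b : Fin n, |g a b c| = G := by
    rw [Finset.sum_comm]
    refine Finset.sum_congr rfl fun a _ => ?_
    rw [Finset.sum_comm]
  have P2 : ∑ b : Fin n, ∑ c : Fin n, ∑ a : Fin n, |g a b c| = G := by
    have e : ∀ b : Fin n, ∑ c : Fin n, ∑ a : Fin n, |g a b c| =
        ∑ a : Fin n, ∑ c : Fin n, |g a b c| := fun b => Finset.sum_comm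
    rw [Finset.sum_congr rfl fun b _ => e b, Finset.sum_comm]
  have P3 : ∑ c : Fin n, ∑ b : Fin n, ∑ a : Fin n, |g a b c| = G := by
    rw [Finset.sum_comm]
    exact P2
  -- summation over all pairs
  have s1 : ∑ _b₀ : Fin n, ∑ c₀ : Fin n, ∑ a : Fin n, ∑ b : Fin n, |g a b c₀| = n * G := by
    rw [Finset.sum_const, Finset.card_univ, Fintype.card_fin, nsmul_eq_mul, P1]
  have s2 : (n : ℝ) * ∑ b₀ : Fin n, ∑ c₀ : Fin n, ∑ b : Fin n, ∑ c : Fin n,
      |y (1, b, c) - y (1, b, c₀) - y (1, b₀, c) + y (1, b₀, c₀)| ≤ 4 * ((n : ℝ) * (n * G)) := by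
    have t1 : (n : ℝ) * ∑ b₀ : Fin n, ∑ c₀ : Fin n, ∑ b : Fin n, ∑ c : Fin n,
        |y (1, b, c) - y (1, b, c₀) - y (1, b₀, c) + y (1, b₀, c₀)| ≤
        ∑ b₀ : Fin n, ∑ c₀ : Fin n, ∑ b : Fin n, ∑ c : Fin n,
          ∑ a : Fin n, (|g a b c| + |g a b c₀| + |g a b₀ c| + |g a b₀ c₀|) := by
      simp only [Finset.mul_sum]
      exact Finset.sum_le_sum fun b₀ _ => Finset.sum_le_sum fun c₀ _ =>
        Finset.sum_le_sum fun b _ => Finset.sum_le_sum fun c _ => mid b₀ c₀ b c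
    refine t1.trans (le_of_eq ?_)
    simp only [Finset.sum_add_distrib, Finset.sum_const, Finset.card_univ, Fintype.card_fin,
      nsmul_eq_mul, ← Finset.mul_sum]
    rw [P2, P3]
    ring
  have s3 : ∑ b₀ : Fin n, ∑ c₀ : Fin n, ∑ c : Fin n, ∑ a : Fin n, |g a b₀ c - g a b₀ c₀| ≤
      2 * (n * G) := by
    have t1 : ∑ b₀ : Fin n, ∑ c₀ : Fin n, ∑ c : Fin n, ∑ a : Fin n, |g a b₀ c - g a b₀ c₀| ≤
        ∑ b₀ : Fin n, ∑ c₀ : Fin n, ∑ c : Fin n, ∑ a : Fin n, (|g a b₀ c| + |g a b₀ c₀|) :=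
      Finset.sum_le_sum fun b₀ _ => Finset.sum_le_sum fun c₀ _ =>
        Finset.sum_le_sum fun c _ => Finset.sum_le_sum fun a _ => abs_sub _ _
    refine t1.trans (le_of_eq ?_)
    simp only [Finset.sum_add_distrib, Finset.sum_const, Finset.card_univ, Fintype.card_fin,
      nsmul_eq_mul, ← Finset.mul_sum]
    rw [P2]
    ring
  have s0 : (n : ℝ) * (n * Y) ≤
      (∑ _b₀ : Fin n, ∑ c₀ : Fin n, ∑ a : Fin n, ∑ b : Fin n, |g a b c₀|) +
      (∑ b₀ : Fin n, ∑ c₀ : Fin n, ∑ b : Fin n, ∑ c : Fin n,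
        |y (1, b, c) - y (1, b, c₀) - y (1, b₀, c) + y (1, b₀, c₀)|) +
      ∑ b₀ : Fin n, ∑ c₀ : Fin n, ∑ c : Fin n, ∑ a : Fin n, |g a b₀ c - g a b₀ c₀| := by
    have e : (n : ℝ) * (n * Y) = ∑ _b₀ : Fin n, ∑ _c₀ : Fin n, Y := by
      simp only [Finset.sum_const, Finset.card_univ, Fintype.card_fin, nsmul_eq_mul]
    rw [e, ← Finset.sum_add_distrib, ← Finset.sum_add_distrib]
    refine Finset.sum_le_sum fun b₀ _ => ?_
    rw [← Finset.sum_add_distrib, ← Finset.sum_add_distrib]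
    exact Finset.sum_le_sum fun c₀ _ => key b₀ c₀
  have s4 : (n : ℝ) * (n * (n * Y)) ≤ (n : ℝ) * (n * (7 * G)) := by
    calc (n : ℝ) * (n * (n * Y)) ≤ (n : ℝ) * (_ + _ + _) := mul_le_mul_of_nonneg_left s0 hn'.le
      _ ≤ (n : ℝ) * (n * (7 * G)) := by
        rw [mul_add, mul_add, s1]
        have := mul_le_mul_of_nonneg_left s3 hn'.le
        linarith
  exact le_of_mul_le_mul_left (le_of_mul_le_mul_left s4 hn') hn'

end det

end Pool.Agent.Helper40.FL
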