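import Pool.Agent.Helper40.FL.D5

/-! Module D6 of project FL: the coarea inequality. -/

set_option autoImplicit false
open Classical Filter Topology

namespace Pool.Agent.Helper40.FL

variable {n : ℕ}

/-- the cancellation between two edges -/
private noncomputable def h7mu (p q : ℝ) : ℝ :=
  min (max p 0) (max (-q) 0) + min (max (-p) 0) (max q 0)

private theorem h7mu_nonneg (p q : ℝ) : 0 ≤ h7mu p q :=
  add_nonneg (le_min (le_max_right _ _) (le_max_right _ _))
    (le_min (le_max_right _ _) (le_max_right _ _))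

private theorem h7mu_symm (p q : ℝ) : h7mu p q = h7mu q p := by
  simp only [h7mu]
  rw [min_comm (max p 0), min_comm (max (-p) 0), add_comm]

/-- same sign -/
private theorem h7mu_pp {p q : ℝ} (hp : 0 ≤ p) (hq : 0 ≤ q) : h7mu p q = 0 := by
  simp only [h7mu]
  rw [max_eq_right (by linarith : -q ≤ 0), max_eq_right (by linarith : -p ≤ 0),
    min_eq_right (le_max_right _ _), min_eq_left (le_max_right _ _), add_zero]

private theorem h7mu_nn {p q : ℝ} (hp : p ≤ 0) (hq : q ≤ 0) : h7mu p q = 0 := by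
  simp only [h7mu]
  rw [max_eq_right hp, max_eq_right hq, min_eq_left (le_max_right _ _),
    min_eq_right (le_max_right _ _), add_zero]

private theorem h7mu_pn {p q : ℝ} (hp : 0 ≤ p) (hq : q ≤ 0) : h7mu p q = min p (-q) := by
  simp only [h7mu]
  rw [max_eq_left hp, max_eq_left (by linarith : 0 ≤ -q), max_eq_right (by linarith : -p ≤ 0),
    max_eq_right hq, min_self, add_zero]

private theorem h7mu_np {p q : ℝ} (hp : p ≤ 0) (hq : 0 ≤ q) : h7mu p q = min (-p) q := by
  rw [h7mu_symm, h7mu_pn hq hp, min_comm]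

private theorem h7_min_add {a b r : ℝ} (ha : 0 ≤ a) (hb : 0 ≤ b) (hr : 0 ≤ r) :
    min (a + b) r ≤ min a r + min b r := by
  rcases le_total a r with h1 | h1 <;> rcases le_total b r with h2 | h2
  · rw [min_eq_left h1, min_eq_left h2]; exact min_le_left _ _
  · rw [min_eq_left h1, min_eq_right h2]; exact (min_le_right _ _).trans (by linarith)
  · rw [min_eq_right h1, min_eq_left h2]; exact (min_le_right _ _).trans (by linarith)
  · rw [min_eq_right h1, min_eq_right h2]; exact (min_le_right _ _).trans (by linarith)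

/-- two nonnegative numbers and one nonpositive -/
private theorem h7_ppn {p q r : ℝ} (hp : 0 ≤ p) (hq : 0 ≤ q) (hr : r ≤ 0) :
    |p| + |q| + |r| - 2 * (min p (-r) + min q (-r)) ≤ |p + q + r| := by
  rw [abs_of_nonneg hp, abs_of_nonneg hq, abs_of_nonpos hr]
  have h1 := h7_min_add hp hq (by linarith : 0 ≤ -r)
  rcases le_total (p + q) (-r) with h2 | h2
  · rw [min_eq_left h2] at h1
    have h3 : |p + q + r| = -(p + q + r) := abs_of_nonpos (by linarith)
    rw [h3]; linarith
  · rw [min_eq_right h2] at h1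
    have h3 : |p + q + r| = p + q + r := abs_of_nonneg (by linarith)
    rw [h3]; linarith

private theorem h7_nnp {p q r : ℝ} (hp : p ≤ 0) (hq : q ≤ 0) (hr : 0 ≤ r) :
    |p| + |q| + |r| - 2 * (min (-p) r + min (-q) r) ≤ |p + q + r| := by
  have h := h7_ppn (p := -p) (q := -q) (r := -r) (by linarith) (by linarith) (by linarith)
  rw [neg_neg, abs_neg, abs_neg, abs_neg] at h
  have h2 : |-p + -q + -r| = |p + q + r| := by
    rw [← abs_neg]; congr 1; ring
  rwa [h2] at h

/-- (a) the pointwise inequality -/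
private theorem h7_point (p q r : ℝ) :
    |p| + |q| + |r| - 2 * (h7mu p q + h7mu q r + h7mu r p) ≤ |p + q + r| := by
  rcases le_total 0 p with hp | hp <;> rcases le_total 0 q with hq | hq <;>
    rcases le_total 0 r with hr | hr
  · rw [h7mu_pp hp hq, h7mu_pp hq hr, h7mu_pp hr hp, abs_of_nonneg hp, abs_of_nonneg hq,
      abs_of_nonneg hr, abs_of_nonneg (by linarith)]; linarith
  · rw [h7mu_pp hp hq, h7mu_pn hq hr, h7mu_np hr hp]
    have h := h7_ppn hp hq hr
    rw [min_comm (-r) p]; linarith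
  · rw [h7mu_pn hp hq, h7mu_np hq hr, h7mu_pp hr hp]
    have h := h7_ppn hp hr hq
    rw [show p + r + q = p + q + r by ring] at h
    rw [min_comm (-q) r]; linarith
  · rw [h7mu_pn hp hq, h7mu_nn hq hr, h7mu_np hr hp]
    have h := h7_nnp hq hr hp
    rw [show q + r + p = p + q + r by ring] at h
    rw [min_comm p (-q)]; linarith
  · rw [h7mu_np hp hq, h7mu_pp hq hr, h7mu_pn hr hp]
    have h := h7_ppn hq hr hp
    rw [show q + r + p = p + q + r by ring] at h
    rw [min_comm (-p) q]; linarith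
  · rw [h7mu_np hp hq, h7mu_pn hq hr, h7mu_nn hr hp]
    have h := h7_nnp hp hr hq
    rw [show p + r + q = p + q + r by ring] at h
    rw [min_comm q (-r)]; linarith
  · rw [h7mu_nn hp hq, h7mu_np hq hr, h7mu_pn hr hp]
    have h := h7_nnp hp hq hr
    rw [min_comm r (-p)]; linarith
  · rw [h7mu_nn hp hq, h7mu_nn hq hr, h7mu_nn hr hp, abs_of_nonpos hp, abs_of_nonpos hq,
      abs_of_nonpos hr, abs_of_nonpos (by linarith)]; linarith

/-- the coarea functional -/
private noncomputable def h7F (T : Finset (Tr n)) (z : Ed n → ℝ) : ℝ :=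
  ∑ e, (dg T e : ℝ) * |z e| - 2 * ∑ x ∈ T, ∑ i, h7mu (z (edge (i + 2) x)) (z (edge i x))

private theorem h7F_le (T : Finset (Tr n)) (z : Ed n → ℝ) : h7F T z ≤ ∑ x ∈ T, |tsum z x| := by
  rw [h7F, ← sum_edges T fun e => |z e|, Finset.mul_sum, ← Finset.sum_sub_distrib]
  refine Finset.sum_le_sum fun x _ => ?_
  have h := h7_point (z (edge 0 x)) (z (edge 1 x)) (z (edge 2 x))
  have h0 : (0 : Fin 3) + 2 = 2 := rfl
  have h1 : (1 : Fin 3) + 2 = 0 := rfl
  have h2 : (2 : Fin 3) + 2 = 1 := rfl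
  simp only [tsum, Fin.sum_univ_three, h0, h1, h2]
  linarith

private theorem h7_soft_abs {τ t : ℝ} (hτ : 0 < τ) (h : t ≠ 0 → τ ≤ |t|) :
    |t| = |soft τ t| + if t ≠ 0 then τ else 0 := by
  by_cases ht : t = 0
  · subst ht
    rw [soft_of_le (by simpa using hτ.le)]
    simp
  · rw [if_pos ht, abs_soft hτ.le, max_eq_left (by linarith [h ht])]
    ring

private theorem h7_soft_mu {τ p q : ℝ} (hτ : 0 < τ) (hp : p ≠ 0 → τ ≤ |p|)
    (hq : q ≠ 0 → τ ≤ |q|) : h7mu p q = h7mu (soft τ p) (soft τ q) +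
      τ * ((if 0 < p ∧ q < 0 then 1 else 0) + if p < 0 ∧ 0 < q then 1 else 0) := by
  have hsp : ∀ t : ℝ, (t ≠ 0 → τ ≤ |t|) → 0 < t → soft τ t = t - τ ∧ 0 ≤ t - τ := by
    intro t h ht
    have h1 := h ht.ne'
    rw [abs_of_pos ht] at h1
    exact ⟨soft_of_gt hτ.le h1, by linarith⟩
  have hsn : ∀ t : ℝ, (t ≠ 0 → τ ≤ |t|) → t < 0 → soft τ t = t + τ ∧ t + τ ≤ 0 := by
    intro t h ht
    have h1 := h ht.ne
    rw [abs_of_neg ht] at h1
    exact ⟨soft_of_lt hτ.le (by linarith), by linarith⟩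
  have hs0 : soft τ 0 = 0 := soft_of_le (by simpa using hτ.le)
  have hspn : ∀ t : ℝ, (t ≠ 0 → τ ≤ |t|) → 0 ≤ t → 0 ≤ soft τ t := by
    intro t h ht
    rcases ht.lt_or_eq with h1 | h1
    · rw [(hsp t h h1).1]; exact (hsp t h h1).2
    · rw [← h1, hs0]
  have hsnn : ∀ t : ℝ, (t ≠ 0 → τ ≤ |t|) → t ≤ 0 → soft τ t ≤ 0 := by
    intro t h ht
    rcases ht.lt_or_eq with h1 | h1
    · rw [(hsn t h h1).1]; exact (hsn t h h1).2
    · rw [h1, hs0]
  rcases lt_trichotomy p 0 with h1 | h1 | h1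
  · rcases lt_trichotomy q 0 with h2 | h2 | h2
    · rw [h7mu_nn h1.le h2.le, h7mu_nn (hsnn p hp h1.le) (hsnn q hq h2.le),
        if_neg (fun h => absurd h.1 (not_lt.2 h1.le)), if_neg (fun h => absurd h.2 (not_lt.2 h2.le))]
      ring
    · rw [h7mu_nn h1.le h2.le, h7mu_nn (hsnn p hp h1.le) (hsnn q hq h2.le),
        if_neg (fun h => absurd h.1 (not_lt.2 h1.le)), if_neg (fun h => absurd h.2 (not_lt.2 h2.le))]
      ring
    · obtain ⟨e1, e2⟩ := hsn p hp h1
      obtain ⟨e3, e4⟩ := hsp q hq h2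
      rw [if_neg (fun h => absurd h.1 (not_lt.2 h1.le)), if_pos ⟨h1, h2⟩, h7mu_np h1.le h2.le, e1,
        e3, h7mu_np e2 e4, show -(p + τ) = -p - τ by ring, min_sub_sub_right]
      ring
  · subst h1
    rcases le_total 0 q with h2 | h2
    · rw [h7mu_pp le_rfl h2, hs0, h7mu_pp le_rfl (hspn q hq h2),
        if_neg (fun h => absurd h.1 (lt_irrefl _)), if_neg (fun h => absurd h.1 (lt_irrefl _))]
      ring
    · rw [h7mu_nn le_rfl h2, hs0, h7mu_nn le_rfl (hsnn q hq h2),
        if_neg (fun h => absurd h.1 (lt_irrefl _)), if_neg (fun h => absurd h.1 (lt_irrefl _))]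
      ring
  · rcases lt_trichotomy q 0 with h2 | h2 | h2
    · obtain ⟨e1, e2⟩ := hsp p hp h1
      obtain ⟨e3, e4⟩ := hsn q hq h2
      rw [if_pos ⟨h1, h2⟩, if_neg (fun h => absurd h.1 (not_lt.2 h1.le)), h7mu_pn h1.le h2.le, e1,
        e3, h7mu_pn e2 e4, show -(q + τ) = -q - τ by ring, min_sub_sub_right]
      ring
    · rw [h7mu_pp h1.le h2.ge, h7mu_pp (hspn p hp h1.le) (hspn q hq h2.ge),
        if_neg (fun h => absurd h.2 (not_lt.2 h2.ge)), if_neg (fun h => absurd h.1 (not_lt.2 h1.le))]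
      ring
    · rw [h7mu_pp h1.le h2.le, h7mu_pp (hspn p hp h1.le) (hspn q hq h2.le),
        if_neg (fun h => absurd h.2 (not_lt.2 h2.le)), if_neg (fun h => absurd h.1 (not_lt.2 h1.le))]
      ring

private theorem h7_cnt_sum (T : Finset (Tr n)) (P N : Finset (Ed n)) :
    ∑ i, ∑ v, (cnt T i v (inn P i v) (out N i v) : ℝ) =
      ∑ x ∈ T, ∑ i, if edge (i + 2) x ∈ P ∧ edge i x ∈ N then (1 : ℝ) else 0 := by
  rw [Finset.sum_comm (s := T)]
  refine Finset.sum_congr rfl fun i _ => ?_
  have h1 : ∀ v : Fin n, (cnt T i v (inn P i v) (out N i v) : ℝ) =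
      ∑ x ∈ T, if x i = v ∧ (edge (i + 2) x ∈ P ∧ edge i x ∈ N) then (1 : ℝ) else 0 := by
    intro v
    rw [cnt, Finset.card_filter]
    push_cast
    refine Finset.sum_congr rfl fun x _ => ?_
    refine if_congr ?_ rfl rfl
    simp only [inn, out, edge, Finset.mem_filter, Finset.mem_univ, true_and, fin3_add]
    constructor
    · rintro ⟨rfl, h2, h3⟩; exact ⟨rfl, h2, h3⟩
    · rintro ⟨rfl, h2, h3⟩; exact ⟨rfl, h2, h3⟩
  rw [Finset.sum_congr rfl fun v _ => h1 v, Finset.sum_comm]
  refine Finset.sum_congr rfl fun x _ => ?_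
  rw [Finset.sum_eq_single (x i)]
  · simp
  · intro v _ hv
    rw [if_neg (fun h => hv h.1.symm)]
  · intro h; exact absurd (Finset.mem_univ _) h

/-- (b) induction on the support -/
private theorem h7_main {T : Finset (Tr n)} {D c C δ lam δ1 : ℝ} (hT : Nice T D c C (c / 16) δ lam)
    (hn : 0 < n) (hD : 0 < D) (hc : 0 < c) (hc' : c ≤ 1 / 4) (hC : 0 < C) (hδ : 0 < δ)
    (hlam : 0 ≤ lam) (hlam' : lam ≤ δ / 24) (hδ1 : 16 * C * δ1 ≤ c * δ ^ 2) (k : ℕ) :
    ∀ z : Ed n → ℝ, Med z →
    ((Finset.univ.filter fun e => z e ≠ 0).card : ℝ) ≤ δ1 * n ^ 2 →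
    (Finset.univ.filter fun e => z e ≠ 0).card = k →
    c / 2 * D * ∑ e, |z e| ≤ h7F T z := by
  induction k using Nat.strong_induction_on with
  | _ k ih =>
  intro z hm hS hk
  by_cases hne : (Finset.univ.filter fun e => z e ≠ 0).Nonempty
  swap
  · have hz : ∀ e, z e = 0 := by
      intro e
      by_contra h
      exact hne ⟨e, by simpa using h⟩
    have h1 : h7F T z = 0 := by
      simp only [h7F, hz, abs_zero, mul_zero, Finset.sum_const_zero, h7mu_pp le_rfl le_rfl,
        sub_zero]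
    rw [h1]
    simp only [hz, abs_zero, Finset.sum_const_zero, mul_zero, le_refl]
  obtain ⟨e0, he0, hmin⟩ := Finset.exists_min_image _ (fun e => |z e|) hne
  set τ : ℝ := |z e0| with hτ
  have he0' : z e0 ≠ 0 := by simpa using he0
  have hτ0 : 0 < τ := abs_pos.2 he0'
  have hmin' : ∀ e, z e ≠ 0 → τ ≤ |z e| := fun e he => hmin e (by simpa using he)
  set z' : Ed n → ℝ := fun e => soft τ (z e) with hz'
  set P : Finset (Ed n) := Finset.univ.filter fun e => 0 < z e with hP
  set N : Finset (Ed n) := Finset.univ.filter fun e => z e < 0 with hN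
  have hPN : P ∪ N = Finset.univ.filter fun e => z e ≠ 0 := by
    ext e
    simp only [hP, hN, Finset.mem_union, Finset.mem_filter, Finset.mem_univ, true_and]
    constructor
    · rintro (h | h)
      · exact h.ne'
      · exact h.ne
    · intro h
      rcases lt_or_gt_of_ne h with h | h
      · exact Or.inr h
      · exact Or.inl h
  have hdis : Disjoint P N := by
    rw [Finset.disjoint_left]
    intro e h1 h2
    simp only [hP, hN, Finset.mem_filter, Finset.mem_univ, true_and] at h1 h2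
    exact lt_asymm h1 h2
  have hmS : MedS P N := by
    intro i v
    have h := hm i v
    have e1 : ∀ w, w ∈ inn P i v ↔ 0 < z (i + 2, w, v) := by intro w; simp [inn, hP]
    have e2 : ∀ w, w ∈ out P i v ↔ 0 < z (i, v, w) := by intro w; simp [out, hP]
    have e3 : ∀ w, w ∈ inn N i v ↔ z (i + 2, w, v) < 0 := by intro w; simp [inn, hN]
    have e4 : ∀ w, w ∈ out N i v ↔ z (i, v, w) < 0 := by intro w; simp [out, hN]
    have f1 : inn P i v = Finset.univ.filter fun u : Fin n => 0 < z (i + 2, u, v) := by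
      ext w; rw [e1]; simp
    have f2 : out P i v = Finset.univ.filter fun w : Fin n => 0 < z (i, v, w) := by
      ext w; rw [e2]; simp
    have f3 : inn N i v = Finset.univ.filter fun u : Fin n => z (i + 2, u, v) < 0 := by
      ext w; rw [e3]; simp
    have f4 : out N i v = Finset.univ.filter fun w : Fin n => z (i, v, w) < 0 := by
      ext w; rw [e4]; simp
    rw [f1, f2, f3, f4]
    exact h
  have hlev := level hT hn hD hc hc' hC hδ hlam hlam' hδ1 hdis hmS (by rw [hPN]; exact hS)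
  -- the truncated function
  have hsub : (Finset.univ.filter fun e => z' e ≠ 0) ⊆ (Finset.univ.filter fun e => z e ≠ 0) := by
    intro e he
    simp only [Finset.mem_filter, Finset.mem_univ, true_and, hz'] at he ⊢
    intro h0
    apply he
    rw [h0]
    exact soft_of_le (by simpa using hτ0.le)
  have hssub : (Finset.univ.filter fun e => z' e ≠ 0) ⊂ (Finset.univ.filter fun e => z e ≠ 0) := by
    refine (Finset.ssubset_iff_of_subset hsub).2 ⟨e0, he0, ?_⟩
    simp only [Finset.mem_filter, Finset.mem_univ, true_and, not_not, hz']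
    exact soft_of_le le_rfl
  have hcard := Finset.card_lt_card hssub
  have hm' : Med z' := by
    intro i v
    have h := hm i v
    have hp : ∀ t : ℝ, 0 < soft τ t → 0 < t := fun t ht => lt_trans hτ0 ((soft_pos_iff hτ0.le).1 ht)
    have hn' : ∀ t : ℝ, soft τ t < 0 → t < 0 := fun t ht => by
      have := (soft_neg_iff hτ0.le).1 ht; linarith
    have g1 : (Finset.univ.filter fun u : Fin n => 0 < z' (i + 2, u, v)).card ≤
        (Finset.univ.filter fun u : Fin n => 0 < z (i + 2, u, v)).card :=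
      Finset.card_le_card (Finset.monotone_filter_right _ fun u _ hu => hp _ hu)
    have g2 : (Finset.univ.filter fun w : Fin n => z' (i, v, w) < 0).card ≤
        (Finset.univ.filter fun w : Fin n => z (i, v, w) < 0).card :=
      Finset.card_le_card (Finset.monotone_filter_right _ fun u _ hu => hn' _ hu)
    have g3 : (Finset.univ.filter fun u : Fin n => z' (i + 2, u, v) < 0).card ≤
        (Finset.univ.filter fun u : Fin n => z (i + 2, u, v) < 0).card :=
      Finset.card_le_card (Finset.monotone_filter_right _ fun u _ hu => hn' _ hu)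
    have g4 : (Finset.univ.filter fun w : Fin n => 0 < z' (i, v, w)).card ≤
        (Finset.univ.filter fun w : Fin n => 0 < z (i, v, w)).card :=
      Finset.card_le_card (Finset.monotone_filter_right _ fun u _ hu => hp _ hu)
    omega
  have hih := ih _ (by omega) z' hm'
    (le_trans (by exact_mod_cast hcard.le) hS) rfl
  -- the norm
  have hnorm : ∑ e, |z e| = ∑ e, |z' e| + τ * (P ∪ N).card := by
    rw [hPN, Finset.card_filter]
    push_cast
    rw [Finset.mul_sum, ← Finset.sum_add_distrib]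
    refine Finset.sum_congr rfl fun e _ => ?_
    rw [h7_soft_abs hτ0 (hmin' e)]
    congr 1
    split_ifs <;> simp
  -- the functional
  have hF : h7F T z = h7F T z' + τ * (∑ e ∈ P ∪ N, (dg T e : ℝ) -
      2 * ∑ i, ∑ v, ((cnt T i v (inn P i v) (out N i v) : ℝ) +
        cnt T i v (inn N i v) (out P i v))) := by
    have e1 : ∑ e, (dg T e : ℝ) * |z e| = ∑ e, (dg T e : ℝ) * |z' e| +
        τ * ∑ e ∈ P ∪ N, (dg T e : ℝ) := by
      rw [hPN, Finset.sum_filter, Finset.mul_sum, ← Finset.sum_add_distrib]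
      refine Finset.sum_congr rfl fun e _ => ?_
      rw [h7_soft_abs hτ0 (hmin' e), mul_add]
      congr 1
      split_ifs <;> ring
    have e2 : ∑ x ∈ T, ∑ i, h7mu (z (edge (i + 2) x)) (z (edge i x)) =
        ∑ x ∈ T, ∑ i, h7mu (z' (edge (i + 2) x)) (z' (edge i x)) +
        τ * ∑ i, ∑ v, ((cnt T i v (inn P i v) (out N i v) : ℝ) +
          cnt T i v (inn N i v) (out P i v)) := by
      have e3 : ∑ i, ∑ v, ((cnt T i v (inn P i v) (out N i v) : ℝ) +
          cnt T i v (inn N i v) (out P i v)) = ∑ x ∈ T, ∑ i,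
          ((if edge (i + 2) x ∈ P ∧ edge i x ∈ N then (1 : ℝ) else 0) +
            if edge (i + 2) x ∈ N ∧ edge i x ∈ P then (1 : ℝ) else 0) := by
        simp only [Finset.sum_add_distrib]
        rw [h7_cnt_sum, h7_cnt_sum]
      rw [e3, Finset.mul_sum, ← Finset.sum_add_distrib]
      refine Finset.sum_congr rfl fun x _ => ?_
      rw [Finset.mul_sum, ← Finset.sum_add_distrib]
      refine Finset.sum_congr rfl fun i _ => ?_
      rw [h7_soft_mu hτ0 (hmin' _) (hmin' _)]
      simp only [hP, hN, Finset.mem_filter, Finset.mem_univ, true_and, hz']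
    rw [h7F, h7F, e1, e2]
    ring
  rw [hF, hnorm]
  have h3 := mul_le_mul_of_nonneg_left hlev hτ0.le
  linarith

/-- D6 -/
theorem coarea {T : Finset (Tr n)} {D c C δ lam δ1 : ℝ} (hT : Nice T D c C (c / 16) δ lam)
    (hn : 0 < n) (hD : 0 < D) (hc : 0 < c) (hc' : c ≤ 1 / 4) (hC : 0 < C) (hδ : 0 < δ)
    (hlam : 0 ≤ lam) (hlam' : lam ≤ δ / 24) (hδ1 : 16 * C * δ1 ≤ c * δ ^ 2)
    {z : Ed n → ℝ} (hm : Med z)
    (hS : ((Finset.univ.filter fun e => z e ≠ 0).card : ℝ) ≤ δ1 * n ^ 2) :
    c / 2 * D * ∑ e, |z e| ≤ ∑ x ∈ T, |tsum z x| :=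
  (h7_main hT hn hD hc hc' hC hδ hlam hlam' hδ1 _ z hm hS rfl).trans (h7F_le T z)

end Pool.Agent.Helper40.FL

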