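import Pool.Agent.Helper40.FL.Basic

/-! Project FL, module D7: the law of large numbers for real edge functions. -/

set_option autoImplicit false
open Classical Filter Topology

namespace Pool.Agent.Helper40.FL

section det

variable {n : ℕ}

theorem d7_natAbs_eq (M : ℕ) (k : ℤ) (hk : |k| ≤ M) :
    ((|k| : ℤ) : ℝ) = ∑ j ∈ Finset.Icc 1 M, if (j : ℤ) ≤ |k| then (1 : ℝ) else 0 := by
  obtain ⟨a, ha⟩ : ∃ a : ℕ, |k| = a := ⟨k.natAbs, (Int.natCast_natAbs k).symm⟩
  rw [ha] at hk ⊢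
  have haM : a ≤ M := by exact_mod_cast hk
  rw [← Finset.sum_filter, Finset.sum_const, nsmul_eq_mul, mul_one]
  have h1 : (Finset.Icc 1 M).filter (fun j : ℕ => (j : ℤ) ≤ (a : ℤ)) = Finset.Icc 1 a := by
    ext j
    simp only [Finset.mem_filter, Finset.mem_Icc]
    omega
  rw [h1]
  simp

theorem d7_sum (S : Finset (Tr n)) (k : Tr n → ℤ) (M : ℕ) (hk : ∀ x, |k x| ≤ M) :
    ∑ x ∈ S, ((|k x| : ℤ) : ℝ) =
      ∑ j ∈ Finset.Icc 1 M, ((S.filter fun x => (j : ℤ) ≤ |k x|).card : ℝ) := by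
  rw [Finset.sum_congr rfl fun x _ => d7_natAbs_eq M (k x) (hk x), Finset.sum_comm]
  refine Finset.sum_congr rfl fun j _ => ?_
  rw [← Finset.sum_filter, Finset.sum_const, nsmul_eq_mul, mul_one]

/-- D7 -/
theorem bulk_lower {T : Finset (Tr n)} {p lam h B : ℝ} {m : ℕ} (hB : Bulk T p m lam) (hp : 0 ≤ p)
    (hh : 0 < h) {y : Ed n → ℝ} (hy : ∀ e, |y e| ≤ B) (hm : B / h + 1 ≤ m) :
    p / 2 * (∑ x, |tsum y x| - 3 / 2 * h * (n : ℝ) ^ 3 - 3 * m * lam * h * (n : ℝ) ^ 3) -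
      3 / 2 * h * T.card ≤ ∑ x ∈ T, |tsum y x| := by
  let f : Ed n → ℤ := fun e => round (y e / h)
  have hf1 : ∀ e, |y e - h * f e| ≤ h / 2 := by
    intro e
    have h1 := abs_sub_round (y e / h)
    have h2 : y e - h * f e = h * (y e / h - f e) := by
      rw [mul_sub, mul_div_cancel₀ _ hh.ne']
    rw [h2, abs_mul, abs_of_pos hh]
    have := mul_le_mul_of_nonneg_left h1 hh.le
    linarith
  have hf2 : ∀ e, |f e| ≤ m := by
    intro e
    have h1 := hf1 e
    have h2 : |(f e : ℝ)| * h ≤ B + h / 2 := by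
      have h3 : |h * (f e : ℝ)| ≤ |y e| + |y e - h * f e| := by
        have := abs_sub_abs_le_abs_sub (h * (f e : ℝ)) (y e)
        rw [abs_sub_comm] at this
        linarith
      rw [abs_mul, abs_of_pos hh, mul_comm] at h3
      have := hy e
      linarith
    have h3 : |(f e : ℝ)| < m := by
      have h4 : (B / h + 1) * h ≤ m * h := mul_le_mul_of_nonneg_right hm hh.le
      rw [add_mul, div_mul_cancel₀ _ hh.ne'] at h4
      have h5 : |(f e : ℝ)| * h < m * h := by linarith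
      exact lt_of_mul_lt_mul_right h5 hh.le
    have h4 : ((|f e| : ℤ) : ℝ) < ((m : ℤ) : ℝ) := by
      push_cast
      exact h3
    exact_mod_cast h4.le
  let k : Tr n → ℤ := fun x => ∑ i, f (edge i x)
  have hk : ∀ x, |k x| ≤ ((3 * m : ℕ) : ℤ) := by
    intro x
    have h1 : |k x| ≤ ∑ i, |f (edge i x)| := Finset.abs_sum_le_sum_abs _ _
    have h2 : ∑ i, |f (edge i x)| ≤ ∑ _i : Fin 3, (m : ℤ) := Finset.sum_le_sum fun i _ => hf2 _
    rw [Finset.sum_const, Finset.card_univ, Fintype.card_fin, nsmul_eq_mul] at h2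
    push_cast at h2 ⊢
    linarith
  have hyk : ∀ x, |tsum y x - h * k x| ≤ 3 / 2 * h := by
    intro x
    have h1 : tsum y x - h * k x = ∑ i, (y (edge i x) - h * f (edge i x)) := by
      simp only [tsum, k, Int.cast_sum, Finset.mul_sum, Finset.sum_sub_distrib]
    rw [h1]
    refine (Finset.abs_sum_le_sum_abs _ _).trans ?_
    refine (Finset.sum_le_sum fun i _ => hf1 (edge i x)).trans ?_
    rw [Finset.sum_const, Finset.card_univ, Fintype.card_fin, nsmul_eq_mul]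
    push_cast
    linarith
  have hup : ∀ x, |tsum y x| ≤ h * ((|k x| : ℤ) : ℝ) + 3 / 2 * h := by
    intro x
    have h1 := hyk x
    have h2 := abs_sub_abs_le_abs_sub (tsum y x) (h * k x)
    rw [abs_mul, abs_of_pos hh] at h2
    push_cast
    linarith
  have hlo : ∀ x, h * ((|k x| : ℤ) : ℝ) - 3 / 2 * h ≤ |tsum y x| := by
    intro x
    have h1 := hyk x
    have h2 := abs_sub_abs_le_abs_sub (h * (k x : ℝ)) (tsum y x)
    rw [abs_mul, abs_of_pos hh, abs_sub_comm] at h2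
    push_cast
    linarith
  -- sums over `T` and over all triples
  have hT : h * ∑ x ∈ T, ((|k x| : ℤ) : ℝ) - 3 / 2 * h * T.card ≤ ∑ x ∈ T, |tsum y x| := by
    have h1 := Finset.sum_le_sum fun x (_ : x ∈ T) => hlo x
    rw [Finset.sum_sub_distrib, ← Finset.mul_sum, Finset.sum_const, nsmul_eq_mul] at h1
    linarith
  have hU : ∑ x, |tsum y x| ≤ h * ∑ x, ((|k x| : ℤ) : ℝ) + 3 / 2 * h * (n : ℝ) ^ 3 := by
    have h1 := Finset.sum_le_sum fun x (_ : x ∈ (Finset.univ : Finset (Tr n))) => hup x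
    rw [Finset.sum_add_distrib, ← Finset.mul_sum, Finset.sum_const, nsmul_eq_mul,
      Finset.card_univ, card_Tr] at h1
    push_cast at h1 ⊢
    linarith
  have hmain : p / 2 * (∑ x, ((|k x| : ℤ) : ℝ) - 3 * m * lam * (n : ℝ) ^ 3) ≤
      ∑ x ∈ T, ((|k x| : ℤ) : ℝ) := by
    rw [d7_sum T k (3 * m) hk, d7_sum Finset.univ k (3 * m) hk]
    have h1 : ∀ j ∈ Finset.Icc 1 (3 * m),
        p / 2 * (((Finset.univ.filter fun x : Tr n => (j : ℤ) ≤ |k x|).card : ℝ) -
          lam * (n : ℝ) ^ 3) ≤ ((T.filter fun x : Tr n => (j : ℤ) ≤ |k x|).card : ℝ) := by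
      intro j hj
      exact hB f hf2 j (Finset.mem_Icc.1 hj).1
    have h2 := Finset.sum_le_sum h1
    rw [← Finset.mul_sum, Finset.sum_sub_distrib, Finset.sum_const, Nat.card_Icc,
      Nat.add_sub_cancel, nsmul_eq_mul] at h2
    push_cast at h2
    calc p / 2 * (∑ j ∈ Finset.Icc 1 (3 * m),
            ((Finset.univ.filter fun x : Tr n => (j : ℤ) ≤ |k x|).card : ℝ) -
          3 * m * lam * (n : ℝ) ^ 3)
        = p / 2 * (∑ j ∈ Finset.Icc 1 (3 * m),
            ((Finset.univ.filter fun x : Tr n => (j : ℤ) ≤ |k x|).card : ℝ) -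
          3 * m * (lam * (n : ℝ) ^ 3)) := by ring
      _ ≤ _ := h2
  have h3 := mul_le_mul_of_nonneg_left hmain hh.le
  have h4 : p / 2 * (∑ x, |tsum y x| - 3 / 2 * h * (n : ℝ) ^ 3 -
      3 * m * lam * h * (n : ℝ) ^ 3) ≤
      p / 2 * (h * ∑ x, ((|k x| : ℤ) : ℝ) - 3 * m * lam * h * (n : ℝ) ^ 3) := by
    refine mul_le_mul_of_nonneg_left ?_ (by linarith)
    linarith
  have h5 : h * (p / 2 * (∑ x, ((|k x| : ℤ) : ℝ) - 3 * m * lam * (n : ℝ) ^ 3)) =
      p / 2 * (h * ∑ x, ((|k x| : ℤ) : ℝ) - 3 * m * lam * h * (n : ℝ) ^ 3) := by ring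
  rw [h5] at h3
  linarith

end det

end Pool.Agent.Helper40.FL
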