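import Pool.Agent.Helper40.FL.D1
import Pool.Agent.Helper40.FL.D2
import Pool.Agent.Helper40.FL.D4
import Pool.Agent.Helper40.FL.D6
import Pool.Agent.Helper40.FL.D7

/-!
Project FL, module D8: coercivity of `y ↦ ∑ x ∈ T, |tsum y x|` on optimal edge functions.
-/

set_option autoImplicit false
open Classical Filter Topology

namespace Pool.Agent.Helper40.FL

section d8

variable {n : ℕ}

theorem d8_soft_ne {τ : ℝ} (h : 0 ≤ τ) (t : ℝ) : soft τ t ≠ 0 ↔ τ < |t| := by
  rw [← abs_pos, abs_soft h]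
  constructor
  · intro h1
    rcases lt_max_iff.1 h1 with h2 | h2
    · linarith
    · exact absurd h2 (lt_irrefl _)
  · intro h1
    exact lt_max_of_lt_left (by linarith)

/-- Markov -/
theorem d8_card (y : Ed n → ℝ) {τ : ℝ} (hτ : 0 ≤ τ) :
    τ * ((Finset.univ.filter fun e => τ < |y e|).card : ℝ) ≤ ∑ e, |y e| := by
  calc τ * ((Finset.univ.filter fun e => τ < |y e|).card : ℝ)
      = ∑ e ∈ Finset.univ.filter (fun e => τ < |y e|), τ := by
        rw [Finset.sum_const, nsmul_eq_mul, mul_comm]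
    _ ≤ ∑ e ∈ Finset.univ.filter (fun e => τ < |y e|), |y e| := by
        refine Finset.sum_le_sum fun e he => ?_
        exact (Finset.mem_filter.1 he).2.le
    _ ≤ ∑ e, |y e| :=
        Finset.sum_le_sum_of_subset_of_nonneg (Finset.filter_subset _ _)
          fun e _ _ => abs_nonneg _

theorem d8_med {y : Ed n → ℝ} (h : Med y) {τ : ℝ} (hτ : 0 ≤ τ) :
    Med (fun e => soft τ (y e)) := by
  intro i v
  obtain ⟨h1, h2⟩ := h i v
  have hp : ∀ t : ℝ, 0 < soft τ t → 0 < t := fun t ht =>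
    lt_of_le_of_lt hτ ((soft_pos_iff hτ).1 ht)
  have hn : ∀ t : ℝ, soft τ t < 0 → t < 0 := fun t ht =>
    lt_of_lt_of_le ((soft_neg_iff hτ).1 ht) (by linarith)
  constructor
  · refine le_trans (add_le_add (Finset.card_le_card ?_) (Finset.card_le_card ?_)) h1
    · intro u hu
      simp only [Finset.mem_filter, Finset.mem_univ, true_and] at hu ⊢
      exact hp _ hu
    · intro u hu
      simp only [Finset.mem_filter, Finset.mem_univ, true_and] at hu ⊢
      exact hn _ hu
  · refine le_trans (add_le_add (Finset.card_le_card ?_) (Finset.card_le_card ?_)) h2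
    · intro u hu
      simp only [Finset.mem_filter, Finset.mem_univ, true_and] at hu ⊢
      exact hn _ hu
    · intro u hu
      simp only [Finset.mem_filter, Finset.mem_univ, true_and] at hu ⊢
      exact hp _ hu

/-- the truncated part costs little -/
theorem d8_tail {T : Finset (Tr n)} {K : ℝ} (hT : ∀ e, (dg T e : ℝ) ≤ K) (y : Ed n → ℝ) {τ : ℝ}
    (hτ : 0 ≤ τ) :
    ∑ x ∈ T, |tsum (fun e => soft τ (y e)) x| -
      3 * τ * (K * ((Finset.univ.filter fun e => τ < |y e|).card : ℝ)) ≤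
        ∑ x ∈ T, |tsum y x| := by
  have h1 : ∀ x, |tsum (fun e => soft τ (y e)) x| ≤ |tsum y x| +
      3 * τ * ∑ i, (if τ < |y (edge i x)| then (1 : ℝ) else 0) := by
    intro x
    by_cases hx : ∀ i, ¬ τ < |y (edge i x)|
    · have h2 : tsum (fun e => soft τ (y e)) x = 0 := by
        rw [tsum]
        refine Finset.sum_eq_zero fun i _ => ?_
        exact soft_of_le (not_lt.1 (hx i))
      have h3 : ∑ i, (if τ < |y (edge i x)| then (1 : ℝ) else 0) = 0 :=
        Finset.sum_eq_zero fun i _ => if_neg (hx i)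
      rw [h2, h3, abs_zero, mul_zero, add_zero]
      exact abs_nonneg _
    · push Not at hx
      obtain ⟨i0, hi0⟩ := hx
      have h3 : (1 : ℝ) ≤ ∑ i, (if τ < |y (edge i x)| then (1 : ℝ) else 0) := by
        have := Finset.single_le_sum (f := fun i => if τ < |y (edge i x)| then (1 : ℝ) else 0)
          (s := Finset.univ) (fun i _ => by split_ifs <;> norm_num) (Finset.mem_univ i0)
        rwa [if_pos hi0] at this
      have h4 : tsum (fun e => soft τ (y e)) x =
          tsum y x - tsum (fun e => clip τ (y e)) x := by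
        rw [← tsum_sub]
        rfl
      have h5 : |tsum (fun e => clip τ (y e)) x| ≤ 3 * τ := by
        rw [tsum]
        refine (Finset.abs_sum_le_sum_abs _ _).trans ?_
        refine (Finset.sum_le_sum fun i _ => abs_clip_le hτ (y (edge i x))).trans ?_
        simp
      rw [h4]
      have h6 := abs_sub (tsum y x) (tsum (fun e => clip τ (y e)) x)
      have h7 : 3 * τ * 1 ≤ 3 * τ * ∑ i, (if τ < |y (edge i x)| then (1 : ℝ) else 0) :=
        mul_le_mul_of_nonneg_left h3 (by linarith)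
      linarith
  have h2 : ∑ x ∈ T, ∑ i, (if τ < |y (edge i x)| then (1 : ℝ) else 0) ≤
      K * ((Finset.univ.filter fun e => τ < |y e|).card : ℝ) := by
    rw [sum_edges T fun e => if τ < |y e| then (1 : ℝ) else 0]
    calc ∑ e, (dg T e : ℝ) * (if τ < |y e| then (1 : ℝ) else 0)
        ≤ ∑ e, K * (if τ < |y e| then (1 : ℝ) else 0) := by
          refine Finset.sum_le_sum fun e _ => mul_le_mul_of_nonneg_right (hT e) ?_
          split_ifs <;> norm_num
      _ = K * ((Finset.univ.filter fun e => τ < |y e|).card : ℝ) := by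
          rw [← Finset.mul_sum, Finset.sum_ite, Finset.sum_const_zero, add_zero,
            Finset.sum_const, nsmul_eq_mul, mul_one]
  have h3 := Finset.sum_le_sum fun x (_ : x ∈ T) => h1 x
  rw [Finset.sum_add_distrib, ← Finset.mul_sum] at h3
  have h4 := mul_le_mul_of_nonneg_left h2 (show 0 ≤ 3 * τ by linarith)
  linarith

theorem d8_step (y : Ed n → ℝ) {τ : ℝ} (hτ : 0 ≤ τ) :
    ∑ e, |soft (2 * τ) (y e)| + τ * ((Finset.univ.filter fun e => 2 * τ < |y e|).card : ℝ) ≤
      ∑ e, |soft τ (y e)| := by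
  have h1 : τ * ((Finset.univ.filter fun e => 2 * τ < |y e|).card : ℝ) =
      ∑ e, (if 2 * τ < |y e| then τ else 0) := by
    rw [Finset.sum_ite, Finset.sum_const_zero, add_zero, Finset.sum_const, nsmul_eq_mul, mul_comm]
  rw [h1, ← Finset.sum_add_distrib]
  refine Finset.sum_le_sum fun e _ => ?_
  rw [abs_soft hτ, abs_soft (by linarith : 0 ≤ 2 * τ)]
  split_ifs with h
  · rw [max_eq_left (by linarith), max_eq_left (by linarith)]
    linarith
  · rw [max_eq_right (by linarith)]
    rw [zero_add]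
    exact le_max_right _ _

theorem d8_soft_le (y : Ed n → ℝ) {τ : ℝ} (hτ : 0 ≤ τ) :
    ∑ e, |soft τ (y e)| ≤ ∑ e, |y e| := by
  refine Finset.sum_le_sum fun e _ => ?_
  have := abs_clip_add hτ (y e)
  have := abs_nonneg (clip τ (y e))
  linarith

/-- iteration of `d8_step` -/
theorem d8_iter {a : ℕ → ℝ} {r : ℝ} (hr : 0 < r) {J : ℕ}
    (h : ∀ j < J, a (j + 1) * r ≤ a j) : a J * r ^ J ≤ a 0 := by
  induction J with
  | zero => simp
  | succ J ih =>
    have h1 := ih fun j hj => h j (by omega)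
    have h2 := h J (by omega)
    have h3 := mul_le_mul_of_nonneg_right h2 (pow_pos hr J).le
    calc a (J + 1) * r ^ (J + 1) = a (J + 1) * r * r ^ J := by ring
      _ ≤ a J * r ^ J := h3
      _ ≤ a 0 := h1

/-- D8 -/
theorem coercivity {c C δ : ℝ} (hc : 0 < c) (hc' : c ≤ 1 / 4) (hC : 1 ≤ C) (hδ : 0 < δ) :
    ∃ lam > 0, ∃ m : ℕ, ∃ lamB > 0, ∃ c5 > 0, ∀ n : ℕ, 0 < n → ∀ (T : Finset (Tr n)) (p : ℝ),
      0 < p → Nice T (p * n) c C (c / 16) δ lam → Bulk T p m lamB →
      ∀ y : Ed n → ℝ, Opt y → c5 * (p * n) * ∑ e, |y e| ≤ ∑ x ∈ T, |tsum y x| := by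
  -- constants
  have hC0 : 0 < C := by linarith
  obtain ⟨δ1, hδ1⟩ : ∃ δ1, δ1 = c * δ ^ 2 / (16 * C) := ⟨_, rfl⟩
  have hδ1pos : 0 < δ1 := by rw [hδ1]; positivity
  have hδ1' : 16 * C * δ1 ≤ c * δ ^ 2 := by
    rw [hδ1, mul_div_cancel₀ _ (by positivity)]
  obtain ⟨K3, hK3⟩ : ∃ K3, K3 = 12 * C / c := ⟨_, rfl⟩
  have hK3pos : 0 < K3 := by rw [hK3]; positivity
  obtain ⟨c4, hc4⟩ : ∃ c4, c4 = 1 / (100 * C) := ⟨_, rfl⟩
  have hc4pos : 0 < c4 := by rw [hc4]; positivity
  have hc4C : C * c4 = 1 / 100 := by rw [hc4]; field_simp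
  have hc4le : c4 ≤ 1 / 100 := by
    have h1 : 1 * c4 ≤ C * c4 := mul_le_mul_of_nonneg_right hC hc4pos.le
    linarith
  obtain ⟨r, hr⟩ : ∃ r, r = 1 + 1 / (2 * K3) := ⟨_, rfl⟩
  have hr1 : 1 < r := by
    rw [hr]
    have : 0 < 1 / (2 * K3) := by positivity
    linarith
  obtain ⟨J, hJ⟩ : ∃ J : ℕ, 1 / c4 < r ^ J := pow_unbounded_of_one_lt _ hr1
  have hJ' : 1 < c4 * r ^ J := by
    rw [div_lt_iff₀ hc4pos] at hJ
    linarith
  -- `η`, `m`, `lamB`
  obtain ⟨η, hη⟩ : ∃ η, η = δ1 / (112 * (3 / 4 + 3 / 2 * C)) := ⟨_, rfl⟩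
  have hηpos : 0 < η := by rw [hη]; positivity
  have hη' : η / δ1 * (3 / 4 + 3 / 2 * C) = 1 / 112 := by
    rw [hη]; field_simp
  obtain ⟨m, hm⟩ : ∃ m : ℕ, 2 ^ J / η + 1 ≤ (m : ℝ) := exists_nat_ge _
  have hm0 : 0 < (m : ℝ) := by
    have : 0 < (2 : ℝ) ^ J / η := by positivity
    linarith
  obtain ⟨lamB, hlamB⟩ : ∃ lamB, lamB = δ1 / (168 * m * η) := ⟨_, rfl⟩
  have hlamBpos : 0 < lamB := by rw [hlamB]; positivity
  have hlamB' : η / δ1 * (3 / 2 * m * lamB) = 1 / 112 := by
    rw [hlamB]; field_simp; norm_num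
  refine ⟨δ / 24, by positivity, m, lamB, hlamBpos, min (c * c4 / 4) (1 / 28),
    lt_min (by positivity) (by norm_num), ?_⟩
  intro n hn T p hp hN hB y hO
  have hn' : (0 : ℝ) < n := by exact_mod_cast hn
  obtain ⟨D, hD⟩ : ∃ D, D = p * n := ⟨_, rfl⟩
  rw [← hD] at hN ⊢
  have hDpos : 0 < D := by rw [hD]; positivity
  obtain ⟨Y, hY⟩ : ∃ Y, Y = ∑ e, |y e| := ⟨_, rfl⟩
  rw [← hY]
  have hYnn : 0 ≤ Y := by rw [hY]; exact Finset.sum_nonneg fun e _ => abs_nonneg _
  rcases hYnn.eq_or_lt with hY0 | hYpos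
  · rw [← hY0, mul_zero]
    exact Finset.sum_nonneg fun e _ => abs_nonneg _
  obtain ⟨t1, ht1⟩ : ∃ t1, t1 = Y / (δ1 * n ^ 2) := ⟨_, rfl⟩
  have ht1pos : 0 < t1 := by rw [ht1]; positivity
  have ht1' : t1 * (δ1 * n ^ 2) = Y := by rw [ht1]; field_simp
  -- thresholds
  obtain ⟨τ, hτ⟩ : ∃ τ : ℕ → ℝ, τ = fun j => 2 ^ j * t1 := ⟨_, rfl⟩
  have hτpos : ∀ j, 0 < τ j := by intro j; rw [hτ]; positivity
  have hτge : ∀ j, t1 ≤ τ j := by
    intro j
    rw [hτ]
    have : (1 : ℝ) ≤ 2 ^ j := one_le_pow₀ (by norm_num)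
    nlinarith
  have hτsucc : ∀ j, τ (j + 1) = 2 * τ j := by intro j; simp only [hτ, pow_succ]; ring
  obtain ⟨F, hF⟩ : ∃ F : ℕ → ℝ, F = fun j => ∑ e, |soft (τ j) (y e)| := ⟨_, rfl⟩
  obtain ⟨s, hs⟩ : ∃ s : ℕ → ℝ, s = fun j =>
    ((Finset.univ.filter fun e => τ j < |y e|).card : ℝ) := ⟨_, rfl⟩
  have hs0 : ∀ j, 0 ≤ s j := by intro j; rw [hs]; positivity
  have hsle : ∀ j, s j ≤ δ1 * n ^ 2 := by
    intro j
    have h1 := d8_card y (hτpos j).le
    rw [← hY, ← ht1'] at h1
    have h2 : t1 * s j ≤ t1 * (δ1 * n ^ 2) := by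
      refine le_trans (mul_le_mul_of_nonneg_right (hτge j) (hs0 j)) ?_
      rw [hs]
      exact h1
    exact le_of_mul_le_mul_left h2 ht1pos
  -- the coarea bound
  have hco : ∀ j, c / 2 * D * F j - 3 * τ j * (C * D * s j) ≤ ∑ x ∈ T, |tsum y x| := by
    intro j
    have h1 := coarea hN hn hDpos hc hc' hC0 hδ (by positivity) le_rfl hδ1'
      (d8_med hO.med (hτpos j).le) (by
        refine le_trans (le_of_eq ?_) (hsle j)
        rw [hs]
        simp only [d8_soft_ne (hτpos j).le])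
    have h2 := d8_tail hN.hi y (hτpos j).le
    have h3 : F j = ∑ e, |soft (τ j) (y e)| := by rw [hF]
    have h4 : s j = ((Finset.univ.filter fun e => τ j < |y e|).card : ℝ) := by rw [hs]
    rw [h3, h4]
    linarith
  have hstep : ∀ j, F (j + 1) + τ j * s (j + 1) ≤ F j := by
    intro j
    have h1 := d8_step y (hτpos j).le
    rw [← hτsucc j] at h1
    rw [hF, hs]
    exact h1
  have hFle : ∀ j, F j ≤ Y := by
    intro j
    rw [hF, hY]
    exact d8_soft_le y (hτpos j).le
  have hF0 : ∀ j, 0 ≤ F j := by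
    intro j
    rw [hF]
    exact Finset.sum_nonneg fun e _ => abs_nonneg _
  have hmin1 : min (c * c4 / 4) (1 / 28) ≤ c * c4 / 4 := min_le_left _ _
  have hmin2 : min (c * c4 / 4) (1 / 28) ≤ 1 / 28 := min_le_right _ _
  by_cases hcase : ∃ j, c4 * Y ≤ F j ∧ K3 * (τ j * s j) ≤ F j
  · -- case (i)
    obtain ⟨j, h1, h2⟩ := hcase
    have h3 : 3 * τ j * (C * D * s j) ≤ c / 4 * D * F j := by
      have h4 : C * D * 3 * (K3 * (τ j * s j)) ≤ C * D * 3 * F j :=
        mul_le_mul_of_nonneg_left h2 (by positivity)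
      have h5 : K3 * c = 12 * C := by rw [hK3]; field_simp
      have h6 : 3 * τ j * (C * D * s j) * (12 * C) = C * D * 3 * (K3 * (τ j * s j)) * c := by
        rw [← h5]; ring
      have h7 : 3 * τ j * (C * D * s j) * (12 * C) ≤ c / 4 * D * F j * (12 * C) := by
        rw [h6]
        refine (mul_le_mul_of_nonneg_right h4 hc.le).trans (le_of_eq ?_)
        ring
      exact le_of_mul_le_mul_right h7 (by positivity)
    have h8 := hco j
    have h9 : c * c4 / 4 * D * Y ≤ c / 4 * D * F j := by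
      have := mul_le_mul_of_nonneg_left h1 (show 0 ≤ c / 4 * D by positivity)
      linarith
    have h10 : min (c * c4 / 4) (1 / 28) * D * Y ≤ c * c4 / 4 * D * Y :=
      mul_le_mul_of_nonneg_right (mul_le_mul_of_nonneg_right hmin1 hDpos.le) hYnn
    linarith
  · push Not at hcase
    -- some level with small `F`
    obtain ⟨j, hjJ, hj⟩ : ∃ j ≤ J, F j ≤ c4 * Y := by
      by_contra hcon
      push Not at hcon
      have h1 : ∀ j < J, F (j + 1) * r ≤ F j := by
        intro j hj
        have h2 := hcase (j + 1) (hcon (j + 1) (by omega)).le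
        have h3 := hstep j
        have h4 : τ (j + 1) * s (j + 1) = 2 * (τ j * s (j + 1)) := by rw [hτsucc]; ring
        rw [h4] at h2
        have h5 : F (j + 1) / (2 * K3) ≤ τ j * s (j + 1) := by
          rw [div_le_iff₀ (by positivity)]
          linarith
        have h6 : F (j + 1) * r = F (j + 1) + F (j + 1) / (2 * K3) := by
          rw [hr]; field_simp
        linarith
      have h2 := d8_iter (by linarith : 0 < r) h1
      have h3 := hcon J le_rfl
      have h4 := hFle 0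
      have h5 : 0 < r ^ J := pow_pos (by linarith) J
      have h6 : c4 * Y * r ^ J < F J * r ^ J := mul_lt_mul_of_pos_right h3 h5
      have h7 : 1 * Y < c4 * r ^ J * Y := mul_lt_mul_of_pos_right hJ' hYpos
      linarith
    -- case (iii)
    have hu := hO.clip (hτpos j).le
    obtain ⟨u, hudef⟩ : ∃ u : Ed n → ℝ, u = fun e => clip (τ j) (y e) := ⟨_, rfl⟩
    rw [← hudef] at hu
    have hunorm : ∑ e, |u e| = Y - F j := by
      rw [hudef, hY, hF, ← Finset.sum_sub_distrib]
      refine Finset.sum_congr rfl fun e _ => ?_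
      have := abs_clip_add (hτpos j).le (y e)
      simp only
      linarith
    have hub : ∀ e, |u e| ≤ 2 ^ J * t1 := by
      intro e
      rw [hudef]
      refine (abs_clip_le (hτpos j).le _).trans ?_
      rw [hτ]
      exact mul_le_mul_of_nonneg_right (pow_le_pow_right₀ (by norm_num) hjJ) ht1pos.le
    have h1 := bulk_lower hB hp.le (show 0 < η * t1 by positivity) hub (by
      refine le_trans (le_of_eq ?_) hm
      field_simp)
    have h2 := hu.cone
    rw [hunorm] at h2
    have hTcard : (T.card : ℝ) ≤ C * D * n ^ 2 := card_le_of_hi hN.hi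
    -- the main term
    have h3 : D / 14 * (Y - F j) ≤ p / 2 * ∑ x, |tsum u x| := by
      have h4 := mul_le_mul_of_nonneg_left h2 (show 0 ≤ p / 14 by positivity)
      rw [hD]
      linarith
    -- the error term
    have h5 : p / 2 * (3 / 2 * (η * t1) * (n : ℝ) ^ 3 + 3 * m * lamB * (η * t1) * (n : ℝ) ^ 3) +
        3 / 2 * (η * t1) * T.card ≤ D * Y / 56 := by
      have h6 : 3 / 2 * (η * t1) * T.card ≤ 3 / 2 * (η * t1) * (C * D * n ^ 2) :=
        mul_le_mul_of_nonneg_left hTcard (by positivity)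
      have h7 : t1 * n ^ 2 = Y / δ1 := by
        rw [ht1]; field_simp
      have h8 : p / 2 * (3 / 2 * (η * t1) * (n : ℝ) ^ 3 +
          3 * m * lamB * (η * t1) * (n : ℝ) ^ 3) + 3 / 2 * (η * t1) * (C * D * n ^ 2) =
          D * (t1 * n ^ 2) * (η * (3 / 4 + 3 / 2 * C) + η * (3 / 2 * m * lamB)) := by
        rw [hD]; ring
      rw [h7] at h8
      have h9 : D * (Y / δ1) * (η * (3 / 4 + 3 / 2 * C) + η * (3 / 2 * m * lamB)) =
          D * Y * (η / δ1 * (3 / 4 + 3 / 2 * C) + η / δ1 * (3 / 2 * m * lamB)) := by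
        field_simp
      rw [h9, hη', hlamB'] at h8
      have h10 : D * Y * (1 / 112 + 1 / 112) = D * Y / 56 := by ring
      linarith
    -- `y` against `u`
    have h11 : ∑ x ∈ T, |tsum u x| - C * D * F j ≤ ∑ x ∈ T, |tsum y x| := by
      have h12 : ∑ x ∈ T, |tsum (fun e => soft (τ j) (y e)) x| ≤ C * D * F j := by
        refine (sum_abs_tsum_le T _).trans ?_
        rw [hF, Finset.mul_sum]
        exact Finset.sum_le_sum fun e _ => mul_le_mul_of_nonneg_right (hN.hi e) (abs_nonneg _)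
      have h13 : ∀ x, |tsum u x| ≤ |tsum y x| + |tsum (fun e => soft (τ j) (y e)) x| := by
        intro x
        have h14 : tsum u x = tsum y x - tsum (fun e => soft (τ j) (y e)) x := by
          rw [← tsum_sub, hudef]
          congr 1
          funext e
          rw [soft]; ring
        rw [h14]
        exact abs_sub _ _
      have h15 := Finset.sum_le_sum fun x (_ : x ∈ T) => h13 x
      rw [Finset.sum_add_distrib] at h15
      linarith
    have h16 : C * D * F j ≤ D * Y / 100 := by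
      have h17 : C * D * F j ≤ C * D * (c4 * Y) := mul_le_mul_of_nonneg_left hj (by positivity)
      have h18 : C * D * (c4 * Y) = C * c4 * (D * Y) := by ring
      rw [h18, hc4C] at h17
      linarith
    have h19 : D / 14 * (Y - F j) ≥ D / 14 * (99 / 100 * Y) := by
      refine mul_le_mul_of_nonneg_left ?_ (by positivity)
      have : c4 * Y ≤ 1 / 100 * Y := mul_le_mul_of_nonneg_right hc4le hYnn
      linarith
    have h20 : min (c * c4 / 4) (1 / 28) * D * Y ≤ 1 / 28 * D * Y :=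
      mul_le_mul_of_nonneg_right (mul_le_mul_of_nonneg_right hmin2 hDpos.le) hYnn
    have h21 : 0 < D * Y := by positivity
    linarith

end d8

end Pool.Agent.Helper40.FL
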