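import Pool.Agent.Helper40.FL.Basic

/-!
# FL, D9 : linear programming duality
-/

set_option autoImplicit false
open Classical Filter Topology

namespace Pool.Agent.Helper40.FL

section det

variable {n : ℕ}

theorem sum_edges_eq_tsum (y : Ed n → ℝ) (x : Tr n) :
    ∑ e ∈ Finset.univ.filter (fun e : Ed n => edge e.1 x = e), y e = tsum y x := by
  rw [tsum]
  symm
  refine Finset.sum_bij (fun i _ => edge i x) ?_ ?_ ?_ ?_
  · intro i _
    simp [edge]
  · intro i _ j _ h
    have := congrArg Prod.fst h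
    simpa [edge] using this
  · intro e he
    simp only [Finset.mem_filter, Finset.mem_univ, true_and] at he
    exact ⟨e.1, Finset.mem_univ _, he⟩
  · intro i _
    rfl

/-- D9 -/
theorem duality (T : Finset (Tr n)) (u : Tr n → ℝ) (hu : ∀ x, 0 ≤ u x) (r : Ed n → ℝ)
    (h : ∀ y : Ed n → ℝ, ∑ e, r e * y e ≤ ∑ x ∈ T, u x * |tsum y x|) :
    ∃ w : Tr n → ℝ, (∀ x ∈ T, |w x| ≤ u x) ∧
      ∀ e, ∑ x ∈ T.filter (fun x => edge e.1 x = e), w x = r e := by
  let A : (Tr n → ℝ) →ₗ[ℝ] (Ed n → ℝ) :=
    { toFun := fun w e => ∑ x ∈ T.filter (fun x => edge e.1 x = e), w x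
      map_add' := by
        intro a b; funext e; simp [Finset.sum_add_distrib]
      map_smul' := by
        intro c a; funext e; simp [Finset.mul_sum] }
  have hA : ∀ w e, A w e = ∑ x ∈ T.filter (fun x => edge e.1 x = e), w x := fun _ _ => rfl
  have hcont : Continuous A := LinearMap.continuous_of_finiteDimensional A
  have hcomp : IsCompact (A '' Set.Icc (-u) u) := isCompact_Icc.image hcont
  have hconv : Convex ℝ (A '' Set.Icc (-u) u) := (convex_Icc (-u) u).linear_image A
  by_contra hne
  have hr : r ∉ A '' Set.Icc (-u) u := by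
    rintro ⟨w, hw, hwr⟩
    refine hne ⟨w, fun x _ => abs_le.2 ⟨hw.1 x, hw.2 x⟩, fun e => ?_⟩
    rw [← hA, hwr]
  obtain ⟨f, c, hf1, hf2⟩ := geometric_hahn_banach_closed_point hconv hcomp.isClosed hr
  let y : Ed n → ℝ := fun e => f (fun j => if e = j then 1 else 0)
  have hfy : ∀ z : Ed n → ℝ, f z = ∑ e, z e * y e := by
    intro z
    have := LinearMap.pi_apply_eq_sum_univ (f : (Ed n → ℝ) →ₗ[ℝ] ℝ) z
    simpa [y] using this
  let w : Tr n → ℝ := fun x => u x * SignType.sign (tsum y x)
  have hw : w ∈ Set.Icc (-u) u := by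
    have h1 : ∀ x, |w x| ≤ u x := by
      intro x
      simp only [w, abs_mul, abs_of_nonneg (hu x)]
      have : |((SignType.sign (tsum y x) : SignType) : ℝ)| ≤ 1 := by
        rcases lt_trichotomy (tsum y x) 0 with h0 | h0 | h0
        · simp [sign_neg h0]
        · simp [h0]
        · simp [sign_pos h0]
      nlinarith [hu x]
    exact ⟨fun x => (abs_le.1 (h1 x)).1, fun x => (abs_le.1 (h1 x)).2⟩
  have h1 := hf1 (A w) ⟨w, hw, rfl⟩
  have h2 : f (A w) = ∑ x ∈ T, u x * |tsum y x| := by
    rw [hfy]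
    have e1 : ∀ e, A w e * y e = ∑ x ∈ T, if edge e.1 x = e then w x * y e else 0 := by
      intro e
      rw [hA, Finset.sum_mul, Finset.sum_filter]
    rw [Finset.sum_congr rfl fun e _ => e1 e, Finset.sum_comm]
    refine Finset.sum_congr rfl fun x _ => ?_
    have e2 : ∑ e, (if edge e.1 x = e then w x * y e else 0) = w x * tsum y x := by
      rw [← Finset.sum_filter, ← Finset.mul_sum, sum_edges_eq_tsum]
    rw [e2]
    simp only [w]
    have : ((SignType.sign (tsum y x) : SignType) : ℝ) * tsum y x = |tsum y x| :=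
      sign_mul_self (tsum y x)
    rw [mul_assoc, this]
  have h3 := h y
  rw [h2] at h1
  rw [hfy] at hf2
  linarith

end det

end Pool.Agent.Helper40.FL
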