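import Pool.Agent.Helper40.FL.D3
import Pool.Agent.Helper40.FL.D8
import Pool.Agent.Helper40.FL.D9
import Pool.Agent.Helper40.FL.D10a

/-! Project FL, module D10: the deterministic theorem. -/

set_option autoImplicit false
open Classical Filter Topology

namespace Pool.Agent.Helper40.FL

variable {n : ℕ}

theorem h40_sum_edge (x : Tr n) (y : Ed n → ℝ) :
    ∑ e : Ed n, (if edge e.1 x = e then y e else 0) = tsum y x := by
  rw [Fintype.sum_prod_type, tsum]
  refine Finset.sum_congr rfl fun i _ => ?_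
  rw [Finset.sum_eq_single (x i, x (i + 1))]
  · have h1 : edge (i, x i, x (i + 1)).1 x = (i, x i, x (i + 1)) := rfl
    rw [if_pos h1]; rfl
  · rintro ⟨u, w⟩ _ h
    rw [if_neg]
    intro h2
    rw [edge_eq_iff] at h2
    exact h (Prod.ext h2.2.1.symm h2.2.2.symm)
  · intro h; exact absurd (Finset.mem_univ _) h

/-- double counting with weights -/
theorem h40_pair (T : Finset (Tr n)) (w : Tr n → ℝ) (y : Ed n → ℝ) :
    ∑ e, (∑ x ∈ T.filter (fun x => edge e.1 x = e), w x) * y e = ∑ x ∈ T, w x * tsum y x := by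
  have h1 : ∀ e : Ed n, (∑ x ∈ T.filter (fun x => edge e.1 x = e), w x) * y e =
      ∑ x ∈ T, w x * (if edge e.1 x = e then y e else 0) := by
    intro e
    rw [Finset.sum_filter, Finset.sum_mul]
    refine Finset.sum_congr rfl fun x _ => ?_
    split_ifs <;> ring
  rw [Finset.sum_congr rfl fun e _ => h1 e, Finset.sum_comm]
  refine Finset.sum_congr rfl fun x _ => ?_
  rw [← Finset.mul_sum, h40_sum_edge]

theorem h40_shift (g : Fin 3 → ℝ) : ∑ i, g (i + 1) = ∑ i, g i :=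
  Fintype.sum_equiv (Equiv.addRight (1 : Fin 3)) _ _ fun _ => rfl

theorem h40_tsum_ker (φ : Fin 3 → Fin n → ℝ) (x : Tr n) : tsum (ker φ) x = 0 := by
  have h1 : tsum (ker φ) x = ∑ i, (φ i (x i) - φ (i + 1) (x (i + 1))) := rfl
  rw [h1, Finset.sum_sub_distrib, h40_shift (fun i => φ i (x i)), sub_self]

theorem h40_sum_ker (φ : Fin 3 → Fin n → ℝ) : ∑ e, ker φ e = 0 := by
  rw [Fintype.sum_prod_type]
  have h1 : ∀ i : Fin 3, ∑ y : Fin n × Fin n, ker φ (i, y) =
      n * (∑ u, φ i u) - n * ∑ u, φ (i + 1) u := by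
    intro i
    rw [Fintype.sum_prod_type]
    have : ∀ u w : Fin n, ker φ (i, (u, w)) = φ i u - φ (i + 1) w := fun _ _ => rfl
    simp only [this, Finset.sum_sub_distrib, Finset.sum_const, Finset.card_univ, Fintype.card_fin,
      nsmul_eq_mul, ← Finset.mul_sum]
  rw [Finset.sum_congr rfl fun i _ => h1 i, Finset.sum_sub_distrib, ← Finset.mul_sum,
    ← Finset.mul_sum, h40_shift (fun i => ∑ u, φ i u), sub_self]

theorem h40_tsum_sub (y z : Ed n → ℝ) (x : Tr n) :
    tsum (fun e => y e - z e) x = tsum y x - tsum z x := by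
  rw [tsum, tsum, tsum, ← Finset.sum_sub_distrib]

/-- D10 -/
theorem deterministic {c C δ θ : ℝ} (hc : 0 < c) (hc' : c ≤ 1 / 4) (hC : 1 ≤ C) (hδ : 0 < δ)
    (hθ : 0 < θ) :
    ∃ lam > 0, ∃ m : ℕ, ∃ lamB > 0, ∃ η1 > 0, ∃ η2 > 0, ∀ n : ℕ, 0 < n →
      ∀ (T : Finset (Tr n)) (p : ℝ), 0 < p → Nice T (p * n) c C (c / 16) δ lam →
      Bulk T p m lamB → Typ T (p * n) η1 η2 →
      ∃ w : Tr n → ℝ, (∀ x ∈ T, |w x - w0 T (p * n) x| ≤ θ * w0 T (p * n) x) ∧
        ∀ e, ∑ x ∈ T.filter (fun x => edge e.1 x = e), w x = 1 := by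
  obtain ⟨lam, hlam, m, lamB, hlamB, c5, hc5, hco⟩ := coercivity hc hc' hC hδ
  set ρ : ℝ := θ * c5 / C ^ 3 with hρ
  have hC0 : 0 < C := by linarith
  have hρ0 : 0 < ρ := by positivity
  refine ⟨lam, hlam, m, lamB, hlamB, min (1 / 10) (ρ / 6), lt_min (by norm_num) (by positivity),
    c ^ 3 * ρ / 4, by positivity, ?_⟩
  intro n hn T p hp hN hB hT
  have hn0 : (0 : ℝ) < n := by exact_mod_cast hn
  set D : ℝ := p * n with hD
  have hD0 : 0 < D := mul_pos hp hn0
  have hη0 : 0 ≤ min (1 / 10 : ℝ) (ρ / 6) := (lt_min (by norm_num) (by positivity)).le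
  have hres : ∀ e : Ed n, |1 - ∑ x ∈ T.filter (fun x => edge e.1 x = e), w0 T D x| ≤ ρ := by
    intro e
    rw [abs_sub_comm]
    refine (residual hD0 hc hc' hN.lo hη0 (min_le_left _ _) (by positivity) hT e).trans ?_
    have h1 : min (1 / 10 : ℝ) (ρ / 6) ≤ ρ / 6 := min_le_right _ _
    have h2 : 2 * (c ^ 3 * ρ / 4) / c ^ 3 = ρ / 2 := by
      field_simp; ring
    rw [h2]; linarith
  -- lower bound for the weights
  have hw0 : ∀ x : Tr n, 1 / (C ^ 3 * D) ≤ w0 T D x := by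
    intro x
    rw [w0]
    have h1 : ∀ i ∈ (Finset.univ : Finset (Fin 3)), 0 ≤ (dg T (edge i x) : ℝ) := fun i _ =>
      Nat.cast_nonneg _
    have h2 : ∏ i, (dg T (edge i x) : ℝ) ≤ (C * D) ^ 3 := by
      calc ∏ i, (dg T (edge i x) : ℝ) ≤ ∏ _i : Fin 3, (C * D) :=
            Finset.prod_le_prod h1 fun i _ => hN.hi _
        _ = (C * D) ^ 3 := by rw [Finset.prod_const, Finset.card_univ, Fintype.card_fin]
    have h3 : 0 < ∏ i, (dg T (edge i x) : ℝ) :=
      Finset.prod_pos fun i _ => lt_of_lt_of_le (by positivity) (hN.lo _)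
    rw [div_le_div_iff₀ (by positivity) h3]
    calc 1 * ∏ i, (dg T (edge i x) : ℝ) ≤ (C * D) ^ 3 := by rw [one_mul]; exact h2
      _ = D ^ 2 * (C ^ 3 * D) := by ring
  have hw0' : ∀ x : Tr n, 0 ≤ θ * w0 T D x := by
    intro x
    have := hw0 x
    have h2 : 0 ≤ 1 / (C ^ 3 * D) := by positivity
    exact mul_nonneg hθ.le (h2.trans this)
  have key : ∀ y : Ed n → ℝ,
      ∑ e, (1 - ∑ x ∈ T.filter (fun x => edge e.1 x = e), w0 T D x) * y e ≤
        ∑ x ∈ T, θ * w0 T D x * |tsum y x| := by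
    intro y
    obtain ⟨φ, hφ⟩ := exists_opt y
    have h1 : ∑ e, (1 - ∑ x ∈ T.filter (fun x => edge e.1 x = e), w0 T D x) * ker φ e = 0 := by
      have : ∀ e : Ed n, (1 - ∑ x ∈ T.filter (fun x => edge e.1 x = e), w0 T D x) * ker φ e =
          ker φ e - (∑ x ∈ T.filter (fun x => edge e.1 x = e), w0 T D x) * ker φ e := by
        intro e; ring
      rw [Finset.sum_congr rfl fun e _ => this e, Finset.sum_sub_distrib, h40_sum_ker, h40_pair]
      simp only [h40_tsum_ker, mul_zero, Finset.sum_const_zero, sub_self]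
    have h2 : ∑ e, (1 - ∑ x ∈ T.filter (fun x => edge e.1 x = e), w0 T D x) * y e =
        ∑ e, (1 - ∑ x ∈ T.filter (fun x => edge e.1 x = e), w0 T D x) * (y e - ker φ e) := by
      simp only [mul_sub, Finset.sum_sub_distrib]
      rw [h1, sub_zero]
    rw [h2]
    have h3 : ∑ e, (1 - ∑ x ∈ T.filter (fun x => edge e.1 x = e), w0 T D x) * (y e - ker φ e) ≤
        ρ * ∑ e, |y e - ker φ e| := by
      rw [Finset.mul_sum]
      refine Finset.sum_le_sum fun e _ => ?_
      refine (le_abs_self _).trans ?_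
      rw [abs_mul]
      exact mul_le_mul_of_nonneg_right (hres e) (abs_nonneg _)
    have h4 := hco n hn T p hp hN hB _ hφ
    have h5 : ∀ x, tsum (fun e => y e - ker φ e) x = tsum y x := by
      intro x; rw [h40_tsum_sub, h40_tsum_ker, sub_zero]
    simp only [h5] at h4
    rw [← hD] at h4
    have h6 : ρ * ∑ e, |y e - ker φ e| ≤ θ / (C ^ 3 * D) * ∑ x ∈ T, |tsum y x| := by
      have h7 : θ / (C ^ 3 * D) * (c5 * D * ∑ e, |y e - ker φ e|) =
          ρ * ∑ e, |y e - ker φ e| := by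
        rw [hρ]; field_simp
      rw [← h7]
      exact mul_le_mul_of_nonneg_left h4 (by positivity)
    refine h3.trans (h6.trans ?_)
    rw [Finset.mul_sum]
    refine Finset.sum_le_sum fun x _ => mul_le_mul_of_nonneg_right ?_ (abs_nonneg _)
    have := mul_le_mul_of_nonneg_left (hw0 x) hθ.le
    calc θ / (C ^ 3 * D) = θ * (1 / (C ^ 3 * D)) := by ring
      _ ≤ _ := this
  obtain ⟨w', hw1, hw2⟩ := duality T (fun x => θ * w0 T D x) hw0' _ key
  refine ⟨fun x => w0 T D x + w' x, fun x hx => ?_, fun e => ?_⟩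
  · rw [add_sub_cancel_left]; exact hw1 x hx
  · rw [Finset.sum_add_distrib, hw2 e]; ring

end Pool.Agent.Helper40.FL
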