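import Pool.Agent.Helper40.FL.Basic

/-! Project FL, D3: existence of a best approximation modulo the kernel. -/

set_option autoImplicit false
open Classical Filter Topology

namespace Pool.Agent.Helper40.FL

variable {n : ℕ}

/-- the kernel functions as a linear map -/
def kerL (n : ℕ) : (Fin 3 → Fin n → ℝ) →ₗ[ℝ] (Ed n → ℝ) where
  toFun φ := ker φ
  map_add' φ ψ := by
    funext e
    simp only [ker, Pi.add_apply]
    ring
  map_smul' c φ := by
    funext e
    simp only [ker, Pi.smul_apply, smul_eq_mul, RingHom.id_apply]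
    ring

/-- D3 -/
theorem exists_opt (y : Ed n → ℝ) : ∃ φ, Opt (fun e => y e - ker φ e) := by
  set K : Submodule ℝ (Ed n → ℝ) := LinearMap.range (kerL n) with hK
  have hKc : IsClosed (K : Set (Ed n → ℝ)) := Submodule.closed_of_finiteDimensional K
  set g : (Ed n → ℝ) → ℝ := fun k => ∑ e, |y e - k e| with hg
  have hgc : Continuous g := by
    refine continuous_finsetSum _ fun e _ => ?_
    exact (continuous_const.sub (continuous_apply e)).abs
  set R : ℝ := 2 * ∑ e, |y e| with hR
  have hR0 : 0 ≤ R := mul_nonneg (by norm_num) (Finset.sum_nonneg fun e _ => abs_nonneg _)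
  have hcomp : IsCompact ((K : Set (Ed n → ℝ)) ∩ Metric.closedBall 0 R) :=
    (isCompact_closedBall (0 : Ed n → ℝ) R).inter_left hKc
  have hne : ((K : Set (Ed n → ℝ)) ∩ Metric.closedBall 0 R).Nonempty :=
    ⟨0, K.zero_mem, Metric.mem_closedBall_self hR0⟩
  obtain ⟨k0, hk0, hmin⟩ := hcomp.exists_isMinOn hne hgc.continuousOn
  have hmin' : ∀ k ∈ K, g k0 ≤ g k := by
    intro k hk
    by_cases hkR : k ∈ Metric.closedBall (0 : Ed n → ℝ) R
    · exact hmin ⟨hk, hkR⟩
    · have h0 : g k0 ≤ g 0 := hmin ⟨K.zero_mem, Metric.mem_closedBall_self hR0⟩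
      refine h0.trans ?_
      by_contra hlt
      apply hkR
      rw [mem_closedBall_zero_iff, pi_norm_le_iff_of_nonneg hR0]
      intro e
      have h1 : |y e| ≤ ∑ e, |y e| :=
        Finset.single_le_sum (f := fun e => |y e|) (fun e _ => abs_nonneg _) (Finset.mem_univ e)
      have h2 : |y e - k e| ≤ ∑ e, |y e - k e| :=
        Finset.single_le_sum (f := fun e => |y e - k e|) (fun e _ => abs_nonneg _)
          (Finset.mem_univ e)
      have h3 : g k ≤ ∑ e, |y e| := by
        have h4 : g 0 = ∑ e, |y e| := by simp [hg]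
        rw [← h4]
        exact (not_le.1 hlt).le
      have h5 : |k e| ≤ |y e| + |y e - k e| := by
        have h6 : k e = y e - (y e - k e) := by ring
        calc |k e| = |y e - (y e - k e)| := by rw [← h6]
          _ ≤ |y e| + |y e - k e| := abs_sub _ _
      rw [Real.norm_eq_abs]
      have h7 : g k = ∑ e, |y e - k e| := rfl
      linarith
  obtain ⟨φ, hφ⟩ := hk0.1
  refine ⟨φ, fun ψ => ?_⟩
  have h1 := hmin' (ker (φ + ψ)) ⟨φ + ψ, rfl⟩
  have h2 : k0 = ker φ := hφ.symm
  have h3 : ker (φ + ψ) = ker φ + ker ψ := (kerL n).map_add φ ψ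
  rw [h2, h3] at h1
  have h4 : ∀ e, y e - (ker φ + ker ψ) e = y e - ker φ e - ker ψ e := by
    intro e
    rw [Pi.add_apply]
    ring
  simp only [hg, h4] at h1
  exact h1

end Pool.Agent.Helper40.FL
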