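import Pool.Agent.Helper40.FL.Basic

/-! Project FL, module D5: the level set inequality. -/

set_option autoImplicit false
open Classical Filter Topology

namespace Pool.Agent.Helper40.FL

section level

variable {n : ℕ}

theorem card_inn_union {P N : Finset (Ed n)} (hd : Disjoint P N) (i : Fin 3) (v : Fin n) :
    (inn (P ∪ N) i v).card = (inn P i v).card + (inn N i v).card := by
  rw [← Finset.card_union_of_disjoint]
  · congr 1
    ext u
    simp only [inn, Finset.mem_filter, Finset.mem_union, Finset.mem_univ, true_and]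
  · rw [Finset.disjoint_left] at hd ⊢
    intro u hu hu'
    simp only [inn, Finset.mem_filter, Finset.mem_univ, true_and] at hu hu'
    exact hd hu hu'

theorem card_out_union {P N : Finset (Ed n)} (hd : Disjoint P N) (i : Fin 3) (v : Fin n) :
    (out (P ∪ N) i v).card = (out P i v).card + (out N i v).card := by
  rw [← Finset.card_union_of_disjoint]
  · congr 1
    ext u
    simp only [out, Finset.mem_filter, Finset.mem_union, Finset.mem_univ, true_and]
  · rw [Finset.disjoint_left] at hd ⊢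
    intro u hu hu'
    simp only [out, Finset.mem_filter, Finset.mem_univ, true_and] at hu hu'
    exact hd hu hu'

/-- one pair of neighbourhoods at a heavy vertex -/
theorem cnt_up_le {T : Finset (Tr n)} {D c C κ δ lam : ℝ} (hT : Nice T D c C κ δ lam)
    (hn : 0 < n) (hD : 0 < D) (i : Fin 3) (v : Fin n) (X Z : Finset (Fin n))
    (h : X.card + Z.card ≤ n) :
    (cnt T i v X Z : ℝ) ≤ D * (X.card + Z.card) / 4 + lam * D * n := by
  refine (hT.up i v X Z).trans ?_
  have hn' : (0 : ℝ) < n := by exact_mod_cast hn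
  have h' : (X.card + Z.card : ℝ) ≤ n := by exact_mod_cast h
  have hX : (0 : ℝ) ≤ X.card := Nat.cast_nonneg _
  have hZ : (0 : ℝ) ≤ Z.card := Nat.cast_nonneg _
  have h1 : (X.card : ℝ) * Z.card ≤ n * (X.card + Z.card) / 4 := by
    nlinarith [sq_nonneg ((X.card : ℝ) - Z.card)]
  have h2 : D / n * ((X.card : ℝ) * Z.card) ≤ D / n * (n * (X.card + Z.card) / 4) :=
    mul_le_mul_of_nonneg_left h1 (by positivity)
  have h3 : D / n * (n * (X.card + Z.card : ℝ) / 4) = D * (X.card + Z.card) / 4 := by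
    field_simp
  linarith

/-- D5 -/
theorem level {T : Finset (Tr n)} {D c C δ lam δ1 : ℝ} (hT : Nice T D c C (c / 16) δ lam)
    (hn : 0 < n) (hD : 0 < D) (hc : 0 < c) (hc' : c ≤ 1 / 4) (hC : 0 < C) (hδ : 0 < δ)
    (hlam : 0 ≤ lam) (hlam' : lam ≤ δ / 24) (hδ1 : 16 * C * δ1 ≤ c * δ ^ 2)
    {P N : Finset (Ed n)} (hd : Disjoint P N) (hm : MedS P N)
    (hS : ((P ∪ N).card : ℝ) ≤ δ1 * n ^ 2) :
    c / 2 * D * (P ∪ N).card ≤ ∑ e ∈ P ∪ N, (dg T e : ℝ) -
      2 * ∑ i, ∑ v, ((cnt T i v (inn P i v) (out N i v) : ℝ) + cnt T i v (inn N i v) (out P i v)) := by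
  have hn' : (0 : ℝ) < n := by exact_mod_cast hn
  set S : Finset (Ed n) := P ∪ N with hSdef
  set s : Fin 3 → Fin n → ℝ := fun i v => ((inn S i v).card : ℝ) + (out S i v).card with hs
  set H : Fin 3 → Fin n → ℝ := fun i v => if s i v ≤ δ * n then 0 else 1 with hH
  set dv : Fin 3 → Fin n → ℝ := fun i v =>
    (cnt T i v (inn S i v) Finset.univ : ℝ) + cnt T i v Finset.univ (out S i v) with hdv
  have hs0 : ∀ i v, 0 ≤ s i v := fun i v => by simp only [hs]; positivity
  have hH01 : ∀ i v, H i v = 0 ∨ H i v = 1 := by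
    intro i v; simp only [hH]; split_ifs; exacts [Or.inl rfl, Or.inr rfl]
  have hH0 : ∀ i v, 0 ≤ H i v := by
    intro i v; rcases hH01 i v with h | h <;> rw [h]; exact zero_le_one
  have hsval : ∀ i v, s i v = ((inn P i v).card : ℝ) + (inn N i v).card + (out P i v).card +
      (out N i v).card := by
    intro i v
    simp only [hs, hSdef, card_inn_union hd, card_out_union hd]
    push_cast; ring
  -- the inequality at one vertex
  have key : ∀ i v, 2 * ((cnt T i v (inn P i v) (out N i v) : ℝ) +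
      cnt T i v (inn N i v) (out P i v)) ≤
      H i v * dv i v - D / 4 * (H i v * s i v) + c / 8 * D * s i v := by
    intro i v
    have hsv := hsval i v
    have p1 : (0 : ℝ) ≤ (inn P i v).card := Nat.cast_nonneg _
    have p2 : (0 : ℝ) ≤ (inn N i v).card := Nat.cast_nonneg _
    have p3 : (0 : ℝ) ≤ (out P i v).card := Nat.cast_nonneg _
    have p4 : (0 : ℝ) ≤ (out N i v).card := Nat.cast_nonneg _
    by_cases hl : s i v ≤ δ * n
    · have hHv : H i v = 0 := by simp only [hH]; rw [if_pos hl]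
      have h1 := hT.small i v (inn P i v) (out N i v) (by linarith)
      have h2 := hT.small i v (inn N i v) (out P i v) (by linarith)
      rw [hHv, zero_mul, zero_mul, mul_zero, sub_zero, zero_add]
      have e1 : c / 8 * D * s i v = 2 * (c / 16 * D * ((inn P i v).card + (out N i v).card) +
          c / 16 * D * ((inn N i v).card + (out P i v).card)) := by
        rw [hsv]; ring
      rw [e1]
      linarith
    · have hHv : H i v = 1 := by simp only [hH]; rw [if_neg hl]
      push Not at hl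
      have h1 := cnt_up_le hT hn hD i v (inn P i v) (out N i v) (hm i v).1
      have h2 := cnt_up_le hT hn hD i v (inn N i v) (out P i v) (hm i v).2
      have h3 := hT.lowL i v (inn S i v)
      have h4 := hT.lowR i v (out S i v)
      have h5 : lam * D * n ≤ D / 24 * s i v := by
        have : lam * n ≤ s i v / 24 := by nlinarith
        nlinarith
      have h6 : (dv i v) ≥ D * s i v - 2 * (lam * D * n) := by
        simp only [hdv, hs]
        linarith
      have h7 : D * ((inn P i v).card + (out N i v).card : ℝ) / 4 +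
          D * ((inn N i v).card + (out P i v).card : ℝ) / 4 = D / 4 * s i v := by
        rw [hsv]; ring
      have h8 : 0 ≤ c / 8 * D * s i v := by
        have := hs0 i v
        positivity
      rw [hHv, one_mul, one_mul]
      have h9 : 0 ≤ D * s i v := mul_nonneg hD.le (hs0 i v)
      linarith
  -- sums
  have hsumout : ∀ g : Ed n → ℝ, ∑ e ∈ S, H e.1 e.2.1 * g e =
      ∑ i, ∑ v, H i v * ∑ w ∈ out S i v, g (i, v, w) := by
    intro g
    rw [sum_out S fun e => H e.1 e.2.1 * g e]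
    refine Finset.sum_congr rfl fun i _ => Finset.sum_congr rfl fun v _ => ?_
    rw [Finset.mul_sum]
  have hsuminn : ∀ g : Ed n → ℝ, ∑ e ∈ S, H (e.1 + 1) e.2.2 * g e =
      ∑ i, ∑ v, H i v * ∑ u ∈ inn S i v, g (i + 2, u, v) := by
    intro g
    rw [sum_inn S fun e => H (e.1 + 1) e.2.2 * g e]
    refine Finset.sum_congr rfl fun i _ => Finset.sum_congr rfl fun v _ => ?_
    rw [Finset.mul_sum]
    refine Finset.sum_congr rfl fun u _ => ?_
    simp only [fin3_add]
  have hdvsum : ∑ i, ∑ v, H i v * dv i v =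
      ∑ e ∈ S, (H e.1 e.2.1 + H (e.1 + 1) e.2.2) * (dg T e : ℝ) := by
    have : ∀ e ∈ S, (H e.1 e.2.1 + H (e.1 + 1) e.2.2) * (dg T e : ℝ) =
        H e.1 e.2.1 * (dg T e : ℝ) + H (e.1 + 1) e.2.2 * (dg T e : ℝ) := fun e _ => by ring
    rw [Finset.sum_congr rfl this, Finset.sum_add_distrib, hsumout fun e => (dg T e : ℝ),
      hsuminn fun e => (dg T e : ℝ), ← Finset.sum_add_distrib]
    refine Finset.sum_congr rfl fun i _ => ?_
    rw [← Finset.sum_add_distrib]
    refine Finset.sum_congr rfl fun v _ => ?_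
    simp only [hdv]
    rw [cnt_univ_right, cnt_univ_left]
    push_cast
    ring
  have hssum : ∑ i, ∑ v, H i v * s i v = ∑ e ∈ S, (H e.1 e.2.1 + H (e.1 + 1) e.2.2) := by
    have : ∀ e ∈ S, (H e.1 e.2.1 + H (e.1 + 1) e.2.2) =
        H e.1 e.2.1 * (1 : ℝ) + H (e.1 + 1) e.2.2 * (1 : ℝ) := fun e _ => by ring
    rw [Finset.sum_congr rfl this, Finset.sum_add_distrib, hsumout fun _ => (1 : ℝ),
      hsuminn fun _ => (1 : ℝ), ← Finset.sum_add_distrib]
    refine Finset.sum_congr rfl fun i _ => ?_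
    rw [← Finset.sum_add_distrib]
    refine Finset.sum_congr rfl fun v _ => ?_
    simp only [hs, Finset.sum_const, nsmul_eq_mul, mul_one]
    ring
  have htot : ∑ i, ∑ v, s i v = 2 * S.card := by
    have h1 := card_out S
    have h2 := card_inn S
    have : ∑ i, ∑ v, s i v = ∑ i, ∑ v, ((inn S i v).card : ℝ) + ∑ i, ∑ v, ((out S i v).card : ℝ) := by
      rw [← Finset.sum_add_distrib]
      refine Finset.sum_congr rfl fun i _ => ?_
      rw [← Finset.sum_add_distrib]
    rw [this, ← h1, ← h2]; ring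
  -- the number of heavy vertices
  set h : ℝ := ∑ i, ∑ v, H i v with hh
  have hh0 : 0 ≤ h := Finset.sum_nonneg fun i _ => Finset.sum_nonneg fun v _ => hH0 i v
  have hcount : δ * n * h ≤ 2 * S.card := by
    rw [← htot, hh, Finset.mul_sum]
    refine Finset.sum_le_sum fun i _ => ?_
    rw [Finset.mul_sum]
    refine Finset.sum_le_sum fun v _ => ?_
    simp only [hH]
    split_ifs with hl
    · rw [mul_zero]; exact hs0 i v
    · push Not at hl; rw [mul_one]; exact hl.le
  have hHH : ∑ e ∈ S, H e.1 e.2.1 * H (e.1 + 1) e.2.2 ≤ h ^ 2 := by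
    have h1 : ∑ e ∈ S, H e.1 e.2.1 * H (e.1 + 1) e.2.2 ≤
        ∑ e : Ed n, H e.1 e.2.1 * H (e.1 + 1) e.2.2 :=
      Finset.sum_le_sum_of_subset_of_nonneg (Finset.subset_univ _)
        fun e _ _ => mul_nonneg (hH0 _ _) (hH0 _ _)
    have h2 : ∑ e : Ed n, H e.1 e.2.1 * H (e.1 + 1) e.2.2 =
        ∑ i, (∑ u, H i u) * ∑ w, H (i + 1) w := by
      rw [Fintype.sum_prod_type]
      refine Finset.sum_congr rfl fun i _ => ?_
      rw [Fintype.sum_prod_type, Finset.sum_mul_sum]
    have h3 : ∀ i, 0 ≤ ∑ u, H i u := fun i => Finset.sum_nonneg fun u _ => hH0 i u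
    refine h1.trans ?_
    rw [h2, hh, Fin.sum_univ_three, Fin.sum_univ_three]
    have e1 : (0 : Fin 3) + 1 = 1 := rfl
    have e2 : (1 : Fin 3) + 1 = 2 := rfl
    have e3 : (2 : Fin 3) + 1 = 0 := rfl
    rw [e1, e2, e3]
    nlinarith [mul_nonneg (h3 0) (h3 1), mul_nonneg (h3 1) (h3 2), mul_nonneg (h3 2) (h3 0),
      sq_nonneg (∑ u, H 0 u), sq_nonneg (∑ u, H 1 u), sq_nonneg (∑ u, H 2 u)]
  have hCh : C * h ^ 2 ≤ c / 4 * S.card := by
    have hSc : (0 : ℝ) ≤ S.card := Nat.cast_nonneg _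
    have h1 : (δ * n * h) ^ 2 ≤ (2 * (S.card : ℝ)) ^ 2 :=
      pow_le_pow_left₀ (by positivity) hcount 2
    have h2 : (2 * (S.card : ℝ)) ^ 2 ≤ 4 * S.card * (δ1 * n ^ 2) := by
      nlinarith
    have h3 : n ^ 2 * (δ ^ 2 * h ^ 2) ≤ (n : ℝ) ^ 2 * (4 * S.card * δ1) := by
      nlinarith
    have h4 : δ ^ 2 * h ^ 2 ≤ 4 * S.card * δ1 := le_of_mul_le_mul_left h3 (by positivity)
    have h5 : δ ^ 2 * (C * h ^ 2) ≤ δ ^ 2 * (c / 4 * S.card) := by
      have h6 : C * (δ ^ 2 * h ^ 2) ≤ C * (4 * S.card * δ1) := mul_le_mul_of_nonneg_left h4 hC.le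
      have h7 : (S.card : ℝ) * (16 * C * δ1) ≤ S.card * (c * δ ^ 2) :=
        mul_le_mul_of_nonneg_left hδ1 hSc
      nlinarith
    exact le_of_mul_le_mul_left h5 (by positivity)
  -- the inequality at one edge
  have edge1 : ∀ e ∈ S, c * D - C * D * (H e.1 e.2.1 * H (e.1 + 1) e.2.2) ≤
      (dg T e : ℝ) - (H e.1 e.2.1 + H (e.1 + 1) e.2.2) * (dg T e : ℝ) +
      D / 4 * (H e.1 e.2.1 + H (e.1 + 1) e.2.2) := by
    intro e _
    have h1 := hT.lo e
    have h2 := hT.hi e
    have h3 : c * D ≤ D / 4 := by nlinarith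
    rcases hH01 e.1 e.2.1 with ha | ha <;> rcases hH01 (e.1 + 1) e.2.2 with hb | hb <;>
      rw [ha, hb]
    · linarith
    · linarith
    · linarith
    · nlinarith
  have hE := Finset.sum_le_sum edge1
  have hV := Finset.sum_le_sum fun i (_ : i ∈ (Finset.univ : Finset (Fin 3))) =>
    Finset.sum_le_sum fun v (_ : v ∈ (Finset.univ : Finset (Fin n))) => key i v
  simp only [← Finset.mul_sum, Finset.sum_add_distrib, Finset.sum_sub_distrib,
    Finset.sum_const, nsmul_eq_mul] at hE hV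
  simp only [← Finset.mul_sum, Finset.sum_add_distrib] at hdvsum hssum htot ⊢
  rw [hdvsum, hssum, htot] at hV
  have hCD : C * D * ∑ e ∈ S, H e.1 e.2.1 * H (e.1 + 1) e.2.2 ≤ D * (c / 4 * S.card) := by
    have h1 : C * D * ∑ e ∈ S, H e.1 e.2.1 * H (e.1 + 1) e.2.2 ≤ C * D * h ^ 2 :=
      mul_le_mul_of_nonneg_left hHH (by positivity)
    have h2 : D * (C * h ^ 2) ≤ D * (c / 4 * S.card) := mul_le_mul_of_nonneg_left hCh hD.le
    linarith
  linarith

end level

end Pool.Agent.Helper40.FL
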