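import Mathlib

/-!
# Project FL (MP_56dece_co): fractional Latin squares in random triple systems

A triple is a function `x : Fin 3 → Fin n`.  An edge is `(i, u, w)`: it joins the vertex `u` of
part `i` to the vertex `w` of part `i + 1`; the triple `x` contains the three edges
`edge i x = (i, x i, x (i + 1))`.
-/

set_option autoImplicit false
open Classical Filter Topology

namespace Pool.Agent.Helper40.FL

/-- triples -/
abbrev Tr (n : ℕ) := Fin 3 → Fin n

/-- edges of the complete tripartite graph -/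
abbrev Ed (n : ℕ) := Fin 3 × Fin n × Fin n

/-- the `i`-th edge of a triple -/
def edge {n : ℕ} (i : Fin 3) (x : Tr n) : Ed n := (i, x i, x (i + 1))

/-- the sum of an edge function over the three edges of a triple -/
def tsum {n : ℕ} (y : Ed n → ℝ) (x : Tr n) : ℝ := ∑ i, y (edge i x)

/-- number of triples of `T` containing the edge `e` -/
noncomputable def dg {n : ℕ} (T : Finset (Tr n)) (e : Ed n) : ℕ :=
  (T.filter fun x => edge e.1 x = e).card

/-- number of triples of `T` through the vertex `v` of part `i`, with the previous vertex in `X` and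
the next vertex in `Z` -/
noncomputable def cnt {n : ℕ} (T : Finset (Tr n)) (i : Fin 3) (v : Fin n)
    (X Z : Finset (Fin n)) : ℕ :=
  (T.filter fun x => x i = v ∧ x (i + 2) ∈ X ∧ x (i + 1) ∈ Z).card

/-- the edge functions which vanish on all triples -/
def ker {n : ℕ} (φ : Fin 3 → Fin n → ℝ) (e : Ed n) : ℝ := φ e.1 e.2.1 - φ (e.1 + 1) e.2.2

/-- `y` has least `ℓ¹` norm modulo the kernel -/
def Opt {n : ℕ} (y : Ed n → ℝ) : Prop := ∀ φ, ∑ e, |y e| ≤ ∑ e, |y e - ker φ e|

/-- the median condition at every vertex -/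
def Med {n : ℕ} (y : Ed n → ℝ) : Prop := ∀ (i : Fin 3) (v : Fin n),
  (Finset.univ.filter fun u : Fin n => 0 < y (i + 2, u, v)).card +
      (Finset.univ.filter fun w : Fin n => y (i, v, w) < 0).card ≤ n ∧
  (Finset.univ.filter fun u : Fin n => y (i + 2, u, v) < 0).card +
      (Finset.univ.filter fun w : Fin n => 0 < y (i, v, w)).card ≤ n

/-- truncation -/
noncomputable def clip (τ t : ℝ) : ℝ := max (-τ) (min τ t)

/-- soft threshold -/
noncomputable def soft (τ t : ℝ) : ℝ := t - clip τ t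

/-- in-neighbours of the vertex `v` of part `i` in a set of edges -/
noncomputable def inn {n : ℕ} (P : Finset (Ed n)) (i : Fin 3) (v : Fin n) : Finset (Fin n) :=
  Finset.univ.filter fun u => (i + 2, u, v) ∈ P

/-- out-neighbours of the vertex `v` of part `i` in a set of edges -/
noncomputable def out {n : ℕ} (P : Finset (Ed n)) (i : Fin 3) (v : Fin n) : Finset (Fin n) :=
  Finset.univ.filter fun w => (i, v, w) ∈ P

/-- the median condition for level sets -/
def MedS {n : ℕ} (P N : Finset (Ed n)) : Prop := ∀ (i : Fin 3) (v : Fin n),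
  (inn P i v).card + (out N i v).card ≤ n ∧ (inn N i v).card + (out P i v).card ≤ n

/-- the deterministic properties of `T` (degrees about `D`) used in the coercivity theorem -/
structure Nice {n : ℕ} (T : Finset (Tr n)) (D c C κ δ lam : ℝ) : Prop where
  lo : ∀ e, c * D ≤ dg T e
  hi : ∀ e, (dg T e : ℝ) ≤ C * D
  small : ∀ (i : Fin 3) (v : Fin n) (X Z : Finset (Fin n)), (X.card + Z.card : ℝ) ≤ δ * n →
    (cnt T i v X Z : ℝ) ≤ κ * D * (X.card + Z.card)
  up : ∀ (i : Fin 3) (v : Fin n) (X Z : Finset (Fin n)),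
    (cnt T i v X Z : ℝ) ≤ D / n * (X.card * Z.card) + lam * D * n
  lowL : ∀ (i : Fin 3) (v : Fin n) (X : Finset (Fin n)),
    D * X.card - lam * D * n ≤ (cnt T i v X Finset.univ : ℝ)
  lowR : ∀ (i : Fin 3) (v : Fin n) (Z : Finset (Fin n)),
    D * Z.card - lam * D * n ≤ (cnt T i v Finset.univ Z : ℝ)

/-- the law of large numbers for integer functions with values in `[-m, m]` -/
def Bulk {n : ℕ} (T : Finset (Tr n)) (p : ℝ) (m : ℕ) (lam : ℝ) : Prop :=
  ∀ f : Ed n → ℤ, (∀ e, |f e| ≤ m) → ∀ j : ℕ, 1 ≤ j →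
    p / 2 * (((Finset.univ.filter fun x : Tr n => (j : ℤ) ≤ |∑ i, f (edge i x)|).card : ℝ)
      - lam * (n : ℝ) ^ 3) ≤ ((T.filter fun x : Tr n => (j : ℤ) ≤ |∑ i, f (edge i x)|).card : ℝ)

/-- every edge has few neighbours of atypical degree -/
def Typ {n : ℕ} (T : Finset (Tr n)) (D η1 η2 : ℝ) : Prop :=
  ∀ (e : Ed n) (i : Fin 3), i ≠ e.1 →
    ((T.filter fun x : Tr n => edge e.1 x = e ∧ η1 * D < |(dg T (edge i x) : ℝ) - D|).card : ℝ)
      ≤ η2 * D

/-- the first approximation of the weights -/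
noncomputable def w0 {n : ℕ} (T : Finset (Tr n)) (D : ℝ) (x : Tr n) : ℝ :=
  D ^ 2 / ∏ i, (dg T (edge i x) : ℝ)

/-! ## probability -/

section Prob

variable {X : Type} [Fintype X]

/-- weight of a set: every element is present with probability `p` -/
noncomputable def wt (p : ℝ) (S : Finset X) : ℝ := p ^ S.card * (1 - p) ^ (Fintype.card X - S.card)

/-- probability of an event -/
noncomputable def Pr (p : ℝ) (A : Finset X → Prop) : ℝ :=
  ∑ S ∈ (Finset.univ : Finset (Finset X)).filter A, wt p S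

theorem wt_nonneg {p : ℝ} (h0 : 0 ≤ p) (h1 : p ≤ 1) (S : Finset X) : 0 ≤ wt p S :=
  mul_nonneg (pow_nonneg h0 _) (pow_nonneg (by linarith) _)

/-- the generating function -/
theorem gf (p : ℝ) (g : X → ℝ) :
    ∑ S : Finset X, wt p S * ∏ x ∈ S, g x = ∏ x, (1 - p + p * g x) := by
  have h := Finset.prod_add (fun x : X => p * g x) (fun _ => 1 - p) Finset.univ
  have h2 : ∏ x, (1 - p + p * g x) = ∏ x, (p * g x + (1 - p)) :=
    Finset.prod_congr rfl fun x _ => by ring
  rw [h2, h, Finset.powerset_univ]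
  refine Finset.sum_congr rfl fun S _ => ?_
  rw [Finset.prod_const, Finset.card_sdiff_of_subset (Finset.subset_univ S), Finset.card_univ,
    Finset.prod_mul_distrib, Finset.prod_const, wt]
  ring

theorem sum_wt (p : ℝ) : ∑ S : Finset X, wt p S = 1 := by
  have h := gf (X := X) p (fun _ => 1)
  simpa using h

theorem Pr_nonneg {p : ℝ} (h0 : 0 ≤ p) (h1 : p ≤ 1) (A : Finset X → Prop) : 0 ≤ Pr p A :=
  Finset.sum_nonneg fun S _ => wt_nonneg h0 h1 S

theorem Pr_mono {p : ℝ} (h0 : 0 ≤ p) (h1 : p ≤ 1) {A B : Finset X → Prop}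
    (h : ∀ S, A S → B S) : Pr p A ≤ Pr p B := by
  refine Finset.sum_le_sum_of_subset_of_nonneg ?_ (fun S _ _ => wt_nonneg h0 h1 S)
  intro S hS
  simp only [Finset.mem_filter, Finset.mem_univ, true_and] at hS ⊢
  exact h S hS

theorem Pr_not {p : ℝ} (A : Finset X → Prop) : Pr p A = 1 - Pr p (fun S => ¬ A S) := by
  have h2 : ∀ A : Finset X → Prop, Pr p A = ∑ S, if A S then wt p S else 0 := by
    intro A; rw [Pr, Finset.sum_filter]
  rw [h2, h2, ← sum_wt (X := X) p, ← Finset.sum_sub_distrib]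
  refine Finset.sum_congr rfl fun S _ => ?_
  by_cases h : A S <;> simp [h]

/-- union bound -/
theorem Pr_exists_le {p : ℝ} (h0 : 0 ≤ p) (h1 : p ≤ 1) {β : Type*} (s : Finset β)
    (A : β → Finset X → Prop) :
    Pr p (fun S => ∃ b ∈ s, A b S) ≤ ∑ b ∈ s, Pr p (A b) := by
  have h2 : ∀ A : Finset X → Prop, Pr p A = ∑ S, if A S then wt p S else 0 := by
    intro A; rw [Pr, Finset.sum_filter]
  simp only [h2]
  rw [Finset.sum_comm]
  refine Finset.sum_le_sum fun S _ => ?_
  by_cases hS : ∃ b ∈ s, A b S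
  · rw [if_pos hS]
    obtain ⟨b, hb, hA⟩ := hS
    have : (if A b S then wt p S else 0) ≤ ∑ b ∈ s, if A b S then wt p S else 0 :=
      Finset.single_le_sum (f := fun b => if A b S then wt p S else 0)
        (fun b _ => by split_ifs; exacts [wt_nonneg h0 h1 S, le_rfl]) hb
    rwa [if_pos hA] at this
  · rw [if_neg hS]
    refine Finset.sum_nonneg fun b _ => ?_
    split_ifs
    · exact wt_nonneg h0 h1 S
    · exact le_rfl

theorem Pr_or_le {p : ℝ} (h0 : 0 ≤ p) (h1 : p ≤ 1) (A B : Finset X → Prop) :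
    Pr p (fun S => A S ∨ B S) ≤ Pr p A + Pr p B := by
  have h := Pr_exists_le h0 h1 (Finset.univ : Finset Bool) (fun b S => if b then A S else B S)
  simp only [Fintype.sum_bool] at h
  refine le_trans (Pr_mono h0 h1 ?_) h
  rintro S (h | h)
  · exact ⟨true, Finset.mem_univ _, h⟩
  · exact ⟨false, Finset.mem_univ _, h⟩

/-- Markov's inequality with a product weight; all tail estimates follow from it. -/
theorem Pr_le_weight {p : ℝ} (h0 : 0 ≤ p) (h1 : p ≤ 1) (A : Finset X → Prop) (g : X → ℝ)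
    (hg : ∀ x, 0 ≤ g x) {M : ℝ} (hM : 0 < M) (hA : ∀ S, A S → M ≤ ∏ x ∈ S, g x) :
    Pr p A ≤ Real.exp (p * ∑ x, (g x - 1)) / M := by
  have h2 : M * Pr p A ≤ ∏ x, (1 - p + p * g x) := by
    rw [← gf, Pr, Finset.mul_sum]
    calc ∑ S ∈ Finset.univ.filter A, M * wt p S
        ≤ ∑ S ∈ Finset.univ.filter A, wt p S * ∏ x ∈ S, g x := by
          refine Finset.sum_le_sum fun S hS => ?_
          simp only [Finset.mem_filter, Finset.mem_univ, true_and] at hS
          rw [mul_comm]
          exact mul_le_mul_of_nonneg_left (hA S hS) (wt_nonneg h0 h1 S)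
      _ ≤ ∑ S : Finset X, wt p S * ∏ x ∈ S, g x := by
          refine Finset.sum_le_sum_of_subset_of_nonneg (Finset.filter_subset _ _) fun S _ _ => ?_
          exact mul_nonneg (wt_nonneg h0 h1 S) (Finset.prod_nonneg fun x _ => hg x)
  have h3 : ∏ x, (1 - p + p * g x) ≤ Real.exp (p * ∑ x, (g x - 1)) := by
    rw [Finset.mul_sum, Real.exp_sum]
    refine Finset.prod_le_prod (fun x _ => ?_) fun x _ => ?_
    · have := mul_nonneg h0 (hg x); linarith
    · have := Real.add_one_le_exp (p * (g x - 1)); linarith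
  rw [le_div_iff₀ hM, mul_comm]
  exact h2.trans h3

/-- tail estimates for `|S ∩ A|`: weight `exp s` on `A` (upper tail for `s > 0`). -/
theorem Pr_upper {p : ℝ} (h0 : 0 ≤ p) (h1 : p ≤ 1) (A : Finset X) {s : ℝ} (hs : 0 ≤ s) (L : ℝ) :
    Pr p (fun S => L ≤ ((S ∩ A).card : ℝ)) ≤
      Real.exp (p * A.card * (Real.exp s - 1) - s * L) := by
  have h := Pr_le_weight (X := X) h0 h1 (fun S => L ≤ ((S ∩ A).card : ℝ))
    (fun x => if x ∈ A then Real.exp s else 1)
    (fun x => by split_ifs; exacts [(Real.exp_pos s).le, zero_le_one]) (Real.exp_pos (s * L)) ?_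
  · refine h.trans (le_of_eq ?_)
    have h3 : ∀ x : X, ((if x ∈ A then Real.exp s else 1) - 1) =
        if x ∈ A then Real.exp s - 1 else 0 := by intro x; split_ifs <;> ring
    rw [Finset.sum_congr rfl fun x _ => h3 x, Finset.sum_ite_mem, Finset.univ_inter,
      Finset.sum_const, nsmul_eq_mul, ← Real.exp_sub]
    ring_nf
  · intro S hS
    have h4 : ∏ x ∈ S, (if x ∈ A then Real.exp s else 1) = Real.exp (s * ((S ∩ A).card : ℝ)) := by
      rw [Finset.prod_ite_mem, Finset.prod_const, mul_comm s, Real.exp_nat_mul]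
    rw [h4, Real.exp_le_exp]
    exact mul_le_mul_of_nonneg_left hS hs

/-- lower tail: weight `exp (-s)` on `A`. -/
theorem Pr_lower {p : ℝ} (h0 : 0 ≤ p) (h1 : p ≤ 1) (A : Finset X) {s : ℝ} (hs : 0 ≤ s) (L : ℝ) :
    Pr p (fun S => ((S ∩ A).card : ℝ) ≤ L) ≤
      Real.exp (s * L - p * A.card * (1 - Real.exp (-s))) := by
  have h := Pr_le_weight (X := X) h0 h1 (fun S => ((S ∩ A).card : ℝ) ≤ L)
    (fun x => if x ∈ A then Real.exp (-s) else 1)
    (fun x => by split_ifs; exacts [(Real.exp_pos _).le, zero_le_one]) (Real.exp_pos (-(s * L))) ?_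
  · refine h.trans (le_of_eq ?_)
    have h3 : ∀ x : X, ((if x ∈ A then Real.exp (-s) else 1) - 1) =
        if x ∈ A then Real.exp (-s) - 1 else 0 := by intro x; split_ifs <;> ring
    rw [Finset.sum_congr rfl fun x _ => h3 x, Finset.sum_ite_mem, Finset.univ_inter,
      Finset.sum_const, nsmul_eq_mul, ← Real.exp_sub]
    ring_nf
  · intro S hS
    have h4 : ∏ x ∈ S, (if x ∈ A then Real.exp (-s) else 1) =
        Real.exp ((-s) * ((S ∩ A).card : ℝ)) := by
      rw [Finset.prod_ite_mem, Finset.prod_const, mul_comm (-s), Real.exp_nat_mul]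
    rw [h4, Real.exp_le_exp]
    nlinarith

end Prob

end Pool.Agent.Helper40.FL
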